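import Mathlib
import Pool.Agent.H776R2.Grig.Comm

set_option autoImplicit false

/-! Definitions for the exact growth of the Grigorchuk groups `G_ω` (homogeneous `ω`). -/

namespace Pool.Agent.H776R2.Om

open Pool.Agent.Results.MP_03d093_al.SphereBall Pool.Agent.H776R2.Grig

/-- sequences `ω` of letters `0, 1, 2` -/
abbrev Om := ℕ → Fin 3

/-- the columns `(ω(b), ω(c), ω(d))`: `0 ↦ (1,1,0)`, `1 ↦ (1,0,1)`, `2 ↦ (0,1,1)` -/
def col : Fin 3 → V → Bool
  | 0, .b => true
  | 0, .c => true
  | 0, .d => false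
  | 1, .b => true
  | 1, .c => false
  | 1, .d => true
  | 2, .b => false
  | 2, .c => true
  | 2, .d => true

/-- the letter with entry `0` in the column -/
def kil : Fin 3 → V
  | 0 => .d
  | 1 => .c
  | 2 => .b

/-- the shift -/
def sh (ω : Om) : Om := fun n => ω (n + 1)

/-- the iterated shift -/
def shi (i : ℕ) (ω : Om) : Om := fun n => ω (n + i)

/-- `x_ω = (a^(ω_1(x)), x_(σω))` for `x = b, c, d` (`false` is the letter 0, `true` is the letter 1) -/
def xFun (x : V) : Om → List Bool → List Bool
  | _, [] => []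
  | ω, false :: w => false :: (if col (ω 0) x then aFun w else w)
  | ω, true :: w => true :: xFun x (sh ω) w

theorem xFun_invol (x : V) (ω : Om) : Function.Involutive (xFun x ω) := by
  intro w
  induction w generalizing ω with
  | nil => rfl
  | cons y w ih =>
    cases y
    · simp only [xFun]
      split_ifs
      · rw [aFun_invol w]
      · rfl
    · simp [xFun, ih]

/-- the generators `b_ω, c_ω, d_ω` -/
def xx (ω : Om) (x : V) : P := Function.Involutive.toPerm (xFun x ω) (xFun_invol x ω)

def gno (ω : Om) : Lt → P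
  | .A => a
  | .B => xx ω .b
  | .C => xx ω .c
  | .D => xx ω .d

/-- the element given by a word -/
def evo (ω : Om) (w : List Lt) : P := (w.map (gno ω)).prod

/-- the group `G_ω` -/
def Gom (ω : Om) : Subgroup P := Subgroup.closure {a, xx ω .b, xx ω .c, xx ω .d}

/-- word length with respect to `a, b_ω, c_ω, d_ω` -/
noncomputable def lenO (ω : Om) (g : Gom ω) : ℕ :=
  sInf {n : ℕ | ∃ l : List P,
    l.length = n ∧ (∀ s ∈ l, s = a ∨ s = xx ω .b ∨ s = xx ω .c ∨ s = xx ω .d) ∧ l.prod = (g : P)}

/-- the growth function of `G_ω`: the number of elements of length at most `n` -/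
noncomputable def ballO (ω : Om) (n : ℕ) : ℕ := Nat.card {g : Gom ω // lenO ω g ≤ n}

/-- `ω` is `r`-homogeneous: every subword of length `r` contains all three letters -/
def Hom (r : ℕ) (ω : Om) : Prop := ∀ n : ℕ, ∀ x : Fin 3, ∃ i : ℕ, i < r ∧ ω (n + i) = x

/-- the weights `n_i(x)`: `n_0 = 1`; in step `i` the weight of the letter killed by `ω_i` becomes the sum of
the three weights, the other two weights are doubled -/
def nn (ω : Om) : ℕ → V → ℕ
  | 0, _ => 1
  | i + 1, x => if x = kil (ω i) then nn ω i .b + nn ω i .c + nn ω i .d else 2 * nn ω i x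

/-- `ℓ_i = max_x n_i(x)` -/
def ell (ω : Om) (i : ℕ) : ℕ := max (nn ω i .b) (max (nn ω i .c) (nn ω i .d))

/-- the doubling substitution: `κ ↦ y κ z`, `y ↦ y y`, `z ↦ z z` -/
def tho1 (k : V) : V → List V
  | .b => if k = .b then [.c, .b, .d] else [.b, .b]
  | .c => if k = .c then [.b, .c, .d] else [.c, .c]
  | .d => if k = .d then [.b, .d, .c] else [.d, .d]

def tho (k : V) (v : List V) : List V := v.flatMap (tho1 k)

/-- `tho (kil (ω 0)) (tho (kil (ω 1)) (⋯ (tho (kil (ω (i-1))) v)))`: a word for `G_(σ^i ω)` is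
transformed into a word for `G_ω` -/
def thi (ω : Om) : ℕ → List V → List V
  | 0, v => v
  | i + 1, v => thi ω i (tho (kil (ω i)) v)

/-- all letters occur an even number of times -/
def EvC (w : List Lt) : Prop := ∀ s : Lt, Even (w.count s)

/-- products of an even number of conjugates of the generator `x` -/
def Jset (x : V) (η : Om) : Subgroup P :=
  Subgroup.closure {g : P | ∃ u ∈ Gom η, ∃ v ∈ Gom η,
    g = u * xx η x * u⁻¹ * (v * xx η x * v⁻¹)}

/-! Weights for the upper bound. -/

/-- the weights of `G_(σω)` from those of `G_ω` -/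
noncomputable def stp (k : V) (α : V → ℝ) : V → ℝ :=
  fun x => if x = k then (α .b + α .c + α .d) / 2 else α x

/-- positive weights with the triangle inequalities -/
structure Tri (α : V → ℝ) : Prop where
  pos : ∀ x, 0 < α x
  tri : ∀ x y z : V, x ≠ y → y ≠ z → x ≠ z → α x ≤ α y + α z

/-- weight of a letter, `a` has weight `0` -/
noncomputable def wt (α : V → ℝ) : Lt → ℝ
  | .A => 0
  | .B => α .b
  | .C => α .c
  | .D => α .d

noncomputable def Kwo (α : V → ℝ) (w : List Lt) : ℝ := (w.map (wt α)).sum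

/-- the weighted length of an element of `G_η` -/
noncomputable def KO (η : Om) (α : V → ℝ) (g : P) : ℝ :=
  sInf {x : ℝ | ∃ w : List Lt, evo η w = g ∧ Kwo α w = x}

/-- the partition function -/
noncomputable def ZO (η : Om) (α : V → ℝ) (s : ℝ) : ENNReal :=
  ∑' g : Gom η, ENNReal.ofReal (Real.exp (-s * KO η α g))

/-- the weights `n_i(x) / 2^i` -/
noncomputable def al (ω : Om) (i : ℕ) (x : V) : ℝ := (nn ω i x : ℝ) / 2 ^ i

/-- `k(n)`: the least `k` with `n ≤ ℓ_k` (if there is one) -/
noncomputable def kk (ω : Om) (n : ℕ) : ℕ := sInf {k : ℕ | n ≤ ell ω k}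

/-- the function `F_ω(n) = 2^(2^(k(n)))` for `n ≥ 1`, `F_ω(0) = 1` -/
noncomputable def FF (ω : Om) (n : ℕ) : ℕ := if n = 0 then 1 else 2 ^ 2 ^ kk ω n

end Pool.Agent.H776R2.Om
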