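import Mathlib
import Pool.Agent.H776R2.Om.Defs

set_option autoImplicit false

/-! Task A: basic facts on the groups `G_ω`. -/

namespace Pool.Agent.H776R2.Om

open Pool.Agent.Results.MP_03d093_al.SphereBall Pool.Agent.H776R2.Grig

theorem col_eq (i : Fin 3) (x : V) : col i x = decide (x ≠ kil i) := by
  fin_cases i <;> cases x <;> rfl

theorem xx_apply (ω : Om) (x : V) (w : List Bool) : xx ω x w = xFun x ω w := rfl

theorem gno_lt (ω : Om) (x : V) : gno ω x.lt = xx ω x := by cases x <;> rfl

theorem gno_sq (ω : Om) (s : Lt) : gno ω s * gno ω s = 1 := by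
  ext1 w
  cases s
  · exact aFun_invol w
  · exact xFun_invol .b ω w
  · exact xFun_invol .c ω w
  · exact xFun_invol .d ω w

theorem gno_inv (ω : Om) (s : Lt) : (gno ω s)⁻¹ = gno ω s := by
  rw [inv_eq_iff_mul_eq_one, gno_sq]

theorem xx_sq (ω : Om) (x : V) : xx ω x * xx ω x = 1 := by
  rw [← gno_lt, gno_sq]

theorem evo_nil (ω : Om) : evo ω [] = 1 := rfl
theorem evo_cons (ω : Om) (s : Lt) (w : List Lt) : evo ω (s :: w) = gno ω s * evo ω w := by
  simp [evo]
theorem evo_append (ω : Om) (v w : List Lt) : evo ω (v ++ w) = evo ω v * evo ω w := by simp [evo]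

theorem evo_reverse (ω : Om) (w : List Lt) : evo ω w.reverse = (evo ω w)⁻¹ := by
  induction w with
  | nil => simp [evo_nil]
  | cons s u ih =>
    rw [List.reverse_cons, evo_append, ih, evo_cons, evo_cons, evo_nil, mul_one, mul_inv_rev, gno_inv]

theorem sec_xx (ω : Om) (x : V) :
    Sec (xx ω x) (if x = kil (ω 0) then 1 else a) (xx (sh ω) x) := by
  intro w
  refine ⟨?_, ?_⟩
  · rw [xx_apply]
    simp only [xFun, col_eq]
    by_cases h : x = kil (ω 0)
    · simp [h]
    · simp [h, a_apply]
  · rw [xx_apply, xx_apply]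
    simp only [xFun]

theorem A_mul_fun (x y z : V) (h1 : x ≠ y) (h2 : y ≠ z) (h3 : x ≠ z) (w : List Bool) :
    ∀ ω : Om, xFun x ω (xFun y ω w) = xFun z ω w := by
  induction w with
  | nil => intro ω; rfl
  | cons t w ih =>
    intro ω
    cases t
    · simp only [xFun]
      generalize ω 0 = i
      revert h1 h2 h3
      fin_cases i <;> cases x <;> cases y <;> cases z <;> simp [col, aFun_invol w]
    · simp [xFun, ih]

theorem xx_mul (ω : Om) (x y z : V) (h1 : x ≠ y) (h2 : y ≠ z) (h3 : x ≠ z) :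
    xx ω x * xx ω y = xx ω z := by
  ext1 w
  exact A_mul_fun x y z h1 h2 h3 w ω

theorem a_mem (ω : Om) : a ∈ Gom ω := Subgroup.subset_closure (by simp)

theorem xx_mem (ω : Om) (x : V) : xx ω x ∈ Gom ω := by
  apply Subgroup.subset_closure
  cases x <;> simp

theorem A_gno_mem (ω : Om) (s : Lt) : gno ω s ∈ Gom ω := by
  cases s
  · exact a_mem ω
  · exact xx_mem ω .b
  · exact xx_mem ω .c
  · exact xx_mem ω .d

theorem evo_mem (ω : Om) (w : List Lt) : evo ω w ∈ Gom ω := by
  induction w with
  | nil => exact (Gom ω).one_mem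
  | cons s w ih =>
    rw [evo_cons]
    exact (Gom ω).mul_mem (A_gno_mem ω s) ih

theorem exists_wordo {ω : Om} {g : P} (hg : g ∈ Gom ω) : ∃ w, evo ω w = g := by
  induction hg using Subgroup.closure_induction with
  | mem x hx =>
    simp only [Set.mem_insert_iff, Set.mem_singleton_iff] at hx
    rcases hx with h | h | h | h <;> subst h
    · exact ⟨[.A], by simp [evo, gno]⟩
    · exact ⟨[.B], by simp [evo, gno]⟩
    · exact ⟨[.C], by simp [evo, gno]⟩
    · exact ⟨[.D], by simp [evo, gno]⟩
  | one => exact ⟨[], rfl⟩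
  | mul x y _ _ hx hy =>
    obtain ⟨u, rfl⟩ := hx
    obtain ⟨v, rfl⟩ := hy
    exact ⟨u ++ v, evo_append ω u v⟩
  | inv x _ hx =>
    obtain ⟨u, rfl⟩ := hx
    exact ⟨u.reverse, evo_reverse ω u⟩

/-- the element of `G_ω` given by a word -/
def evG (ω : Om) (w : List Lt) : Gom ω := ⟨evo ω w, evo_mem ω w⟩

theorem A_list_word (ω : Om) (l : List P)
    (h : ∀ s ∈ l, s = a ∨ s = xx ω .b ∨ s = xx ω .c ∨ s = xx ω .d) :
    ∃ w : List Lt, w.map (gno ω) = l := by
  induction l with
  | nil => exact ⟨[], rfl⟩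
  | cons s l ih =>
    obtain ⟨w, hw⟩ := ih (fun t ht => h t (List.mem_cons_of_mem _ ht))
    rcases h s (by simp) with h' | h' | h' | h'
    · exact ⟨.A :: w, by simp [gno, hw, h']⟩
    · exact ⟨.B :: w, by simp [gno, hw, h']⟩
    · exact ⟨.C :: w, by simp [gno, hw, h']⟩
    · exact ⟨.D :: w, by simp [gno, hw, h']⟩

theorem lenO_eq (ω : Om) (g : Gom ω) :
    lenO ω g = sInf {n : ℕ | ∃ w : List Lt, w.length = n ∧ evG ω w = g} := by
  unfold lenO
  congr 1
  ext n
  constructor
  · rintro ⟨l, hl, h, hp⟩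
    obtain ⟨w, rfl⟩ := A_list_word ω l h
    exact ⟨w, by simpa using hl, Subtype.ext hp⟩
  · rintro ⟨w, hw, rfl⟩
    refine ⟨w.map (gno ω), by simpa using hw, ?_, rfl⟩
    intro s hs
    obtain ⟨t, -, rfl⟩ := List.mem_map.1 hs
    cases t <;> simp [gno]

theorem exists_geodo (ω : Om) (g : Gom ω) : ∃ w : List Lt, w.length = lenO ω g ∧ evG ω w = g := by
  have hne : {n : ℕ | ∃ w : List Lt, w.length = n ∧ evG ω w = g}.Nonempty := by
    obtain ⟨w, hw⟩ := exists_wordo g.2
    exact ⟨w.length, w, rfl, Subtype.ext hw⟩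
  have := Nat.sInf_mem hne
  rw [← lenO_eq] at this
  exact this

theorem lenO_le (ω : Om) (w : List Lt) : lenO ω (evG ω w) ≤ w.length := by
  rw [lenO_eq]
  exact Nat.sInf_le ⟨w, rfl, rfl⟩

theorem ballO_finite (ω : Om) (n : ℕ) : {g : Gom ω | lenO ω g ≤ n}.Finite := by
  refine ((words_finite n).image (evG ω)).subset ?_
  intro g hg
  obtain ⟨w, hw, rfl⟩ := exists_geodo ω g
  exact ⟨w, by show w.length ≤ n; rw [hw]; exact hg, rfl⟩

instance (ω : Om) (n : ℕ) : Finite {g : Gom ω // lenO ω g ≤ n} := ballO_finite ω n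

theorem ballO_mono (ω : Om) {m n : ℕ} (h : m ≤ n) : ballO ω m ≤ ballO ω n := by
  unfold ballO
  exact Nat.card_le_card_of_injective
    (fun g : {g : Gom ω // lenO ω g ≤ m} => (⟨g.1, g.2.trans h⟩ : {g : Gom ω // lenO ω g ≤ n}))
    (fun x y hxy => Subtype.ext (congrArg (fun z => z.1) hxy))

theorem ballO_zero (ω : Om) : ballO ω 0 = 1 := by
  unfold ballO
  have hs : Subsingleton {g : Gom ω // lenO ω g ≤ 0} := by
    refine ⟨fun g h => Subtype.ext ?_⟩
    have key : ∀ g : {g : Gom ω // lenO ω g ≤ 0}, g.1 = evG ω [] := by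
      intro g
      obtain ⟨w, hw, hg⟩ := exists_geodo ω g.1
      have h0 : w.length = 0 := by
        rw [hw]
        exact Nat.le_zero.1 g.2
      rw [List.length_eq_zero_iff] at h0
      rw [← hg, h0]
    rw [key g, key h]
  have hn : Nonempty {g : Gom ω // lenO ω g ≤ 0} := ⟨⟨evG ω [], lenO_le ω []⟩⟩
  exact Nat.card_unique

theorem evo_nil_apply (ω : Om) (w : List Lt) : evo ω w [] = [] := by
  induction w with
  | nil => rfl
  | cons s w ih =>
    rw [evo_cons, Equiv.Perm.mul_apply, ih]
    cases s <;> rfl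

theorem A_x_len (x : V) (v : List Bool) : ∀ ω : Om, (xFun x ω v).length = v.length := by
  induction v with
  | nil => intro ω; rfl
  | cons y v ih =>
    intro ω
    cases y
    · simp only [xFun, List.length_cons]
      split_ifs
      · rw [A_afun_len]
      · rfl
    · simp [xFun, ih]

theorem A_x_take (x : V) (v : List Bool) : ∀ (ω : Om) (n : ℕ),
    (xFun x ω v).take n = xFun x ω (v.take n) := by
  induction v with
  | nil => intro ω n; simp [xFun]
  | cons y v ih =>
    intro ω n
    cases n with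
    | zero => simp [xFun]
    | succ n =>
      cases y
      · simp only [xFun, List.take_succ_cons]
        split_ifs
        · rw [A_afun_take]
        · rfl
      · simp [xFun, ih]

theorem A_ta_gno (ω : Om) (s : Lt) : TA (gno ω s) := by
  cases s
  · exact ⟨A_afun_len, A_afun_take⟩
  · exact ⟨fun v => A_x_len .b v ω, fun v n => A_x_take .b v ω n⟩
  · exact ⟨fun v => A_x_len .c v ω, fun v n => A_x_take .c v ω n⟩
  · exact ⟨fun v => A_x_len .d v ω, fun v n => A_x_take .d v ω n⟩

theorem ta_evo (ω : Om) (w : List Lt) : TA (evo ω w) := by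
  induction w with
  | nil => exact ⟨fun v => rfl, fun v n => rfl⟩
  | cons s w ih =>
    have hs := A_ta_gno ω s
    refine ⟨fun v => ?_, fun v n => ?_⟩
    · rw [evo_cons, Equiv.Perm.mul_apply, hs.1, ih.1]
    · rw [evo_cons, Equiv.Perm.mul_apply, Equiv.Perm.mul_apply, hs.2, ih.2]

/-- the commutator computation of `Grig/Comm.lean` for general tree automorphisms -/
theorem A_lab_comm {j n : ℕ} (hj : j < n) {q μ : List Bool → Bool} {e s : P}
    (hTA' : TA e) (hTA : TA e⁻¹) (he : Lab j q e)
    (hs : Lab n (fun u => μ (u.take j) && u.getD j false) s) :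
    Lab n (fun u => μ (u.take j) && q (u.take j)) (e * s * e⁻¹ * s⁻¹) := by
  intro u hu x
  have hsi := A_inv_lab hs
  have hei := A_inv_lab he
  simp only [Equiv.Perm.mul_apply]
  rw [hsi u hu x]
  obtain ⟨u', hu'⟩ : ∃ u', u' = e⁻¹ u := ⟨_, rfl⟩
  have hul : u'.length = n := by rw [hu', hTA.1, hu]
  have hφ : ∀ y : Bool, ∃ z : Bool, e⁻¹ (u ++ [y]) = u' ++ [z] := by
    intro y
    have h1 : (e⁻¹ (u ++ [y])).length = n + 1 := by rw [hTA.1]; simp [hu]
    have h2 : (e⁻¹ (u ++ [y])).take n = u' := by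
      rw [hTA.2, List.take_append_of_le_length (by omega), List.take_of_length_le (by omega), hu']
    have h3 : ((e⁻¹ (u ++ [y])).drop n).length = 1 := by rw [List.length_drop, h1]; omega
    obtain ⟨z, hz⟩ := List.length_eq_one_iff.mp h3
    refine ⟨z, ?_⟩
    rw [← h2, ← hz, List.take_append_drop]
  choose φ hφ using hφ
  have hφ' : ∀ y, e (u' ++ [φ y]) = u ++ [y] := by
    intro y
    rw [← hφ y]
    exact Equiv.apply_symm_apply e _
  have hφn : ∀ y, φ (!y) = !(φ y) := by
    intro y
    have hne : φ (!y) ≠ φ y := by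
      intro h
      have h1 := hφ' (!y)
      rw [h, hφ' y] at h1
      have h2 : [y] = [!y] := List.append_cancel_left h1
      cases y <;> simp at h2
    cases h1 : φ (!y) <;> cases h2 : φ y <;> simp_all
  have hφx : ∀ y t, φ (xor y t) = xor (φ y) t := by
    intro y t
    cases t
    · simp
    · have := hφn y
      simpa using this
  rw [hφ, hs u' hul]
  have hkey : ∀ y t, e (u' ++ [xor (φ y) t]) = u ++ [xor y t] := by
    intro y t
    rw [← hφx, hφ']
  rw [hkey]
  have ht : u'.take j = u.take j := by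
    rw [hu', hTA.2]
    exact A_fix hTA hei _ (by rw [List.length_take]; omega)
  have hsplit : ∀ w : List Bool, w.length = n → w.take (j + 1) = w.take j ++ [w.getD j false] := by
    intro w hw
    rw [List.take_add_one, List.getD_eq_getElem?_getD]
    have : w[j]? = some (w[j]'(by omega)) := List.getElem?_eq_getElem (by omega)
    rw [this]
    rfl
  have hget : u'.getD j false = xor (u.getD j false) (q (u.take j)) := by
    have h1 : u'.take (j + 1) = u.take j ++ [xor (u.getD j false) (q (u.take j))] := by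
      rw [hu', hTA.2, hsplit u hu]
      exact hei _ (by rw [List.length_take]; omega) _
    rw [hsplit u' hul, ht] at h1
    have h2 := List.append_cancel_left h1
    simpa using h2
  show u ++ [xor (xor x (μ (u.take j) && u.getD j false)) (μ (u'.take j) && u'.getD j false)] =
    u ++ [xor x (μ (u.take j) && q (u.take j))]
  rw [ht, hget]
  cases x <;> cases μ (u.take j) <;> cases u.getD j false <;> cases q (u.take j) <;> rfl

theorem lab_commo (ω : Om) {j n : ℕ} (hj : j < n) {q μ : List Bool → Bool} {we ws : List Lt}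
    (he : Lab j q (evo ω we)) (hs : Lab n (fun u => μ (u.take j) && u.getD j false) (evo ω ws)) :
    Lab n (fun u => μ (u.take j) && q (u.take j))
      (evo ω (we ++ ws ++ we.reverse ++ ws.reverse)) := by
  have hev : evo ω (we ++ ws ++ we.reverse ++ ws.reverse) =
      evo ω we * evo ω ws * (evo ω we)⁻¹ * (evo ω ws)⁻¹ := by
    rw [evo_append, evo_append, evo_append, evo_reverse, evo_reverse]
  have hTA : TA ((evo ω we)⁻¹) := by
    rw [← evo_reverse]
    exact ta_evo ω _
  rw [hev]
  exact A_lab_comm hj (ta_evo ω we) hTA he hs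

theorem A_xfun_congr (x : V) (u : List Bool) : ∀ (η η' : Om), (∀ i < u.length, η i = η' i) →
    xFun x η u = xFun x η' u := by
  induction u with
  | nil => intro η η' _; rfl
  | cons y u ih =>
    intro η η' h
    have h0 : η 0 = η' 0 := h 0 (by simp)
    cases y
    · simp only [xFun, h0]
    · simp only [xFun]
      rw [ih (sh η) (sh η') (fun i hi => h (i + 1) (by simpa using hi))]

theorem evo_congr (N : ℕ) (η η' : Om) (h : ∀ i < N, η i = η' i) (w : List Lt) (u : List Bool)
    (hu : u.length ≤ N) : evo η w u = evo η' w u := by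
  induction w with
  | nil => rfl
  | cons s w ih =>
    rw [evo_cons, evo_cons, Equiv.Perm.mul_apply, Equiv.Perm.mul_apply, ih]
    have hl : (evo η' w u).length ≤ N := by rw [(ta_evo η' w).1]; exact hu
    have hx : ∀ x : V, xFun x η (evo η' w u) = xFun x η' (evo η' w u) := fun x =>
      A_xfun_congr x _ η η' (fun i hi => h i (by omega))
    cases s
    · rfl
    · exact hx .b
    · exact hx .c
    · exact hx .d

theorem sh_shi (i : ℕ) (ω : Om) : sh (shi i ω) = shi (i + 1) ω := by
  funext n
  simp only [sh, shi]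
  congr 1
  omega

theorem shi_zero (ω : Om) : shi 0 ω = ω := rfl

end Pool.Agent.H776R2.Om
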