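import Mathlib
import Pool.Agent.H776R2.Om.Defs
import Pool.Agent.H776R2.Om.Basic

set_option autoImplicit false

/-! Products of an even number of conjugates of a generator (task J). -/

namespace Pool.Agent.H776R2.Om

open Pool.Agent.Results.MP_03d093_al.SphereBall Pool.Agent.H776R2.Grig

theorem J_word {x : V} {η : Om} {g : P} (hg : g ∈ Jset x η) : ∃ w, evo η w = g ∧ EvC w := by
  unfold Jset at hg
  induction hg using Subgroup.closure_induction with
  | mem g hg =>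
    obtain ⟨u, hu, v, hv, rfl⟩ := hg
    obtain ⟨wu, rfl⟩ := exists_wordo hu
    obtain ⟨wv, rfl⟩ := exists_wordo hv
    refine ⟨wu ++ [x.lt] ++ wu.reverse ++ (wv ++ [x.lt] ++ wv.reverse), ?_, ?_⟩
    · simp only [evo_append, evo_reverse, evo_cons, evo_nil, gno_lt, mul_one]
    · intro s
      simp only [List.count_append, List.count_reverse]
      exact ⟨wu.count s + wv.count s + [x.lt].count s, by omega⟩
  | one => exact ⟨[], evo_nil η, fun s => by simp⟩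
  | mul g h _ _ ihg ihh =>
    obtain ⟨w, hw, hw'⟩ := ihg
    obtain ⟨v, hv, hv'⟩ := ihh
    refine ⟨w ++ v, by rw [evo_append, hw, hv], fun s => ?_⟩
    rw [List.count_append]
    exact (hw' s).add (hv' s)
  | inv g _ ih =>
    obtain ⟨w, hw, hw'⟩ := ih
    refine ⟨w.reverse, by rw [evo_reverse, hw], fun s => ?_⟩
    rw [List.count_reverse]
    exact hw' s

theorem J_conj {x : V} {η : Om} {g c : P} (hg : g ∈ Jset x η) (hc : c ∈ Gom η) :
    c * g * c⁻¹ ∈ Jset x η := by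
  unfold Jset at hg ⊢
  induction hg using Subgroup.closure_induction with
  | mem g hg =>
    obtain ⟨u, hu, v, hv, rfl⟩ := hg
    refine Subgroup.subset_closure ⟨c * u, Subgroup.mul_mem _ hc hu, c * v,
      Subgroup.mul_mem _ hc hv, ?_⟩
    group
  | one =>
    have : c * 1 * c⁻¹ = 1 := by group
    rw [this]
    exact Subgroup.one_mem _
  | mul g h _ _ ihg ihh =>
    have : c * (g * h) * c⁻¹ = (c * g * c⁻¹) * (c * h * c⁻¹) := by group
    rw [this]
    exact Subgroup.mul_mem _ ihg ihh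
  | inv g _ ih =>
    have : c * g⁻¹ * c⁻¹ = (c * g * c⁻¹)⁻¹ := by group
    rw [this]
    exact Subgroup.inv_mem _ ih

theorem J_a_sq : (a : P) * a = 1 := by
  ext1 w
  exact aFun_invol w

theorem J_a_inv : (a : P)⁻¹ = a := inv_eq_of_mul_eq_one_left J_a_sq

theorem J_xx_inv (ω : Om) (x : V) : (xx ω x)⁻¹ = xx ω x := inv_eq_of_mul_eq_one_left (xx_sq ω x)

theorem J_sec_inv {f f0 f1 : P} (h : Sec f f0 f1) : Sec f⁻¹ f0⁻¹ f1⁻¹ := by
  intro w
  constructor
  · rw [Equiv.Perm.inv_eq_iff_eq, (h _).1]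
    simp
  · rw [Equiv.Perm.inv_eq_iff_eq, (h _).2]
    simp

theorem J_xx_comm (ω : Om) (x y : V) : xx ω x * xx ω y = xx ω y * xx ω x := by
  by_cases h : x = y
  · rw [h]
  · obtain ⟨z, h1, h2⟩ : ∃ z : V, y ≠ z ∧ x ≠ z := by
      cases x <;> cases y <;> first | exact absurd rfl h | exact ⟨.b, by decide, by decide⟩ | exact ⟨.c, by decide, by decide⟩ | exact ⟨.d, by decide, by decide⟩
    rw [xx_mul ω x y z h h1 h2, xx_mul ω y x z (Ne.symm h) h2 h1]

/-- the conjugate of the killed generator -/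
def J_X (θ : Om) : P := a * xx (sh θ) (kil (θ 1)) * a

theorem J_X_sec (θ : Om) : Sec (J_X θ) (xx (sh (sh θ)) (kil (θ 1))) 1 := by
  have h := sec_xx (sh θ) (kil (θ 1))
  have h0 : kil (θ 1) = kil ((sh θ) 0) := rfl
  rw [if_pos h0] at h
  exact h.conj

theorem J_X_mem (θ : Om) : J_X θ ∈ Gom (sh θ) :=
  Subgroup.mul_mem _ (Subgroup.mul_mem _ (a_mem _) (xx_mem _ _)) (a_mem _)

theorem J_X_sq (θ : Om) : J_X θ * J_X θ = 1 := by
  have h : J_X θ * J_X θ = a * xx (sh θ) (kil (θ 1)) * (a * a) * xx (sh θ) (kil (θ 1)) * a := by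
    unfold J_X
    simp only [mul_assoc]
  rw [h, J_a_sq, mul_one, mul_assoc a, xx_sq, mul_one, J_a_sq]

theorem J_X_inv (θ : Om) : (J_X θ)⁻¹ = J_X θ := inv_eq_of_mul_eq_one_left (J_X_sq θ)

theorem J_two (x : V) (η : Om) {u v : P} (hu : u ∈ Gom η) (hv : v ∈ Gom η) :
    u * xx η x * u⁻¹ * (v * xx η x * v⁻¹) ∈ Jset x η :=
  Subgroup.subset_closure ⟨u, hu, v, hv, rfl⟩

theorem J_claim (θ : Om) {u : P} (hu : u ∈ Gom (sh (sh θ))) :
    ∃ l ∈ Gom (sh θ), ∃ u' : P, Sec l u u' ∧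
      l * J_X θ * l⁻¹ * (J_X θ)⁻¹ ∈ Jset (kil (θ 0)) (sh θ) := by
  have hx : ∀ x : V, ∃ l ∈ Gom (sh θ), ∃ u' : P, Sec l (xx (sh (sh θ)) x) u' ∧
      l * J_X θ * l⁻¹ * (J_X θ)⁻¹ ∈ Jset (kil (θ 0)) (sh θ) := by
    intro x
    refine ⟨a * xx (sh θ) x * a,
      Subgroup.mul_mem _ (Subgroup.mul_mem _ (a_mem _) (xx_mem _ _)) (a_mem _), _,
      (sec_xx (sh θ) x).conj, ?_⟩
    have hc : (a * xx (sh θ) x * a) * J_X θ = J_X θ * (a * xx (sh θ) x * a) := by
      have h1 : (a * xx (sh θ) x * a) * J_X θ =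
          a * (xx (sh θ) x * (a * a) * xx (sh θ) (kil (θ 1))) * a := by
        unfold J_X
        simp only [mul_assoc]
      have h2 : J_X θ * (a * xx (sh θ) x * a) =
          a * (xx (sh θ) (kil (θ 1)) * (a * a) * xx (sh θ) x) * a := by
        unfold J_X
        simp only [mul_assoc]
      rw [h1, h2, J_a_sq, mul_one, mul_one, J_xx_comm]
    rw [hc, mul_inv_cancel_right, mul_inv_cancel]
    exact Subgroup.one_mem _
  unfold Gom at hu
  induction hu using Subgroup.closure_induction with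
  | mem u hu =>
    rcases hu with rfl | rfl | rfl | rfl
    · by_cases h01 : kil (θ 0) = kil (θ 1)
      · obtain ⟨y, hy⟩ : ∃ y : V, y ≠ kil (θ 1) := by
          cases kil (θ 1)
          · exact ⟨.c, by decide⟩
          · exact ⟨.b, by decide⟩
          · exact ⟨.b, by decide⟩
        have hs := sec_xx (sh θ) y
        have hy' : ¬ y = kil ((sh θ) 0) := hy
        rw [if_neg hy'] at hs
        refine ⟨xx (sh θ) y, xx_mem _ _, _, hs, ?_⟩
        have he : xx (sh θ) y * J_X θ * (xx (sh θ) y)⁻¹ * (J_X θ)⁻¹ =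
            (xx (sh θ) y * a) * xx (sh θ) (kil (θ 0)) * (xx (sh θ) y * a)⁻¹ *
              (a * xx (sh θ) (kil (θ 0)) * a⁻¹) := by
          rw [J_X_inv, mul_inv_rev, J_a_inv]
          unfold J_X
          rw [h01]
          simp only [mul_assoc]
        rw [he]
        exact J_two _ _ (Subgroup.mul_mem _ (xx_mem _ _) (a_mem _)) (a_mem _)
      · have hs := sec_xx (sh θ) (kil (θ 0))
        have hy' : ¬ kil (θ 0) = kil ((sh θ) 0) := h01
        rw [if_neg hy'] at hs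
        refine ⟨xx (sh θ) (kil (θ 0)), xx_mem _ _, _, hs, ?_⟩
        have he : xx (sh θ) (kil (θ 0)) * J_X θ * (xx (sh θ) (kil (θ 0)))⁻¹ * (J_X θ)⁻¹ =
            1 * xx (sh θ) (kil (θ 0)) * 1⁻¹ * (J_X θ * xx (sh θ) (kil (θ 0)) * (J_X θ)⁻¹) := by
          rw [J_xx_inv]
          simp only [mul_assoc, one_mul, inv_one, mul_one]
        rw [he]
        exact J_two _ _ (Subgroup.one_mem _) (J_X_mem θ)
    · exact hx .b
    · exact hx .c
    · exact hx .d
  | one =>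
    refine ⟨1, Subgroup.one_mem _, 1, Sec.one, ?_⟩
    have : (1 : P) * J_X θ * 1⁻¹ * (J_X θ)⁻¹ = 1 := by group
    rw [this]
    exact Subgroup.one_mem _
  | mul u v _ _ ihu ihv =>
    obtain ⟨l, hl, u', hs, hj⟩ := ihu
    obtain ⟨m, hm, v', hs', hj'⟩ := ihv
    refine ⟨l * m, Subgroup.mul_mem _ hl hm, _, hs.mul hs', ?_⟩
    have he : l * m * J_X θ * (l * m)⁻¹ * (J_X θ)⁻¹ =
        (l * (m * J_X θ * m⁻¹ * (J_X θ)⁻¹) * l⁻¹) * (l * J_X θ * l⁻¹ * (J_X θ)⁻¹) := by group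
    rw [he]
    exact Subgroup.mul_mem _ (J_conj hj' hl) hj
  | inv u _ ih =>
    obtain ⟨l, hl, u', hs, hj⟩ := ih
    refine ⟨l⁻¹, Subgroup.inv_mem _ hl, _, J_sec_inv hs, ?_⟩
    have he : l⁻¹ * J_X θ * l⁻¹⁻¹ * (J_X θ)⁻¹ =
        l⁻¹ * (l * J_X θ * l⁻¹ * (J_X θ)⁻¹)⁻¹ * l⁻¹⁻¹ := by group
    rw [he]
    exact J_conj (Subgroup.inv_mem _ hj) (Subgroup.inv_mem _ hl)

theorem J_lift (θ : Om) {g : P} (hg : g ∈ Jset (kil (θ 1)) (sh (sh θ))) :
    ∃ f ∈ Jset (kil (θ 0)) (sh θ), Sec f g 1 := by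
  unfold Jset at hg
  induction hg using Subgroup.closure_induction with
  | mem g hg =>
    obtain ⟨u, hu, v, hv, rfl⟩ := hg
    obtain ⟨l, hl, u', hs, hj⟩ := J_claim θ hu
    obtain ⟨m, hm, v', hs', hj'⟩ := J_claim θ hv
    refine ⟨(l * J_X θ * l⁻¹) * (m * J_X θ * m⁻¹), ?_, ?_⟩
    · have he : (l * J_X θ * l⁻¹) * (m * J_X θ * m⁻¹) =
          (l * J_X θ * l⁻¹ * (J_X θ)⁻¹) * (J_X θ * (m * J_X θ * m⁻¹ * (J_X θ)⁻¹) * (J_X θ)⁻¹) *
            (J_X θ * J_X θ) := by group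
      rw [he, J_X_sq, mul_one]
      exact Subgroup.mul_mem _ hj (J_conj hj' (J_X_mem θ))
    · have h1 := ((hs.mul (J_X_sec θ)).mul (J_sec_inv hs)).mul
        ((hs'.mul (J_X_sec θ)).mul (J_sec_inv hs'))
      rw [mul_one, mul_inv_cancel, mul_one, mul_inv_cancel, mul_one] at h1
      exact h1
  | one => exact ⟨1, Subgroup.one_mem _, Sec.one⟩
  | mul g h _ _ ihg ihh =>
    obtain ⟨f, hf, hs⟩ := ihg
    obtain ⟨f', hf', hs'⟩ := ihh
    refine ⟨f * f', Subgroup.mul_mem _ hf hf', ?_⟩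
    have h1 := hs.mul hs'
    rwa [mul_one] at h1
  | inv g _ ih =>
    obtain ⟨f, hf, hs⟩ := ih
    refine ⟨f⁻¹, Subgroup.inv_mem _ hf, ?_⟩
    have h1 := J_sec_inv hs
    rwa [inv_one] at h1

theorem J_base (θ : Om) (h : θ 0 ≠ θ 1) :
    ∃ g ∈ Jset (kil (θ 0)) (sh θ), Lab 1 (fun _ => true) g := by
  have hk : ¬ kil (θ 0) = kil ((sh θ) 0) := by
    show ¬ kil (θ 0) = kil (θ 1)
    revert h
    generalize θ 0 = i
    generalize θ 1 = j
    revert i j
    decide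
  have hs := sec_xx (sh θ) (kil (θ 0))
  rw [if_neg hk] at hs
  have hs2 := hs.conj.mul hs
  refine ⟨a * xx (sh θ) (kil (θ 0)) * a * xx (sh θ) (kil (θ 0)), ?_, ?_⟩
  · have he : a * xx (sh θ) (kil (θ 0)) * a * xx (sh θ) (kil (θ 0)) =
        a * xx (sh θ) (kil (θ 0)) * a⁻¹ * (1 * xx (sh θ) (kil (θ 0)) * 1⁻¹) := by
      rw [J_a_inv, one_mul, inv_one, mul_one]
    rw [he]
    exact J_two _ _ (a_mem _) (Subgroup.one_mem _)
  · have hfix : ∀ (ω : Om) (x : V) (t : Bool), xx ω x [t] = [t] := by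
      intro ω x t
      show xFun x ω [t] = [t]
      cases t
      · simp [xFun, aFun]
      · simp [xFun]
    intro u hu x
    obtain ⟨y, rfl⟩ := List.length_eq_one_iff.mp hu
    show (a * xx (sh θ) (kil (θ 0)) * a * xx (sh θ) (kil (θ 0))) (y :: [x]) = [y, xor x true]
    cases y
    · rw [(hs2 _).1, Equiv.Perm.mul_apply, a_apply]
      simp [aFun, hfix]
    · rw [(hs2 _).2, Equiv.Perm.mul_apply, hfix, a_apply]
      simp [aFun]

end Pool.Agent.H776R2.Om
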