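import Mathlib
import Pool.Agent.H776R2.Om.Defs

set_option autoImplicit false

/-! Task D: contraction inequality for weighted lengths. -/

namespace Pool.Agent.H776R2.Om

open Pool.Agent.Results.MP_03d093_al.SphereBall Pool.Agent.H776R2.Grig

theorem D_gno_lt (ω : Om) (x : V) : gno ω x.lt = xx ω x := by cases x <;> rfl

theorem D_evo_cons (ω : Om) (s : Lt) (w : List Lt) : evo ω (s :: w) = gno ω s * evo ω w := by
  simp [evo]

theorem D_evo_append (ω : Om) (v w : List Lt) : evo ω (v ++ w) = evo ω v * evo ω w := by
  simp [evo]

theorem D_col (i : Fin 3) (x : V) : col i x = decide (x ≠ kil i) := by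
  fin_cases i <;> cases x <;> rfl

theorem D_sec (ω : Om) (x : V) :
    Sec (xx ω x) (if x = kil (ω 0) then 1 else a) (xx (sh ω) x) := by
  intro w
  constructor
  · show xFun x ω (false :: w) = _
    simp only [xFun]
    rw [D_col]
    by_cases h : x = kil (ω 0)
    · simp [h]
    · simp [h, a_apply]
  · rfl

theorem D_xx_sq (ω : Om) (x : V) : xx ω x * xx ω x = 1 := by
  ext1 w
  exact xFun_invol x ω w

theorem D_rel (x y z : V) (h1 : x ≠ y) (h2 : y ≠ z) (h3 : x ≠ z) (w : List Bool) :
    ∀ ω : Om, xFun x ω (xFun y ω w) = xFun z ω w := by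
  induction w with
  | nil => intro ω; simp [xFun]
  | cons t w ih =>
    intro ω
    cases t
    · simp only [xFun]
      have haa := aFun_invol w
      generalize ω 0 = i
      fin_cases i <;> cases x <;> cases y <;> cases z <;> simp_all [col]
    · simp only [xFun]
      rw [ih]

theorem D_xx_mul (ω : Om) (x y z : V) (h1 : x ≠ y) (h2 : y ≠ z) (h3 : x ≠ z) :
    xx ω x * xx ω y = xx ω z := by
  ext1 w
  exact D_rel x y z h1 h2 h3 w ω

theorem D_aa : a * a = 1 := aa

theorem tri_stp {α : V → ℝ} (h : Tri α) (k : V) : Tri (stp k α) := by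
  have hb := h.pos .b
  have hc := h.pos .c
  have hd := h.pos .d
  have t1 := h.tri .b .c .d (by decide) (by decide) (by decide)
  have t2 := h.tri .c .b .d (by decide) (by decide) (by decide)
  have t3 := h.tri .d .b .c (by decide) (by decide) (by decide)
  refine ⟨?_, ?_⟩
  · intro x
    unfold stp
    split_ifs
    · linarith
    · exact h.pos x
  · intro x y z h1 h2 h3
    unfold stp
    cases k <;> cases x <;> cases y <;> cases z <;> simp at h1 h2 h3 ⊢ <;> linarith

/-- the element of an optional letter -/
def D_el (ω : Om) : Option V → P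
  | none => 1
  | some x => xx ω x

/-- the word of an optional letter -/
def D_wd : Option V → List Lt
  | none => []
  | some x => [x.lt]

theorem D_el_wd (ω : Om) (y : Option V) : evo ω (D_wd y) = D_el ω y := by
  cases y
  · rfl
  · simp [D_wd, D_el, evo, D_gno_lt]

/-- product in the Klein group -/
def D_mul : V → Option V → Option V
  | x, none => some x
  | .b, some .b => none
  | .b, some .c => some .d
  | .b, some .d => some .c
  | .c, some .b => some .d
  | .c, some .c => none
  | .c, some .d => some .b
  | .d, some .b => some .c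
  | .d, some .c => some .b
  | .d, some .d => none

theorem D_mul_el (ω : Om) (x : V) (y : Option V) : xx ω x * D_el ω y = D_el ω (D_mul x y) := by
  rcases y with _ | y
  · cases x <;> simp [D_mul, D_el]
  · cases x <;> cases y
    · exact D_xx_sq ω _
    · exact D_xx_mul ω _ _ _ (by decide) (by decide) (by decide)
    · exact D_xx_mul ω _ _ _ (by decide) (by decide) (by decide)
    · exact D_xx_mul ω _ _ _ (by decide) (by decide) (by decide)
    · exact D_xx_sq ω _
    · exact D_xx_mul ω _ _ _ (by decide) (by decide) (by decide)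
    · exact D_xx_mul ω _ _ _ (by decide) (by decide) (by decide)
    · exact D_xx_mul ω _ _ _ (by decide) (by decide) (by decide)
    · exact D_xx_sq ω _

noncomputable def D_phi (k : V) (α : V → ℝ) : Option V → ℝ
  | none => stp k α k - α k
  | some x => stp k α x

theorem D_phi_le {α : V → ℝ} (h : Tri α) (k x : V) (y : Option V) :
    D_phi k α (D_mul x y) ≤ D_phi k α y - (stp k α k - α k) + stp k α x := by
  have hb := h.pos .b
  have hc := h.pos .c
  have hd := h.pos .d
  have t1 := h.tri .b .c .d (by decide) (by decide) (by decide)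
  have t2 := h.tri .c .b .d (by decide) (by decide) (by decide)
  have t3 := h.tri .d .b .c (by decide) (by decide) (by decide)
  rcases y with _ | y
  · cases x <;> simp [D_mul, D_phi]
  · cases k <;> cases x <;> cases y <;> simp [D_mul, D_phi, stp] <;> linarith

theorem D_wd_le {α : V → ℝ} (h : Tri α) (k : V) (y : Option V) :
    Kwo (stp k α) (D_wd y) ≤ D_phi k α y := by
  have hb := h.pos .b
  have hc := h.pos .c
  have hd := h.pos .d
  have t1 := h.tri .b .c .d (by decide) (by decide) (by decide)
  have t2 := h.tri .c .b .d (by decide) (by decide) (by decide)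
  have t3 := h.tri .d .b .c (by decide) (by decide) (by decide)
  rcases y with _ | y
  · cases k <;> simp [D_wd, D_phi, Kwo, stp] <;> linarith
  · cases y <;> simp [D_wd, D_phi, Kwo, V.lt, wt]

theorem D_Kwo_append (α : V → ℝ) (v w : List Lt) : Kwo α (v ++ w) = Kwo α v + Kwo α w := by
  simp [Kwo]

theorem D_Kwo_cons (α : V → ℝ) (x : Lt) (w : List Lt) : Kwo α (x :: w) = wt α x + Kwo α w := by
  simp [Kwo]

theorem D_U_cons (x : V) (v : List V) : U (x :: v) = x.lt :: Lt.A :: U v := by
  simp [U]

theorem D_wt (α : V → ℝ) (x : V) : wt α x.lt = α x := by cases x <;> rfl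

theorem D_main (η : Om) (α : V → ℝ) (hα : Tri α) (v : List V) :
    ∃ (y0 y1 : Option V) (w0 w1 : List Lt),
    (Even v.length → Sec (evo η (U v)) (D_el (sh η) y0 * evo (sh η) w0)
      (D_el (sh η) y1 * evo (sh η) w1)) ∧
    (¬ Even v.length → Sec (evo η (U v) * a) (D_el (sh η) y0 * evo (sh η) w0)
      (D_el (sh η) y1 * evo (sh η) w1)) ∧
    (D_phi (kil (η 0)) α y0 + Kwo (stp (kil (η 0)) α) w0) +
      (D_phi (kil (η 0)) α y1 + Kwo (stp (kil (η 0)) α) w1) ≤
      Kwo α (U v) + 2 * (stp (kil (η 0)) α (kil (η 0)) - α (kil (η 0))) := by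
  set k := kil (η 0) with hk
  induction v with
  | nil =>
    refine ⟨none, none, [], [], ?_, ?_, ?_⟩
    · intro _
      simpa [U, D_el, evo] using Sec.one
    · intro h
      exact absurd (by simp) h
    · simp only [D_phi, Kwo, U, List.flatMap_nil, List.map_nil, List.sum_nil]
      linarith
  | cons x v ih =>
    obtain ⟨y0, y1, w0, w1, h1, h2, h3⟩ := ih
    -- the sections of the new element
    have key : (Even (x :: v).length → Sec (evo η (U (x :: v)))
        ((if x = k then 1 else a) * (D_el (sh η) y1 * evo (sh η) w1))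
        (xx (sh η) x * (D_el (sh η) y0 * evo (sh η) w0))) ∧
        (¬ Even (x :: v).length → Sec (evo η (U (x :: v)) * a)
        ((if x = k then 1 else a) * (D_el (sh η) y1 * evo (sh η) w1))
        (xx (sh η) x * (D_el (sh η) y0 * evo (sh η) w0))) := by
      constructor
      · intro he
        have ho : ¬ Even v.length := by
          rw [List.length_cons, Nat.even_add_one] at he; exact he
        have := (D_sec η x).mul (h2 ho).conj
        have e : evo η (U (x :: v)) = xx η x * (a * (evo η (U v) * a) * a) := by
          rw [D_U_cons, D_evo_cons, D_evo_cons, D_gno_lt]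
          simp only [gno, mul_assoc, aa, mul_one]
        rw [e]; exact this
      · intro he
        have ho : Even v.length := by
          rw [List.length_cons, Nat.even_add_one, not_not] at he; exact he
        have := (D_sec η x).mul (h1 ho).conj
        have e : evo η (U (x :: v)) * a = xx η x * (a * evo η (U v) * a) := by
          rw [D_U_cons, D_evo_cons, D_evo_cons, D_gno_lt]
          simp only [gno, mul_assoc]
        rw [e]; exact this
    have hK : Kwo α (U (x :: v)) = α x + Kwo α (U v) := by
      rw [D_U_cons, D_Kwo_cons, D_Kwo_cons, D_wt]; simp [wt]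
    have e1 : xx (sh η) x * (D_el (sh η) y0 * evo (sh η) w0) =
        D_el (sh η) (D_mul x y0) * evo (sh η) w0 := by
      rw [← mul_assoc, D_mul_el]
    have hp := D_phi_le hα k x y0
    have hy := D_wd_le hα k y1
    by_cases hx : x = k
    · refine ⟨y1, D_mul x y0, w1, w0, ?_, ?_, ?_⟩
      · intro he
        have := key.1 he
        rw [e1, if_pos hx, one_mul] at this
        exact this
      · intro he
        have := key.2 he
        rw [e1, if_pos hx, one_mul] at this
        exact this
      · rw [hK]
        have hkx : stp k α x - (stp k α k - α k) = α x := by rw [hx]; ring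
        linarith
    · refine ⟨none, D_mul x y0, Lt.A :: (D_wd y1 ++ w1), w0, ?_, ?_, ?_⟩
      · intro he
        have := key.1 he
        rw [e1, if_neg hx] at this
        simpa [D_el, D_evo_cons, D_evo_append, D_el_wd, gno] using this
      · intro he
        have := key.2 he
        rw [e1, if_neg hx] at this
        simpa [D_el, D_evo_cons, D_evo_append, D_el_wd, gno] using this
      · rw [hK, D_Kwo_cons, D_Kwo_append]
        have h4 : D_phi k α none = stp k α k - α k := rfl
        have h5 : wt (stp k α) Lt.A = 0 := rfl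
        have h6 : stp k α x = α x := by unfold stp; rw [if_neg hx]
        rw [h4, h5]
        rw [h6] at hp
        linarith

theorem contro (η : Om) (α : V → ℝ) (hα : Tri α) (v : List V) : ∃ w0 w1 : List Lt,
    (Even v.length → Sec (evo η (U v)) (evo (sh η) w0) (evo (sh η) w1)) ∧
    (¬ Even v.length → Sec (evo η (U v) * a) (evo (sh η) w0) (evo (sh η) w1)) ∧
    Kwo (stp (kil (η 0)) α) w0 + Kwo (stp (kil (η 0)) α) w1 ≤
      Kwo α (U v) + 2 * (stp (kil (η 0)) α (kil (η 0)) - α (kil (η 0))) := by
  obtain ⟨y0, y1, w0, w1, h1, h2, h3⟩ := D_main η α hα v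
  refine ⟨D_wd y0 ++ w0, D_wd y1 ++ w1, ?_, ?_, ?_⟩
  · intro he
    rw [D_evo_append, D_evo_append, D_el_wd, D_el_wd]
    exact h1 he
  · intro he
    rw [D_evo_append, D_evo_append, D_el_wd, D_el_wd]
    exact h2 he
  · rw [D_Kwo_append, D_Kwo_append]
    have := D_wd_le hα (kil (η 0)) y0
    have := D_wd_le hα (kil (η 0)) y1
    linarith

end Pool.Agent.H776R2.Om
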