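import Mathlib
import Pool.Agent.H776R2.Om.Defs
import Pool.Agent.H776R2.Om.Basic

set_option autoImplicit false

/-! Task C: normal form of words. -/

namespace Pool.Agent.H776R2.Om

open Pool.Agent.Results.MP_03d093_al.SphereBall Pool.Agent.H776R2.Grig

/-- Kronecker delta -/
def C_dl (x y : V) : ℕ := if x = y then 1 else 0

theorem C_third (x y : V) (h : x ≠ y) : ∃ z : V, y ≠ z ∧ x ≠ z := by
  cases x <;> cases y <;> first
    | exact absurd rfl h
    | exact ⟨.b, by decide, by decide⟩
    | exact ⟨.c, by decide, by decide⟩
    | exact ⟨.d, by decide, by decide⟩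

theorem C_par (x y z p q : V) (h1 : x ≠ y) (h2 : y ≠ z) (h3 : x ≠ z) (h4 : p ≠ q) :
    (Even (C_dl z p + C_dl z q) ↔ Even (C_dl x p + C_dl x q + (C_dl y p + C_dl y q))) := by
  cases x <;> cases y <;> first
    | exact absurd rfl h1
    | (cases z <;> first
        | exact absurd rfl h2
        | exact absurd rfl h3
        | (cases p <;> cases q <;> first
            | exact absurd rfl h4
            | decide))

theorem C_wt_lt (α : V → ℝ) (x : V) : wt α x.lt = α x := by
  cases x <;> rfl

theorem C_pair (η : Om) {α : V → ℝ} (hα : Tri α) (x y : V) :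
    (gno η x.lt * gno η y.lt = 1 ∧
      ∀ p q : V, p ≠ q → Even (C_dl x p + C_dl x q + (C_dl y p + C_dl y q))) ∨
    ∃ z : V, gno η x.lt * gno η y.lt = gno η z.lt ∧ wt α z.lt ≤ wt α x.lt + wt α y.lt ∧
      ∀ p q : V, p ≠ q →
        (Even (C_dl z p + C_dl z q) ↔ Even (C_dl x p + C_dl x q + (C_dl y p + C_dl y q))) := by
  by_cases hxy : x = y
  · subst hxy
    left
    exact ⟨gno_sq η _, fun p q _ => ⟨C_dl x p + C_dl x q, rfl⟩⟩
  · obtain ⟨z, hyz, hxz⟩ := C_third x y hxy
    right
    refine ⟨z, ?_, ?_, fun p q hpq => C_par x y z p q hxy hyz hxz hpq⟩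
    · rw [gno_lt, gno_lt, gno_lt]
      exact xx_mul η x y z hxy hyz hxz
    · rw [C_wt_lt, C_wt_lt, C_wt_lt]
      exact hα.tri z x y (Ne.symm hxz) hxy (Ne.symm hyz)

theorem C_lt_cases (s : Lt) : s = Lt.A ∨ ∃ x : V, s = x.lt := by
  cases s
  · exact Or.inl rfl
  · exact Or.inr ⟨.b, rfl⟩
  · exact Or.inr ⟨.c, rfl⟩
  · exact Or.inr ⟨.d, rfl⟩

theorem C_U_cons (x : V) (v : List V) : U (x :: v) = x.lt :: Lt.A :: U v := rfl

theorem C_ev_U_cons (η : Om) (x : V) (v : List V) :
    evo η (U (x :: v)) = gno η x.lt * (a * evo η (U v)) := by
  rw [C_U_cons, evo_cons, evo_cons]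
  rfl

theorem C_Kw_cons (α : V → ℝ) (s : Lt) (w : List Lt) : Kwo α (s :: w) = wt α s + Kwo α w := by
  simp [Kwo]

theorem C_Kw_U_cons (α : V → ℝ) (x : V) (v : List V) :
    Kwo α (U (x :: v)) = wt α x.lt + Kwo α (U v) := by
  rw [C_U_cons, C_Kw_cons, C_Kw_cons]
  simp [wt]

theorem C_wt_nonneg {α : V → ℝ} (hα : Tri α) (s : Lt) : 0 ≤ wt α s := by
  cases s
  · exact le_rfl
  · exact (hα.pos _).le
  · exact (hα.pos _).le
  · exact (hα.pos _).le

theorem C_countV (x p : V) (v : List V) : (x :: v).count p = C_dl x p + v.count p := by
  rw [List.count_cons]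
  unfold C_dl
  by_cases h : x = p
  · simp [h]
    omega
  · simp [h]

theorem C_countLt (x p : V) (w : List Lt) :
    (x.lt :: w).count p.lt = C_dl x p + w.count p.lt := by
  rw [List.count_cons]
  cases x <;> cases p <;> simp [C_dl, V.lt] <;> omega

theorem C_countLA (p : V) (w : List Lt) : (Lt.A :: w).count p.lt = w.count p.lt := by
  cases p <;> simp [V.lt]

theorem C_countA (x : V) (w : List Lt) : (x.lt :: w).count Lt.A = w.count Lt.A := by
  cases x <;> simp [V.lt]

theorem C_a_pa (e : Bool) : a * pa e = pa (!e) := by
  cases e
  · simp [pa]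
  · simp [pa, aa]

theorem normal_formo (η : Om) (α : V → ℝ) (hα : Tri α) (w : List Lt) :
    ∃ (e e' : Bool) (v : List V),
    evo η w = pa e * evo η (U v) * pa e' ∧ v.length ≤ w.length ∧ Kwo α (U v) ≤ Kwo α w ∧
    (∀ y z : V, y ≠ z → (Even (v.count y + v.count z) ↔ Even (w.count y.lt + w.count z.lt))) ∧
    (Even (v.length + e.toNat + e'.toNat) ↔ Even (w.count Lt.A)) := by
  induction w with
  | nil =>
    refine ⟨false, false, [], ?_, le_rfl, le_rfl, by simp, by simp⟩
    have h0 : evo η (U []) = 1 := rfl
    have h1 : evo η [] = 1 := rfl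
    rw [h0, h1]
    simp [pa]
  | cons s w ih =>
    obtain ⟨e, e', v, hev, hlen, hK, hcd, hA⟩ := ih
    rcases C_lt_cases s with rfl | ⟨x, rfl⟩
    · refine ⟨!e, e', v, ?_, by simp; omega, ?_, ?_, ?_⟩
      · rw [evo_cons, hev, ← C_a_pa]
        simp [gno, mul_assoc]
      · rw [C_Kw_cons]; simp only [wt]; linarith
      · intro p q hpq
        rw [C_countLA, C_countLA]
        exact hcd p q hpq
      · rw [List.count_cons_self]
        cases e
        · simp only [Bool.toNat_false, Bool.not_false, Bool.toNat_true] at hA ⊢
          rw [Nat.even_add_one, ← hA]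
          rw [show v.length + 1 + e'.toNat = (v.length + 0 + e'.toNat) + 1 by ring, Nat.even_add_one]
        · simp only [Bool.toNat_false, Bool.not_true, Bool.toNat_true] at hA ⊢
          rw [Nat.even_add_one, ← hA]
          rw [show v.length + 1 + e'.toNat = (v.length + 0 + e'.toNat) + 1 by ring, Nat.even_add_one]
          tauto
    · cases e with
      | true =>
        refine ⟨false, e', x :: v, ?_, by simp; omega, ?_, ?_, ?_⟩
        · rw [evo_cons, hev, C_ev_U_cons]
          simp [pa, mul_assoc]
        · rw [C_Kw_cons, C_Kw_U_cons]; linarith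
        · intro p q hpq
          have h := hcd p q hpq
          rw [C_countV, C_countV, C_countLt, C_countLt]
          simp only [Nat.even_iff] at h ⊢
          omega
        · rw [C_countA, ← hA]
          simp only [List.length_cons, Bool.toNat_false, Bool.toNat_true, Nat.even_iff]
      | false =>
        cases v with
        | nil =>
          refine ⟨false, !e', [x], ?_, by simp, ?_, ?_, ?_⟩
          · have h0 : evo η (U []) = 1 := rfl
            have h3 : a * pa (!e') = pa e' := by rw [C_a_pa, Bool.not_not]
            rw [evo_cons, hev, C_ev_U_cons, h0, ← h3]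
            simp [pa, mul_assoc]
          · rw [C_Kw_cons, C_Kw_U_cons]; linarith
          · intro p q hpq
            have h := hcd p q hpq
            rw [C_countV, C_countV, C_countLt, C_countLt]
            simp only [Nat.even_iff] at h ⊢
            omega
          · rw [C_countA, ← hA]
            cases e' <;> simp
        | cons y v =>
          rcases C_pair η hα x y with ⟨h1, h2⟩ | ⟨z, h1, h2, h3⟩
          · refine ⟨true, e', v, ?_, by simp at hlen ⊢; omega, ?_, ?_, ?_⟩
            · rw [evo_cons, hev, C_ev_U_cons]
              have : gno η x.lt * (pa false * (gno η y.lt * (a * evo η (U v))) * pa e')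
                  = (gno η x.lt * gno η y.lt) * (a * evo η (U v) * pa e') := by
                simp [pa, mul_assoc]
              rw [this, h1]
              simp [pa]
            · rw [C_Kw_cons]
              rw [C_Kw_U_cons] at hK
              have := C_wt_nonneg hα x.lt
              have := C_wt_nonneg hα y.lt
              linarith
            · intro p q hpq
              have h := hcd p q hpq
              have h' := h2 p q hpq
              rw [C_countLt, C_countLt]
              rw [C_countV, C_countV] at h
              simp only [Nat.even_iff] at h h' ⊢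
              omega
            · rw [C_countA, ← hA]
              simp only [List.length_cons, Bool.toNat_false, Bool.toNat_true, Nat.even_iff]
          · refine ⟨false, e', z :: v, ?_, by simp at hlen ⊢; omega, ?_, ?_, ?_⟩
            · rw [evo_cons, hev, C_ev_U_cons, C_ev_U_cons]
              have : gno η x.lt * (pa false * (gno η y.lt * (a * evo η (U v))) * pa e')
                  = (gno η x.lt * gno η y.lt) * (a * evo η (U v) * pa e') := by
                simp [pa, mul_assoc]
              rw [this, h1]
              simp [pa, mul_assoc]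
            · rw [C_Kw_cons, C_Kw_U_cons]
              rw [C_Kw_U_cons] at hK
              linarith
            · intro p q hpq
              have h := hcd p q hpq
              have h' := h3 p q hpq
              rw [C_countLt, C_countLt, C_countV, C_countV]
              rw [C_countV, C_countV] at h
              simp only [Nat.even_iff] at h h' ⊢
              omega
            · rw [C_countA, ← hA]
              simp only [List.length_cons, Bool.toNat_false]

end Pool.Agent.H776R2.Om
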