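import Mathlib
import Pool.Agent.H776R2.Om.Defs
import Pool.Agent.H776R2.Om.Norm
import Pool.Agent.H776R2.Om.Contr

set_option autoImplicit false

/-! Task E: properties of the weighted length `KO`. -/

namespace Pool.Agent.H776R2.Om

open Pool.Agent.Results.MP_03d093_al.SphereBall Pool.Agent.H776R2.Grig

theorem E_wt_nonneg {α : V → ℝ} (hα : Tri α) (s : Lt) : 0 ≤ wt α s := by
  cases s <;> simp only [wt]
  · exact le_rfl
  · exact (hα.pos _).le
  · exact (hα.pos _).le
  · exact (hα.pos _).le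

theorem E_wt_le {α : V → ℝ} (hα : Tri α) {M : ℝ} (hM : ∀ x, α x ≤ M) (s : Lt) : wt α s ≤ M := by
  cases s <;> simp only [wt]
  · exact (hα.pos .b).le.trans (hM .b)
  · exact hM _
  · exact hM _
  · exact hM _

theorem E_Kwo_nonneg {α : V → ℝ} (hα : Tri α) (w : List Lt) : 0 ≤ Kwo α w := by
  unfold Kwo
  apply List.sum_nonneg
  intro x hx
  rw [List.mem_map] at hx
  obtain ⟨s, _, rfl⟩ := hx
  exact E_wt_nonneg hα s

theorem E_Kwo_le {α : V → ℝ} (hα : Tri α) {M : ℝ} (hM : ∀ x, α x ≤ M) (w : List Lt) :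
    Kwo α w ≤ M * w.length := by
  induction w with
  | nil => simp [Kwo]
  | cons s w ih =>
    unfold Kwo at ih ⊢
    rw [List.map_cons, List.sum_cons, List.length_cons]
    push_cast
    have := E_wt_le hα hM s
    linarith

theorem E_len_U {α : V → ℝ} {c : ℝ} (h : ∀ x, c ≤ α x) (v : List V) :
    c * (v.length : ℝ) ≤ Kwo α (U v) := by
  induction v with
  | nil => simp [Kwo, U]
  | cons x v ih =>
    have h1 : Kwo α (U (x :: v)) = wt α x.lt + wt α Lt.A + Kwo α (U v) := by
      simp only [U, Kwo, List.flatMap_cons, List.map_append, List.sum_append, List.map_cons,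
        List.map_nil, List.sum_cons, List.sum_nil]
      ring
    have h2 : c ≤ wt α x.lt := by
      cases x <;> exact h _
    have h3 : wt α Lt.A = 0 := rfl
    rw [h1, h3, List.length_cons]
    push_cast
    linarith

theorem E_U_length (v : List V) : (U v).length = 2 * v.length := by
  induction v with
  | nil => rfl
  | cons x v ih =>
    have h1 : U (x :: v) = x.lt :: Lt.A :: U v := by simp [U]
    rw [h1, List.length_cons, List.length_cons, List.length_cons, ih]
    omega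

theorem E_bdd (η : Om) {α : V → ℝ} (hα : Tri α) (g : P) :
    BddBelow {x : ℝ | ∃ w : List Lt, evo η w = g ∧ Kwo α w = x} := by
  refine ⟨0, ?_⟩
  rintro x ⟨w, _, rfl⟩
  exact E_Kwo_nonneg hα w

theorem KO_nonneg (η : Om) (α : V → ℝ) (hα : Tri α) (g : P) : 0 ≤ KO η α g := by
  apply Real.sInf_nonneg
  rintro x ⟨w, _, rfl⟩
  exact E_Kwo_nonneg hα w

theorem E_K_le (η : Om) {α : V → ℝ} (hα : Tri α) (w : List Lt) : KO η α (evo η w) ≤ Kwo α w :=
  csInf_le (E_bdd η hα _) ⟨w, rfl, rfl⟩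

theorem E_exists {η : Om} (α : V → ℝ) {g : P} (hg : g ∈ Gom η) {ε : ℝ} (hε : 0 < ε) :
    ∃ w : List Lt, evo η w = g ∧ Kwo α w < KO η α g + ε := by
  obtain ⟨w0, hw0⟩ := exists_wordo hg
  have hne : {x : ℝ | ∃ w : List Lt, evo η w = g ∧ Kwo α w = x}.Nonempty :=
    ⟨Kwo α w0, w0, hw0, rfl⟩
  have h1 : sInf {x : ℝ | ∃ w : List Lt, evo η w = g ∧ Kwo α w = x} < KO η α g + ε := by
    unfold KO
    linarith
  obtain ⟨x, ⟨w, hw, rfl⟩, hx⟩ := exists_lt_of_csInf_lt hne h1
  exact ⟨w, hw, hx⟩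

theorem E_pa_sq (e : Bool) : pa e * pa e = 1 := by
  cases e
  · simp [pa]
  · simp [pa, aa]

theorem E_pa_not (e : Bool) : pa e * pa (!e) = a := by
  cases e <;> simp [pa]

theorem E_slack {α : V → ℝ} (hα : Tri α) {M : ℝ} (hM : ∀ x, α x ≤ M) (k : V) :
    2 * (stp k α k - α k) ≤ 2 * M := by
  unfold stp
  rw [if_pos rfl]
  have hb := hα.pos .b
  have hc := hα.pos .c
  have hd := hα.pos .d
  have hb' := hM .b
  have hc' := hM .c
  have hd' := hM .d
  cases k <;> linarith

/-- sections of a word of almost minimal weight -/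
theorem E_sec {η : Om} {α : V → ℝ} (hα : Tri α) {M : ℝ} (hM : ∀ x, α x ≤ M) {g : P}
    (hg : g ∈ Gom η) {ε : ℝ} (hε : 0 < ε) : ∃ (e : Bool) (u0 u1 : List Lt),
    Sec (g * pa e) (evo (sh η) u0) (evo (sh η) u1) ∧
      Kwo (stp (kil (η 0)) α) u0 + Kwo (stp (kil (η 0)) α) u1 ≤ KO η α g + ε + 2 * M := by
  obtain ⟨w, hw, hwK⟩ := E_exists α hg hε
  obtain ⟨e1, e2, v, hev, _, hKU, _, _⟩ := normal_formo η α hα w
  obtain ⟨w0, w1, heven, hodd, hK⟩ := contro η α hα v
  rw [hw] at hev
  have hsl := E_slack hα hM (kil (η 0))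
  have hKb : Kwo (stp (kil (η 0)) α) w0 + Kwo (stp (kil (η 0)) α) w1 ≤
      KO η α g + ε + 2 * M := by
    linarith
  have hKb' : Kwo (stp (kil (η 0)) α) w1 + Kwo (stp (kil (η 0)) α) w0 ≤
      KO η α g + ε + 2 * M := by
    linarith
  by_cases hv : Even v.length
  · have hs := heven hv
    cases e1 with
    | false =>
      refine ⟨e2, w0, w1, ?_, hKb⟩
      have : g * pa e2 = evo η (U v) := by
        rw [hev, mul_assoc, E_pa_sq]
        simp [pa]
      rw [this]
      exact hs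
    | true =>
      refine ⟨!e2, w1, w0, ?_, hKb'⟩
      have : g * pa (!e2) = a * evo η (U v) * a := by
        rw [hev, mul_assoc, E_pa_not]
        simp [pa]
      rw [this]
      exact hs.conj
  · have hs := hodd hv
    cases e1 with
    | false =>
      refine ⟨!e2, w0, w1, ?_, hKb⟩
      have : g * pa (!e2) = evo η (U v) * a := by
        rw [hev, mul_assoc, E_pa_not]
        simp [pa]
      rw [this]
      exact hs
    | true =>
      refine ⟨e2, w1, w0, ?_, hKb'⟩
      have : g * pa e2 = a * (evo η (U v) * a) * a := by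
        rw [hev, mul_assoc, E_pa_sq, mul_one]
        have h1 : a * (evo η (U v) * a) * a = a * evo η (U v) * (a * a) := by group
        rw [h1, aa, mul_one]
        simp [pa]
      rw [this]
      exact hs.conj

theorem E_unique_e {g f0 f1 f0' f1' : P} {e e' : Bool} (h : Sec (g * pa e) f0 f1)
    (h' : Sec (g * pa e') f0' f1') : e = e' := by
  have key : ∀ {f0 f1 f0' f1' : P}, Sec (g * pa false) f0 f1 → Sec (g * pa true) f0' f1' →
      False := by
    intro f0 f1 f0' f1' h h'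
    have h1 := (h []).1
    have h2 := (h' []).2
    simp only [pa, Bool.false_eq_true, if_false, if_true, mul_one, Equiv.Perm.mul_apply, a_apply,
      aFun, Bool.not_true] at h1 h2
    rw [h1] at h2
    simp at h2
  cases e <;> cases e'
  · rfl
  · exact (key h h').elim
  · exact (key h' h).elim
  · rfl

theorem KO_section (η : Om) (α : V → ℝ) (hα : Tri α) (M : ℝ) (hM : ∀ x, α x ≤ M) (g : P)
    (hg : g ∈ Gom η) : ∃ e : Bool, ∃ g0 ∈ Gom (sh η), ∃ g1 ∈ Gom (sh η),
    Sec (g * pa e) g0 g1 ∧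
    KO (sh η) (stp (kil (η 0)) α) g0 + KO (sh η) (stp (kil (η 0)) α) g1 ≤ KO η α g + 2 * M := by
  have hst : Tri (stp (kil (η 0)) α) := tri_stp hα _
  obtain ⟨e, u0, u1, hsec, _⟩ := E_sec hα hM hg one_pos
  refine ⟨e, evo (sh η) u0, evo_mem (sh η) u0, evo (sh η) u1, evo_mem (sh η) u1, hsec, ?_⟩
  apply le_of_forall_pos_le_add
  intro ε hε
  obtain ⟨e', u0', u1', hsec', hK'⟩ := E_sec hα hM hg hε
  have he := E_unique_e hsec hsec'
  subst he
  obtain ⟨h0, h1⟩ := hsec.unique hsec'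
  have k0 := E_K_le (sh η) hst u0'
  have k1 := E_K_le (sh η) hst u1'
  rw [← h0] at k0
  rw [← h1] at k1
  linarith

theorem lenO_le_KO (η : Om) (α : V → ℝ) (hα : Tri α) (c : ℝ) (hc : 0 < c) (h : ∀ x, c ≤ α x)
    (g : Gom η) : c * (lenO η g : ℝ) ≤ 2 * KO η α g + 2 * c := by
  apply le_of_forall_pos_le_add
  intro ε hε
  obtain ⟨w, hw, hwK⟩ := E_exists α g.2 (half_pos hε)
  obtain ⟨e1, e2, v, hev, _, hKU, _, _⟩ := normal_formo η α hα w
  rw [hw] at hev
  set pw : Bool → List Lt := fun e => if e then [Lt.A] else [] with hpw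
  have hpw1 : ∀ e, evo η (pw e) = pa e := by
    intro e
    cases e
    · simp [hpw, pa, evo]
    · simp [hpw, pa, evo, gno]
  have hpwl : ∀ e, (pw e).length ≤ 1 := by
    intro e
    cases e <;> simp [hpw]
  have hg : evG η (pw e1 ++ U v ++ pw e2) = g := by
    apply Subtype.ext
    show evo η (pw e1 ++ U v ++ pw e2) = (g : P)
    rw [evo_append, evo_append, hpw1, hpw1, hev]
  have h1 := lenO_le η (pw e1 ++ U v ++ pw e2)
  rw [hg, List.length_append, List.length_append, E_U_length] at h1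
  have h2 : lenO η g ≤ 2 * v.length + 2 := by
    have := hpwl e1
    have := hpwl e2
    omega
  have h3 : (lenO η g : ℝ) ≤ 2 * v.length + 2 := by exact_mod_cast h2
  have h4 := E_len_U h v
  have h5 := mul_le_mul_of_nonneg_left h3 hc.le
  linarith

theorem KO_le_lenO (η : Om) (α : V → ℝ) (hα : Tri α) (M : ℝ) (hM : ∀ x, α x ≤ M) (g : Gom η) :
    KO η α g ≤ M * lenO η g := by
  obtain ⟨w, hw, hwg⟩ := exists_geodo η g
  have h1 : evo η w = (g : P) := congrArg Subtype.val hwg
  have h2 := E_K_le η hα w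
  rw [h1] at h2
  have h3 := E_Kwo_le hα hM w
  rw [hw] at h3
  linarith

end Pool.Agent.H776R2.Om
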