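import Mathlib
import Pool.Agent.H776R2.Om.Defs

set_option autoImplicit false

/-! Task W: the weights `n_i` and `ℓ_i`. -/

namespace Pool.Agent.H776R2.Om

open Pool.Agent.Results.MP_03d093_al.SphereBall Pool.Agent.H776R2.Grig

theorem W_nn_zero (ω : Om) (x : V) : nn ω 0 x = 1 := rfl

theorem W_nn_succ (ω : Om) (i : ℕ) (x : V) :
    nn ω (i + 1) x = if x = kil (ω i) then nn ω i .b + nn ω i .c + nn ω i .d
      else 2 * nn ω i x := rfl

theorem W_kil_cases (f : Fin 3) : kil f = V.b ∨ kil f = V.c ∨ kil f = V.d := by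
  fin_cases f
  · right; right; rfl
  · right; left; rfl
  · left; rfl

theorem W_kil_surj (x : V) : ∃ f : Fin 3, kil f = x := by
  cases x
  · exact ⟨2, rfl⟩
  · exact ⟨1, rfl⟩
  · exact ⟨0, rfl⟩

/-- values in the next step -/
theorem W_step (ω : Om) (i : ℕ) :
    (nn ω (i + 1) .b = nn ω i .b + nn ω i .c + nn ω i .d ∧ nn ω (i + 1) .c = 2 * nn ω i .c ∧
      nn ω (i + 1) .d = 2 * nn ω i .d) ∨
    (nn ω (i + 1) .b = 2 * nn ω i .b ∧ nn ω (i + 1) .c = nn ω i .b + nn ω i .c + nn ω i .d ∧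
      nn ω (i + 1) .d = 2 * nn ω i .d) ∨
    (nn ω (i + 1) .b = 2 * nn ω i .b ∧ nn ω (i + 1) .c = 2 * nn ω i .c ∧
      nn ω (i + 1) .d = nn ω i .b + nn ω i .c + nn ω i .d) := by
  rcases W_kil_cases (ω i) with h | h | h
  · left
    rw [W_nn_succ, W_nn_succ, W_nn_succ, h, if_pos rfl, if_neg (by decide), if_neg (by decide)]
    exact ⟨rfl, rfl, rfl⟩
  · right; left
    rw [W_nn_succ, W_nn_succ, W_nn_succ, h, if_pos rfl, if_neg (by decide), if_neg (by decide)]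
    exact ⟨rfl, rfl, rfl⟩
  · right; right
    rw [W_nn_succ, W_nn_succ, W_nn_succ, h, if_pos rfl, if_neg (by decide), if_neg (by decide)]
    exact ⟨rfl, rfl, rfl⟩

/-- positivity and the triangle inequalities -/
theorem W_tri (ω : Om) (i : ℕ) :
    (0 < nn ω i .b ∧ 0 < nn ω i .c ∧ 0 < nn ω i .d) ∧ nn ω i .b ≤ nn ω i .c + nn ω i .d ∧
      nn ω i .c ≤ nn ω i .b + nn ω i .d ∧ nn ω i .d ≤ nn ω i .b + nn ω i .c := by
  induction i with
  | zero => simp only [W_nn_zero]; omega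
  | succ i ih =>
    rcases W_step ω i with ⟨h1, h2, h3⟩ | ⟨h1, h2, h3⟩ | ⟨h1, h2, h3⟩ <;>
      rw [h1, h2, h3] <;> omega

theorem al_zero (ω : Om) (x : V) : al ω 0 x = 1 := by
  unfold al
  rw [W_nn_zero]
  norm_num

theorem al_succ (ω : Om) (i : ℕ) : al ω (i + 1) = stp (kil (ω i)) (al ω i) := by
  funext x
  unfold stp al
  rw [W_nn_succ]
  split_ifs with h
  · push_cast
    rw [pow_succ]
    field_simp
  · push_cast
    rw [pow_succ]
    field_simp

theorem nn_pos (ω : Om) (i : ℕ) (x : V) : 0 < nn ω i x := by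
  have h := (W_tri ω i).1
  cases x
  · exact h.1
  · exact h.2.1
  · exact h.2.2

theorem W_tri' (ω : Om) (i : ℕ) (x y z : V) (h1 : x ≠ y) (h2 : y ≠ z) (h3 : x ≠ z) :
    nn ω i x ≤ nn ω i y + nn ω i z := by
  have h := (W_tri ω i).2
  cases x <;> cases y <;> cases z <;>
    first
      | exact absurd rfl h1
      | exact absurd rfl h2
      | exact absurd rfl h3
      | omega

theorem al_tri (ω : Om) (i : ℕ) : Tri (al ω i) := by
  constructor
  · intro x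
    unfold al
    have h := nn_pos ω i x
    positivity
  · intro x y z h1 h2 h3
    unfold al
    rw [← add_div]
    have h4 := W_tri' ω i x y z h1 h2 h3
    gcongr
    exact_mod_cast h4

theorem nn_le_ell (ω : Om) (i : ℕ) (x : V) : nn ω i x ≤ ell ω i := by
  unfold ell
  cases x
  · exact le_max_left _ _
  · exact (le_max_left _ _).trans (le_max_right _ _)
  · exact (le_max_right _ _).trans (le_max_right _ _)

theorem ell_zero (ω : Om) : ell ω 0 = 1 := rfl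

theorem ell_pos (ω : Om) (i : ℕ) : 0 < ell ω i :=
  lt_of_lt_of_le (nn_pos ω i .b) (nn_le_ell ω i .b)

theorem two_nn_le (ω : Om) (i : ℕ) (x : V) : 2 * nn ω i x ≤ nn ω (i + 1) x := by
  have h := (W_tri ω i).2
  rcases W_step ω i with ⟨h1, h2, h3⟩ | ⟨h1, h2, h3⟩ | ⟨h1, h2, h3⟩ <;>
    cases x <;> omega

theorem W_ell_attained (ω : Om) (i : ℕ) : ∃ x, ell ω i = nn ω i x := by
  unfold ell
  rcases le_total (nn ω i .b) (max (nn ω i .c) (nn ω i .d)) with h | h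
  · rw [max_eq_right h]
    rcases le_total (nn ω i .c) (nn ω i .d) with h' | h'
    · exact ⟨.d, max_eq_right h'⟩
    · exact ⟨.c, max_eq_left h'⟩
  · exact ⟨.b, max_eq_left h⟩

theorem two_ell_le (ω : Om) (i : ℕ) : 2 * ell ω i ≤ ell ω (i + 1) := by
  obtain ⟨x, hx⟩ := W_ell_attained ω i
  rw [hx]
  exact (two_nn_le ω i x).trans (nn_le_ell ω (i + 1) x)

theorem ell_succ_le (ω : Om) (i : ℕ) : ell ω (i + 1) ≤ 3 * ell ω i := by
  obtain ⟨x, hx⟩ := W_ell_attained ω (i + 1)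
  rw [hx]
  have h1 := nn_le_ell ω i .b
  have h2 := nn_le_ell ω i .c
  have h3 := nn_le_ell ω i .d
  rcases W_step ω i with ⟨g1, g2, g3⟩ | ⟨g1, g2, g3⟩ | ⟨g1, g2, g3⟩ <;>
    cases x <;> omega

theorem W_nn_pow (ω : Om) (i m : ℕ) (x : V) : 2 ^ m * nn ω i x ≤ nn ω (i + m) x := by
  induction m with
  | zero => simp
  | succ m ih =>
    have h := two_nn_le ω (i + m) x
    calc 2 ^ (m + 1) * nn ω i x = 2 * (2 ^ m * nn ω i x) := by ring
      _ ≤ 2 * nn ω (i + m) x := Nat.mul_le_mul_left _ ih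
      _ ≤ _ := h

theorem W_ell_pow (ω : Om) (i m : ℕ) : 2 ^ m * ell ω i ≤ ell ω (i + m) := by
  obtain ⟨x, hx⟩ := W_ell_attained ω i
  rw [hx]
  exact (W_nn_pow ω i m x).trans (nn_le_ell ω _ x)

theorem W_ell_up (ω : Om) (i m : ℕ) : ell ω (i + m) ≤ 3 ^ m * ell ω i := by
  induction m with
  | zero => simp
  | succ m ih =>
    calc ell ω (i + (m + 1)) ≤ 3 * ell ω (i + m) := ell_succ_le ω (i + m)
      _ ≤ 3 * (3 ^ m * ell ω i) := Nat.mul_le_mul_left _ ih
      _ = 3 ^ (m + 1) * ell ω i := by ring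

/-- the sum of the three weights is at least twice the maximum -/
theorem W_sum_ge (ω : Om) (i : ℕ) : 2 * ell ω i ≤ nn ω i .b + nn ω i .c + nn ω i .d := by
  obtain ⟨x, hx⟩ := W_ell_attained ω i
  rw [hx]
  have h := (W_tri ω i).2
  cases x <;> omega

/-- in every window each letter is killed -/
theorem W_killed {r : ℕ} {ω : Om} (h : Hom r ω) (i : ℕ) (x : V) :
    ∃ j, j < r ∧ nn ω (i + j + 1) x = nn ω (i + j) .b + nn ω (i + j) .c + nn ω (i + j) .d := by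
  obtain ⟨f, hf⟩ := W_kil_surj x
  obtain ⟨j, hj, hj2⟩ := h i f
  refine ⟨j, hj, ?_⟩
  rw [W_nn_succ, if_pos]
  rw [hj2, hf]

theorem nn_hom {r : ℕ} {ω : Om} (h : Hom r ω) (i : ℕ) (x : V) :
    ell ω i * 2 ^ r ≤ nn ω (i + r) x := by
  obtain ⟨j, hj, hj2⟩ := W_killed h i x
  have h1 := W_sum_ge ω (i + j)
  have h2 := W_ell_pow ω i j
  have h3 := W_nn_pow ω (i + j + 1) (r - j - 1) x
  have h4 : i + j + 1 + (r - j - 1) = i + r := by omega
  rw [h4, hj2] at h3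
  calc ell ω i * 2 ^ r = 2 ^ (r - j - 1) * (2 * (2 ^ j * ell ω i)) := by
        have h5 : 2 ^ r = 2 ^ (r - j - 1) * (2 * 2 ^ j) := by
          rw [← pow_succ', ← pow_add]
          congr 1
          omega
        rw [h5]; ring
    _ ≤ 2 ^ (r - j - 1) * (2 * ell ω (i + j)) :=
        Nat.mul_le_mul_left _ (Nat.mul_le_mul_left _ h2)
    _ ≤ 2 ^ (r - j - 1) * (nn ω (i + j) .b + nn ω (i + j) .c + nn ω (i + j) .d) :=
        Nat.mul_le_mul_left _ h1
    _ ≤ _ := h3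

theorem W_grow2 {r : ℕ} {ω : Om} (h : Hom r ω) (i : ℕ) :
    3 * 2 ^ (2 * r) * ell ω i ≤ 2 * ell ω (i + 2 * r) := by
  obtain ⟨j, hj, hj2⟩ := W_killed h (i + r) .b
  have h1 : ∀ y, 2 ^ j * (ell ω i * 2 ^ r) ≤ nn ω (i + r + j) y := fun y =>
    (Nat.mul_le_mul_left _ (nn_hom h i y)).trans (W_nn_pow ω (i + r) j y)
  have h3 := W_nn_pow ω (i + r + j + 1) (r - j - 1) .b
  have h4 : i + r + j + 1 + (r - j - 1) = i + 2 * r := by omega
  rw [h4, hj2] at h3
  have h6 : 2 ^ (2 * r) = 2 * (2 ^ (r - j - 1) * (2 ^ j * 2 ^ r)) := by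
    rw [← pow_add, ← pow_add, ← pow_succ']
    congr 1
    omega
  have h7 := nn_le_ell ω (i + 2 * r) .b
  calc 3 * 2 ^ (2 * r) * ell ω i = 2 * (2 ^ (r - j - 1) * (3 * (2 ^ j * (ell ω i * 2 ^ r)))) := by
        rw [h6]; ring
    _ ≤ 2 * (2 ^ (r - j - 1) * (nn ω (i + r + j) .b + nn ω (i + r + j) .c +
          nn ω (i + r + j) .d)) := by
        refine Nat.mul_le_mul_left _ (Nat.mul_le_mul_left _ ?_)
        have hb := h1 .b
        have hc := h1 .c
        have hd := h1 .d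
        omega
    _ ≤ 2 * nn ω (i + 2 * r) .b := Nat.mul_le_mul_left _ h3
    _ ≤ _ := Nat.mul_le_mul_left _ h7

theorem W_grow_iter {r : ℕ} {ω : Om} (h : Hom r ω) (i m : ℕ) :
    3 ^ m * 2 ^ (2 * r * m) * ell ω i ≤ 2 ^ m * ell ω (i + 2 * r * m) := by
  induction m with
  | zero => simp
  | succ m ih =>
    have h1 := W_grow2 h (i + 2 * r * m)
    have h2 : i + 2 * r * m + 2 * r = i + 2 * r * (m + 1) := by ring
    rw [h2] at h1
    calc 3 ^ (m + 1) * 2 ^ (2 * r * (m + 1)) * ell ω i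
        = 3 * 2 ^ (2 * r) * (3 ^ m * 2 ^ (2 * r * m) * ell ω i) := by
          rw [show 2 * r * (m + 1) = 2 * r + 2 * r * m by ring, pow_add]; ring
      _ ≤ 3 * 2 ^ (2 * r) * (2 ^ m * ell ω (i + 2 * r * m)) := Nat.mul_le_mul_left _ ih
      _ = 2 ^ m * (3 * 2 ^ (2 * r) * ell ω (i + 2 * r * m)) := by ring
      _ ≤ 2 ^ m * (2 * ell ω (i + 2 * r * (m + 1))) := Nat.mul_le_mul_left _ h1
      _ = _ := by rw [pow_succ]; ring

theorem ell_grow {r : ℕ} {ω : Om} (h : Hom r ω) (i : ℕ) :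
    8 * 2 ^ (12 * r) * ell ω i ≤ ell ω (i + 12 * r) := by
  have h1 := W_grow_iter h i 6
  have h2 : 2 * r * 6 = 12 * r := by ring
  rw [h2] at h1
  have h3 : (3 : ℕ) ^ 6 = 729 := by norm_num
  have h4 : (2 : ℕ) ^ 6 = 64 := by norm_num
  rw [h3, h4] at h1
  have h5 : 8 * 2 ^ (12 * r) * ell ω i = 8 * (2 ^ (12 * r) * ell ω i) := by ring
  have h6 : 729 * 2 ^ (12 * r) * ell ω i = 729 * (2 ^ (12 * r) * ell ω i) := by ring
  rw [h5]
  rw [h6] at h1
  omega

theorem nn_ge {r : ℕ} {ω : Om} (h : Hom r ω) (i : ℕ) (x : V) : ell ω i ≤ 3 ^ r * nn ω i x := by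
  rcases le_total r i with hi | hi
  · obtain ⟨k, rfl⟩ := Nat.exists_eq_add_of_le' hi
    have h1 := nn_hom h k x
    have h2 := W_ell_up ω k r
    refine h2.trans (Nat.mul_le_mul_left _ ?_)
    refine le_trans ?_ h1
    exact Nat.le_mul_of_pos_right _ (by positivity)
  · have h1 := W_ell_up ω 0 i
    rw [zero_add, ell_zero, mul_one] at h1
    have h2 : 3 ^ i ≤ 3 ^ r := Nat.pow_le_pow_right (by norm_num) hi
    have h3 := nn_pos ω i x
    calc ell ω i ≤ 3 ^ i := h1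
      _ ≤ 3 ^ r * 1 := by rw [mul_one]; exact h2
      _ ≤ _ := Nat.mul_le_mul_left _ h3

theorem hom_change {r : ℕ} {ω : Om} (h : Hom r ω) (n : ℕ) :
    ∃ i, n ≤ i ∧ i < n + r ∧ ω i ≠ ω (i + 1) := by
  by_contra hcon
  push Not at hcon
  have h1 : ∀ j, j ≤ r → ω (n + j) = ω n := by
    intro j
    induction j with
    | zero => intro _; rfl
    | succ j ih =>
      intro hj
      rw [← ih (by omega)]
      exact (hcon (n + j) (by omega) (by omega)).symm
  obtain ⟨x, hx⟩ : ∃ x : Fin 3, x ≠ ω n := exists_ne (ω n)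
  obtain ⟨j, hj, hj2⟩ := h n x
  exact hx (by rw [← hj2, h1 j hj.le])

theorem hom_pos {r : ℕ} {ω : Om} (h : Hom r ω) : 3 ≤ r := by
  obtain ⟨i, hi, hi2⟩ := h 0 0
  obtain ⟨j, hj, hj2⟩ := h 0 1
  obtain ⟨k, hk, hk2⟩ := h 0 2
  have h1 : i ≠ j := by
    rintro rfl
    rw [hi2] at hj2
    exact absurd hj2 (by decide)
  have h2 : i ≠ k := by
    rintro rfl
    rw [hi2] at hk2
    exact absurd hk2 (by decide)
  have h3 : j ≠ k := by
    rintro rfl
    rw [hj2] at hk2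
    exact absurd hk2 (by decide)
  omega

end Pool.Agent.H776R2.Om
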