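import Mathlib
import Pool.Agent.H776R2.Om.Defs
import Pool.Agent.H776R2.Om.Basic
import Pool.Agent.H776R2.Om.KLen
import Pool.Agent.H776R2.Om.Wt

set_option autoImplicit false

/-! Task F: the growth upper bound from the contraction. -/

namespace Pool.Agent.H776R2.Om

open Pool.Agent.Results.MP_03d093_al.SphereBall Pool.Agent.H776R2.Grig

theorem F_words (r : ENNReal) : ∑' w : List Lt, r ^ w.length = ∑' n : ℕ, (4 * r) ^ n := by
  have F_fin : Fintype Lt := ⟨{.A, .B, .C, .D}, by intro x; cases x <;> simp⟩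
  have F_card : Fintype.card Lt = 4 := by
    rw [← Nat.card_eq_fintype_card]
    have F2 : Fintype Lt := ⟨{.A, .B, .C, .D}, by intro x; cases x <;> simp⟩
    have e : Lt ≃ Fin 4 := ⟨fun x => match x with | .A => 0 | .B => 1 | .C => 2 | .D => 3,
      fun i => match i with | 0 => .A | 1 => .B | 2 => .C | 3 => .D,
      by intro x; cases x <;> rfl, by intro i; fin_cases i <;> rfl⟩
    rw [Nat.card_congr e, Nat.card_eq_fintype_card, Fintype.card_fin]
  rw [← (Equiv.sigmaFiberEquiv (List.length : List Lt → ℕ)).tsum_eq, ENNReal.tsum_sigma']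
  refine tsum_congr fun n => ?_
  have h1 : ∀ v : {l : List Lt // l.length = n},
      r ^ ((Equiv.sigmaFiberEquiv (List.length : List Lt → ℕ)) ⟨n, v⟩).length = r ^ n := by
    rintro ⟨v, hv⟩
    simp only [Equiv.sigmaFiberEquiv_apply]
    rw [hv]
  rw [tsum_congr h1]
  have : Fintype {l : List Lt // l.length = n} := inferInstanceAs (Fintype (List.Vector Lt n))
  rw [tsum_fintype, Finset.sum_const, Finset.card_univ, nsmul_eq_mul, mul_pow]
  congr 1
  have : Fintype.card {l : List Lt // l.length = n} = 4 ^ n := by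
    rw [← F_card]
    have h2 := card_vector (α := Lt) n
    rw [← Nat.card_eq_fintype_card] at h2 ⊢
    rw [← Nat.card_eq_fintype_card]
    rw [← Nat.card_eq_fintype_card] at h2
    exact h2
  rw [this]
  norm_cast

theorem F_const : ENNReal.ofReal (Real.exp 4) *
      ∑' v : List Lt, ENNReal.ofReal (Real.exp (-2)) ^ v.length < ⊤ := by
  rw [F_words, ENNReal.tsum_geometric]
  apply ENNReal.mul_lt_top ENNReal.ofReal_lt_top
  rw [ENNReal.inv_lt_top, tsub_pos_iff_lt]
  have h3 : (4 : ENNReal) = ENNReal.ofReal 4 := by simp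
  rw [h3, ← ENNReal.ofReal_mul (by norm_num), ENNReal.ofReal_lt_one]
  have h4 : Real.exp (-2) * Real.exp 2 = 1 := by rw [← Real.exp_add]; simp
  have h5 : (4 : ℝ) < Real.exp 2 := by
    have h6 := Real.exp_one_gt_d9
    have h7 : Real.exp 2 = Real.exp 1 * Real.exp 1 := by rw [← Real.exp_add]; norm_num
    rw [h7]
    nlinarith
  have h8 := Real.exp_pos (-2)
  nlinarith

theorem ZO_unif : ∃ D : ENNReal, D < ⊤ ∧ ∀ (η : Om) (α : V → ℝ) (c : ℝ), Tri α → 0 < c →
    (∀ x, c ≤ α x) → ZO η α (4 / c) ≤ D := by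
  refine ⟨_, F_const, ?_⟩
  intro η α c hα hc hcx
  choose w hw hg using exists_geodo η
  have hinj : Function.Injective w := by
    intro g h hgh
    rw [← hg g, ← hg h, hgh]
  have h1 : ∀ g : Gom η, ENNReal.ofReal (Real.exp (-(4 / c) * KO η α g)) ≤
      ENNReal.ofReal (Real.exp 4) * ENNReal.ofReal (Real.exp (-2)) ^ (w g).length := by
    intro g
    rw [← ENNReal.ofReal_pow (Real.exp_pos _).le, ← Real.exp_nat_mul,
      ← ENNReal.ofReal_mul (Real.exp_pos _).le, ← Real.exp_add]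
    apply ENNReal.ofReal_le_ofReal
    apply Real.exp_le_exp.2
    have h2 := lenO_le_KO η α hα c hc hcx g
    rw [hw g]
    have h3 : (2 / c) * (c * (lenO η g : ℝ)) ≤ (2 / c) * (2 * KO η α g + 2 * c) :=
      mul_le_mul_of_nonneg_left h2 (by positivity)
    have h4 : (2 / c) * (c * (lenO η g : ℝ)) = 2 * lenO η g := by field_simp
    have h5 : (2 / c) * (2 * KO η α g + 2 * c) = (4 / c) * KO η α g + 4 := by
      field_simp
      ring
    rw [h4, h5] at h3
    linarith
  unfold ZO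
  refine (ENNReal.tsum_le_tsum h1).trans ?_
  rw [ENNReal.tsum_mul_left]
  gcongr
  exact ENNReal.tsum_comp_le_tsum_of_injective hinj _

theorem F_pa_nil (e : Bool) : pa e [] = [] := by
  cases e <;> rfl

theorem F_sec_inj {η : Om} {g h g0 g1 : P} (hg : g ∈ Gom η) (hh : h ∈ Gom η) (e : Bool)
    (h1 : Sec (g * pa e) g0 g1) (h2 : Sec (h * pa e) g0 g1) : g = h := by
  have h3 : g * pa e = h * pa e := by
    ext1 u
    match u with
    | [] =>
      obtain ⟨v, rfl⟩ := exists_wordo hg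
      obtain ⟨v', rfl⟩ := exists_wordo hh
      rw [Equiv.Perm.mul_apply, Equiv.Perm.mul_apply, F_pa_nil, evo_nil_apply, evo_nil_apply]
    | false :: u => rw [(h1 u).1, (h2 u).1]
    | true :: u => rw [(h1 u).2, (h2 u).2]
  exact mul_right_cancel h3

theorem ZO_step (η : Om) (α : V → ℝ) (hα : Tri α) (M : ℝ) (hM : ∀ x, α x ≤ M) (s : ℝ) (hs : 0 ≤ s) :
    ZO η α s ≤ 2 * ENNReal.ofReal (Real.exp (2 * s * M)) *
      ZO (sh η) (stp (kil (η 0)) α) s ^ 2 := by
  choose e g0 h0 g1 h1 hsec hK using fun g : Gom η => KO_section η α hα M hM g.1 g.2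
  set Φ : Gom η → Bool × Gom (sh η) × Gom (sh η) :=
    fun g => (e g, ⟨g0 g, h0 g⟩, ⟨g1 g, h1 g⟩) with hΦ
  have hinj : Function.Injective Φ := by
    intro g h hgh
    simp only [hΦ, Prod.mk.injEq, Subtype.mk.injEq] at hgh
    obtain ⟨k1, k2, k3⟩ := hgh
    apply Subtype.ext
    have s1 := hsec g
    have s2 := hsec h
    rw [k1, k2, k3] at s1
    exact F_sec_inj g.2 h.2 _ s1 s2
  set β : V → ℝ := stp (kil (η 0)) α with hβ
  set F : Bool × Gom (sh η) × Gom (sh η) → ENNReal := fun p =>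
    ENNReal.ofReal (Real.exp (2 * s * M)) *
    (ENNReal.ofReal (Real.exp (-s * KO (sh η) β p.2.1)) *
      ENNReal.ofReal (Real.exp (-s * KO (sh η) β p.2.2))) with hF
  have hle : ∀ g : Gom η, ENNReal.ofReal (Real.exp (-s * KO η α g)) ≤ F (Φ g) := by
    intro g
    simp only [hF, hΦ]
    rw [← ENNReal.ofReal_mul (Real.exp_pos _).le, ← ENNReal.ofReal_mul (Real.exp_pos _).le,
      ← Real.exp_add, ← Real.exp_add]
    apply ENNReal.ofReal_le_ofReal
    apply Real.exp_le_exp.2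
    have h2 := mul_le_mul_of_nonneg_left (hK g) hs
    linarith
  have h3 : ZO η α s ≤ ∑' p, F p := by
    unfold ZO
    exact (ENNReal.tsum_le_tsum hle).trans (ENNReal.tsum_comp_le_tsum_of_injective hinj _)
  refine h3.trans (le_of_eq ?_)
  simp only [hF]
  rw [ENNReal.tsum_mul_left, ENNReal.tsum_prod']
  simp only
  rw [tsum_fintype, Fintype.sum_bool, ← two_mul]
  have h4 : ∑' b : Gom (sh η) × Gom (sh η), ENNReal.ofReal (Real.exp (-s * KO (sh η) β b.1)) *
      ENNReal.ofReal (Real.exp (-s * KO (sh η) β b.2)) = ZO (sh η) β s ^ 2 := by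
    rw [ENNReal.tsum_prod']
    simp only [ENNReal.tsum_mul_left, ENNReal.tsum_mul_right]
    rw [sq]
    rfl
  rw [h4]
  ring

theorem F_ball (ω : Om) (n : ℕ) (s : ℝ) (hs : 0 ≤ s) :
    (ballO ω n : ENNReal) ≤ ENNReal.ofReal (Real.exp (s * n)) * ZO ω (al ω 0) s := by
  have key : (ballO ω n : ENNReal) ≤ ∑' _ : {g : Gom ω // lenO ω g ≤ n}, (1 : ENNReal) := by
    unfold ballO
    rcases finite_or_infinite {g : Gom ω // lenO ω g ≤ n} with h | h
    · have := Fintype.ofFinite {g : Gom ω // lenO ω g ≤ n}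
      rw [Nat.card_eq_fintype_card, tsum_fintype]
      simp
    · rw [Nat.card_eq_zero_of_infinite]
      simp
  refine key.trans ?_
  have h1 : ∀ g : {g : Gom ω // lenO ω g ≤ n}, (1 : ENNReal) ≤
      ENNReal.ofReal (Real.exp (s * n)) *
        ENNReal.ofReal (Real.exp (-s * KO ω (al ω 0) g.1)) := by
    intro g
    rw [← ENNReal.ofReal_mul (Real.exp_pos _).le, ← Real.exp_add, ENNReal.one_le_ofReal]
    apply Real.one_le_exp
    have h2 := KO_le_lenO ω (al ω 0) (al_tri ω 0) 1 (fun x => (al_zero ω x).le) g.1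
    have h3 : (lenO ω g.1 : ℝ) ≤ n := by exact_mod_cast g.2
    have h5 := mul_le_mul_of_nonneg_left (h2.trans (by linarith : (1 : ℝ) * lenO ω g.1 ≤ n)) hs
    linarith
  refine (ENNReal.tsum_le_tsum h1).trans ?_
  rw [ENNReal.tsum_mul_left]
  gcongr
  unfold ZO
  exact ENNReal.tsum_comp_le_tsum_of_injective Subtype.val_injective
    (fun g : Gom ω => ENNReal.ofReal (Real.exp (-s * KO ω (al ω 0) g)))

theorem F_L_mono (ω : Om) {i k : ℕ} (h : i ≤ k) :
    (ell ω i : ℝ) / 2 ^ i ≤ (ell ω k : ℝ) / 2 ^ k := by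
  induction k, h using Nat.le_induction with
  | base => exact le_rfl
  | succ k _ ih =>
    refine ih.trans ?_
    rw [div_le_div_iff₀ (by positivity) (by positivity), pow_succ]
    have h1 : (2 : ℝ) * ell ω k ≤ ell ω (k + 1) := by exact_mod_cast two_ell_le ω k
    have h2 : (0 : ℝ) < 2 ^ k := by positivity
    nlinarith

theorem F_iter (ω : Om) (k : ℕ) (s B : ℝ) (hs : 0 ≤ s)
    (hB : 2 * s * ((ell ω k : ℝ) / 2 ^ k) ≤ B) (j : ℕ) : ∀ i, i + j = k →
    2 * ENNReal.ofReal (Real.exp B) * ZO (shi i ω) (al ω i) s ≤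
      (2 * ENNReal.ofReal (Real.exp B) * ZO (shi k ω) (al ω k) s) ^ 2 ^ j := by
  induction j with
  | zero =>
    intro i hi
    obtain rfl : i = k := by omega
    simp
  | succ j ih =>
    intro i hi
    have hih := ih (i + 1) (by omega)
    have hM : ∀ x, al ω i x ≤ (ell ω i : ℝ) / 2 ^ i := by
      intro x
      unfold al
      have h1 : (nn ω i x : ℝ) ≤ ell ω i := by exact_mod_cast nn_le_ell ω i x
      gcongr
    have h1 := ZO_step (shi i ω) (al ω i) (al_tri ω i) _ hM s hs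
    have h2 : (shi i ω) 0 = ω i := by simp [shi]
    rw [h2, ← al_succ, sh_shi] at h1
    have h3 : ENNReal.ofReal (Real.exp (2 * s * ((ell ω i : ℝ) / 2 ^ i))) ≤
        ENNReal.ofReal (Real.exp B) := by
      apply ENNReal.ofReal_le_ofReal
      apply Real.exp_le_exp.2
      refine le_trans ?_ hB
      have := F_L_mono ω (show i ≤ k by omega)
      gcongr
    calc 2 * ENNReal.ofReal (Real.exp B) * ZO (shi i ω) (al ω i) s
        ≤ 2 * ENNReal.ofReal (Real.exp B) *
          (2 * ENNReal.ofReal (Real.exp B) * ZO (shi (i + 1) ω) (al ω (i + 1)) s ^ 2) := by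
          gcongr
          exact h1.trans (by gcongr)
      _ = (2 * ENNReal.ofReal (Real.exp B) * ZO (shi (i + 1) ω) (al ω (i + 1)) s) ^ 2 := by ring
      _ ≤ ((2 * ENNReal.ofReal (Real.exp B) * ZO (shi k ω) (al ω k) s) ^ 2 ^ j) ^ 2 := by gcongr
      _ = _ := by rw [← pow_mul, ← pow_succ]

theorem ballO_upper_of (ω : Om) (c0 : ℝ) (hc0 : 0 < c0)
    (h : ∀ i x, c0 * (ell ω i : ℝ) ≤ (nn ω i x : ℝ)) :
    ∃ C : ℝ, 0 < C ∧ ∀ k : ℕ, (ballO ω (ell ω k) : ℝ) ≤ Real.exp (C * 2 ^ k) := by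
  obtain ⟨D1, hD1t, hD1⟩ := ZO_unif
  set D : ENNReal := 2 * ENNReal.ofReal (Real.exp (8 / c0)) with hD
  have hDone : 1 ≤ D := by
    have h1 : (1 : ENNReal) ≤ ENNReal.ofReal (Real.exp (8 / c0)) := by
      rw [ENNReal.one_le_ofReal]
      exact Real.one_le_exp (by positivity)
    calc (1 : ENNReal) = 1 * 1 := by simp
      _ ≤ 2 * ENNReal.ofReal (Real.exp (8 / c0)) := by
          gcongr
          norm_num
  have hDt : D < ⊤ := ENNReal.mul_lt_top (by simp) ENNReal.ofReal_lt_top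
  have hT : D * D1 < ⊤ := ENNReal.mul_lt_top hDt hD1t
  obtain ⟨c, hcn, hc⟩ : ∃ c : ℝ, 0 ≤ c ∧ D * D1 ≤ ENNReal.ofReal (Real.exp c) := by
    refine ⟨(D * D1).toReal, ENNReal.toReal_nonneg, ?_⟩
    rw [← ENNReal.ofReal_toReal hT.ne]
    apply ENNReal.ofReal_le_ofReal
    rw [ENNReal.ofReal_toReal hT.ne]
    have := Real.add_one_le_exp (D * D1).toReal
    linarith
  refine ⟨4 / c0 + c, by positivity, fun k => ?_⟩
  set L : ℝ := (ell ω k : ℝ) / 2 ^ k with hL
  have hell : (0 : ℝ) < ell ω k := by exact_mod_cast ell_pos ω k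
  have hLpos : 0 < L := by positivity
  set s : ℝ := 4 / (c0 * L) with hs
  have hs0 : 0 ≤ s := by positivity
  have hsL : s * (c0 * L) = 4 := by
    rw [hs]
    field_simp
  have hsL2 : s * L = 4 / c0 := by
    rw [hs]
    field_simp
  have hB : 2 * s * ((ell ω k : ℝ) / 2 ^ k) ≤ 8 / c0 := by
    rw [← hL, mul_assoc, hsL2]
    apply le_of_eq
    ring
  have h1 := F_ball ω (ell ω k) s hs0
  have hiter := F_iter ω k s (8 / c0) hs0 hB k 0 (by omega)
  rw [← hD, shi_zero] at hiter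
  have hk : ZO (shi k ω) (al ω k) s ≤ D1 := by
    apply hD1 (shi k ω) (al ω k) (c0 * L) (al_tri ω k) (by positivity)
    intro x
    unfold al
    rw [hL]
    have := h k x
    rw [← mul_div_assoc]
    gcongr
  have h2 : ZO ω (al ω 0) s ≤ ENNReal.ofReal (Real.exp (c * 2 ^ k)) := by
    calc ZO ω (al ω 0) s = 1 * ZO ω (al ω 0) s := by simp
      _ ≤ D * ZO ω (al ω 0) s := by gcongr
      _ ≤ (D * ZO (shi k ω) (al ω k) s) ^ 2 ^ k := hiter
      _ ≤ (D * D1) ^ 2 ^ k := by gcongr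
      _ ≤ (ENNReal.ofReal (Real.exp c)) ^ 2 ^ k := by gcongr
      _ = ENNReal.ofReal (Real.exp (c * 2 ^ k)) := by
          rw [← ENNReal.ofReal_pow (Real.exp_pos _).le, ← Real.exp_nat_mul]
          congr 2
          push_cast
          ring
  have h3 : Real.exp (s * (ell ω k : ℝ)) ≤ Real.exp (4 / c0 * 2 ^ k) := by
    apply Real.exp_le_exp.2
    have h5 : (ell ω k : ℝ) = L * 2 ^ k := by
      rw [hL]
      field_simp
    rw [h5, ← mul_assoc, hsL2]
  have h4 : (ballO ω (ell ω k) : ENNReal) ≤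
      ENNReal.ofReal (Real.exp ((4 / c0 + c) * 2 ^ k)) := by
    refine h1.trans ?_
    rw [add_mul, Real.exp_add, ENNReal.ofReal_mul (Real.exp_pos _).le]
    exact mul_le_mul' (ENNReal.ofReal_le_ofReal h3) h2
  rw [← ENNReal.ofReal_natCast] at h4
  exact (ENNReal.ofReal_le_ofReal_iff (Real.exp_pos _).le).1 h4

end Pool.Agent.H776R2.Om
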