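import Mathlib
import Pool.Agent.H776R2.Om.Defs
import Pool.Agent.H776R2.Om.Basic
import Pool.Agent.H776R2.Om.Jsub

set_option autoImplicit false

/-! Labels on one level realized by products of an even number of conjugates (task K). -/

namespace Pool.Agent.H776R2.Om

open Pool.Agent.Results.MP_03d093_al.SphereBall Pool.Agent.H776R2.Grig

theorem K_a_inv : (a : P)⁻¹ = a := by
  have h : (a : P) * a = 1 := by
    ext1 w
    exact aFun_invol w
  exact inv_eq_of_mul_eq_one_left h

theorem K_conj_a {x : V} {η : Om} {g : P} (hg : g ∈ Jset x η) : a * g * a ∈ Jset x η := by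
  have h := J_conj hg (a_mem η)
  rwa [K_a_inv] at h

theorem base_J (t : ℕ) : ∀ θ : Om, θ t ≠ θ (t + 1) → ∀ h : List Bool → Bool,
    ∃ g ∈ Jset (kil (θ 0)) (sh θ), Lab (t + 1) (fun u => h (u.take t)) g := by
  induction t with
  | zero =>
    intro θ hθ h
    by_cases h0 : h [] = true
    · obtain ⟨g, hg, hl⟩ := J_base θ hθ
      refine ⟨g, hg, lab_congr (fun u _ => ?_) hl⟩
      simp [h0]
    · refine ⟨1, Subgroup.one_mem _, lab_congr (fun u _ => ?_) (lab_one _)⟩
      have h1 : h [] = false := by simpa using h0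
      simp [h1]
  | succ t ih =>
    intro θ hθ h
    obtain ⟨g0, hg0, hl0⟩ := ih (sh θ) hθ (fun v => h (false :: v))
    obtain ⟨g1, hg1, hl1⟩ := ih (sh θ) hθ (fun v => h (true :: v))
    obtain ⟨f0, hf0, hs0⟩ := J_lift θ hg0
    obtain ⟨f1, hf1, hs1⟩ := J_lift θ hg1
    refine ⟨f0 * (a * f1 * a), Subgroup.mul_mem _ hf0 (K_conj_a hf1), ?_⟩
    have hsec : Sec (f0 * (a * f1 * a)) (g0 * 1) (1 * g1) := hs0.mul hs1.conj
    rw [mul_one, one_mul] at hsec
    refine lab_congr ?_ (lab_sec hsec hl0 hl1)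
    intro u hu
    cases u with
    | nil => simp at hu
    | cons y u => cases y <;> simp

/-- `θ` with `θ 0 = 0` and `sh θ = η` -/
def K_pre (η : Om) : Om
  | 0 => 0
  | n + 1 => η n

theorem K_sh_pre (η : Om) : sh (K_pre η) = η := rfl

theorem K_unif (n m : ℕ) (good : Om → Prop)
    (hgood : ∀ η η' : Om, (∀ i < n + 1, η i = η' i) → good η → good η')
    (F : List Bool → List Bool) (hF : ∀ u, u.length = n → (F u).length = m)
    (H : ∀ η : Om, good η → ∀ h : List Bool → Bool,
      ∃ w : List Lt, EvC w ∧ Lab n (fun u => h (F u)) (evo η w)) :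
    ∃ B : ℕ, ∀ η : Om, good η → ∀ h : List Bool → Bool,
      ∃ w : List Lt, w.length ≤ B ∧ EvC w ∧ Lab n (fun u => h (F u)) (evo η w) := by
  classical
  let ext : (Fin (n + 1) → Fin 3) → Om := fun e i => if hi : i < n + 1 then e ⟨i, hi⟩ else 0
  let hex : (List.Vector Bool m → Bool) → List Bool → Bool :=
    fun p l => if hl : l.length = m then p ⟨l, hl⟩ else false
  have H' : ∀ x : (Fin (n + 1) → Fin 3) × (List.Vector Bool m → Bool), ∃ w : List Lt,
      good (ext x.1) → (EvC w ∧ Lab n (fun u => hex x.2 (F u)) (evo (ext x.1) w)) := by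
    intro x
    by_cases hx : good (ext x.1)
    · obtain ⟨w, hw⟩ := H _ hx (hex x.2)
      exact ⟨w, fun _ => hw⟩
    · exact ⟨[], fun h => absurd h hx⟩
  choose W hW using H'
  refine ⟨Finset.univ.sup (fun x => (W x).length), ?_⟩
  intro η hη h
  have hext : ∀ i < n + 1, ext (fun i : Fin (n + 1) => η i) i = η i := by
    intro i hi
    show (if hi : i < n + 1 then _ else _) = _
    rw [dif_pos hi]
  have hg : good (ext (fun i : Fin (n + 1) => η i)) :=
    hgood η _ (fun i hi => (hext i hi).symm) hη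
  obtain ⟨h1, h2⟩ := hW ((fun i : Fin (n + 1) => η i), (fun v => h v.1)) hg
  refine ⟨W ((fun i : Fin (n + 1) => η i), (fun v => h v.1)),
    Finset.le_sup (f := fun x => (W x).length) (Finset.mem_univ _), h1, ?_⟩
  intro u hu x
  rw [← evo_congr (n + 1) _ η (fun i hi => hext i hi) _ _ (by simp [hu]), h2 u hu x]
  simp [hex, hF u hu]

theorem base0 (s : ℕ) : ∃ B : ℕ, ∀ η : Om, η s ≠ η (s + 1) → ∀ h : List Bool → Bool,
    ∃ w : List Lt, w.length ≤ B ∧ EvC w ∧ Lab (s + 2) (fun u => h (u.take (s + 1))) (evo η w) := by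
  refine K_unif (s + 2) (s + 1) (fun η => η s ≠ η (s + 1)) ?_ (fun u => u.take (s + 1)) ?_ ?_
  · intro η η' he hη
    rw [← he s (by omega), ← he (s + 1) (by omega)]
    exact hη
  · intro u hu
    rw [List.length_take]
    omega
  · intro η hη h
    obtain ⟨g, hg, hl⟩ := base_J (s + 1) (K_pre η) hη h
    obtain ⟨w, hw, he⟩ := J_word hg
    refine ⟨w, he, ?_⟩
    rw [K_sh_pre] at hw
    rw [hw]
    exact hl

theorem base1 (t : ℕ) : ∃ B : ℕ, ∀ η : Om, η t ≠ η (t + 1) → ∀ h : List Bool → Bool,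
    ∃ w : List Lt, w.length ≤ B ∧ EvC w ∧
      Lab (t + 2) (fun u => h ((u.drop 1).take t)) (evo η w) := by
  refine K_unif (t + 2) t (fun η => η t ≠ η (t + 1)) ?_ (fun u => (u.drop 1).take t) ?_ ?_
  · intro η η' he hη
    rw [← he t (by omega), ← he (t + 1) (by omega)]
    exact hη
  · intro u hu
    rw [List.length_take, List.length_drop]
    omega
  · intro η hη h
    obtain ⟨g, hg, hl⟩ := base_J t η hη h
    obtain ⟨f, hf, hs⟩ := J_lift (K_pre η) hg
    have hff : f * (a * f * a) ∈ Jset (kil (K_pre η 0)) (sh (K_pre η)) :=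
      Subgroup.mul_mem _ hf (K_conj_a hf)
    have hsec : Sec (f * (a * f * a)) (g * 1) (1 * g) := hs.mul hs.conj
    rw [mul_one, one_mul] at hsec
    obtain ⟨w, hw, he⟩ := J_word hff
    refine ⟨w, he, ?_⟩
    rw [K_sh_pre] at hw
    rw [hw]
    refine lab_congr ?_ (lab_sec hsec hl hl)
    intro u hu
    cases u with
    | nil => simp at hu
    | cons y u => cases y <;> simp

end Pool.Agent.H776R2.Om
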