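import Mathlib
import Pool.Agent.H776R2.Om.Defs
import Pool.Agent.H776R2.Om.Basic

set_option autoImplicit false

/-! Task B: the doubling substitution. -/

namespace Pool.Agent.H776R2.Om

open Pool.Agent.Results.MP_03d093_al.SphereBall Pool.Agent.H776R2.Grig

theorem B_U_nil : U [] = [] := rfl

theorem B_U_cons (x : V) (v : List V) : U (x :: v) = x.lt :: Lt.A :: U v := by
  simp [U]

theorem B_U_append (v w : List V) : U (v ++ w) = U v ++ U w := by
  simp [U]

theorem B_tho_cons (k x : V) (v : List V) : tho k (x :: v) = tho1 k x ++ tho k v := by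
  simp [tho]

theorem B_evo_U_cons (ω : Om) (x : V) (v : List V) :
    evo ω (U (x :: v)) = xx ω x * (a * evo ω (U v)) := by
  rw [B_U_cons, evo_cons, evo_cons, gno_lt]
  rfl

theorem B_evo_U_tho_cons (ω : Om) (k x : V) (v : List V) :
    evo ω (U (tho k (x :: v))) = evo ω (U (tho1 k x)) * evo ω (U (tho k v)) := by
  rw [B_tho_cons, B_U_append, evo_append]

theorem B_tho1_ne {k x : V} (h : x ≠ k) : tho1 k x = [x, x] := by
  cases x <;> simp [tho1, Ne.symm h]

theorem B_tho1_eq (k : V) : ∃ y z : V, y ≠ k ∧ z ≠ k ∧ y ≠ z ∧ tho1 k k = [y, k, z] := by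
  cases k
  · exact ⟨.c, .d, by decide, by decide, by decide, rfl⟩
  · exact ⟨.b, .d, by decide, by decide, by decide, rfl⟩
  · exact ⟨.b, .c, by decide, by decide, by decide, rfl⟩

/-- sections of a block of a letter which is not killed -/
theorem B_sec_ne (ω : Om) {x : V} (h : x ≠ kil (ω 0)) :
    Sec (evo ω (U (tho1 (kil (ω 0)) x))) (a * xx (sh ω) x) (xx (sh ω) x * a) := by
  have h1 : Sec (xx ω x) a (xx (sh ω) x) := by
    have := sec_xx ω x
    rwa [if_neg h] at this
  have h2 := h1.mul h1.conj
  have e : evo ω (U (tho1 (kil (ω 0)) x)) = xx ω x * (a * xx ω x * a) := by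
    rw [B_tho1_ne h, B_evo_U_cons, B_evo_U_cons, B_U_nil, evo_nil]
    simp [mul_assoc]
  rw [e]
  exact h2

/-- sections of a block of the killed letter -/
theorem B_sec_eq (ω : Om) : ∃ g : P, evo ω (U (tho1 (kil (ω 0)) (kil (ω 0)))) = g * a ∧
    Sec g (a * xx (sh ω) (kil (ω 0)) * a) (xx (sh ω) (kil (ω 0))) := by
  obtain ⟨y, z, hy, hz, hyz, e⟩ := B_tho1_eq (kil (ω 0))
  have h1 : Sec (xx ω y) a (xx (sh ω) y) := by
    have := sec_xx ω y
    rwa [if_neg hy] at this
  have h2 : Sec (xx ω z) a (xx (sh ω) z) := by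
    have := sec_xx ω z
    rwa [if_neg hz] at this
  have h3 : Sec (xx ω (kil (ω 0))) 1 (xx (sh ω) (kil (ω 0))) := by
    have := sec_xx ω (kil (ω 0))
    rwa [if_pos rfl] at this
  refine ⟨xx ω y * (a * xx ω (kil (ω 0)) * a) * xx ω z, ?_, ?_⟩
  · rw [e, B_evo_U_cons, B_evo_U_cons, B_evo_U_cons, B_U_nil, evo_nil]
    simp [mul_assoc]
  · have h4 := (h1.mul h3.conj).mul h2
    rw [mul_one, xx_mul (sh ω) y z (kil (ω 0)) hyz hz hy] at h4
    exact h4

theorem sec_tho (ω : Om) (v : List V) :
    (Even (v.count (kil (ω 0))) →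
      Sec (evo ω (U (tho (kil (ω 0)) v))) (a * evo (sh ω) (U v) * a) (evo (sh ω) (U v))) ∧
    (¬ Even (v.count (kil (ω 0))) →
      Sec (evo ω (U (tho (kil (ω 0)) v)) * a) (a * evo (sh ω) (U v)) (evo (sh ω) (U v) * a)) := by
  induction v with
  | nil =>
    refine ⟨fun _ => ?_, fun h => ?_⟩
    · have e : U (tho (kil (ω 0)) []) = [] := rfl
      rw [e, B_U_nil, evo_nil, evo_nil, mul_one, aa]
      exact Sec.one
    · exact absurd (by simp) h
  | cons x v ih =>
    obtain ⟨ih1, ih2⟩ := ih
    rw [B_evo_U_tho_cons, B_evo_U_cons]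
    by_cases hx : x = kil (ω 0)
    · subst hx
      obtain ⟨g, hg, hs⟩ := B_sec_eq ω
      rw [List.count_cons_self, Nat.even_add_one, hg, not_not]
      generalize hX : evo (sh ω) (U v) = X at *
      generalize hY : evo ω (U (tho (kil (ω 0)) v)) = Y at *
      refine ⟨fun h => ?_, fun h => ?_⟩
      · have h1 := hs.mul (ih2 h).conj
        convert h1 using 1
        all_goals simp only [mul_assoc, aa, mul_one]
      · have h1 := hs.mul (ih1 h).conj
        convert h1 using 1
        all_goals simp only [mul_assoc, aa, mul_one]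
    · have hs := B_sec_ne ω hx
      rw [List.count_cons_of_ne hx]
      generalize hX : evo (sh ω) (U v) = X at *
      generalize hY : evo ω (U (tho (kil (ω 0)) v)) = Y at *
      refine ⟨fun h => ?_, fun h => ?_⟩
      · have h1 := hs.mul (ih1 h)
        convert h1 using 1
        all_goals simp only [mul_assoc]
      · have h1 := hs.mul (ih2 h)
        convert h1 using 1
        all_goals simp only [mul_assoc]

theorem count_tho (k x : V) (v : List V) :
    (tho k v).count x = if x = k then v.count k else v.count k + 2 * v.count x := by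
  induction v with
  | nil => simp [tho]
  | cons y v ih =>
    rw [B_tho_cons, List.count_append, ih]
    cases k <;> cases x <;> cases y <;> simp [tho1] <;> omega

theorem B_count (v : List V) : v.length = v.count .b + v.count .c + v.count .d := by
  induction v with
  | nil => rfl
  | cons x v ih =>
    rw [List.length_cons, ih]
    cases x <;> (simp; ring)

theorem length_thi (ω : Om) (i : ℕ) (v : List V) :
    (thi ω i v).length =
      v.count .b * nn ω i .b + v.count .c * nn ω i .c + v.count .d * nn ω i .d := by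
  induction i generalizing v with
  | zero => simp [thi, nn, B_count]
  | succ i ih =>
    rw [thi, ih, count_tho, count_tho, count_tho]
    cases h : kil (ω i) <;> simp [nn, h] <;> ring

theorem length_thi_le (ω : Om) (i : ℕ) (v : List V) :
    (thi ω i v).length ≤ v.length * ell ω i := by
  rw [length_thi, B_count, add_mul, add_mul]
  have h1 : nn ω i .b ≤ ell ω i := le_max_left _ _
  have h2 : nn ω i .c ≤ ell ω i := (le_max_left _ _).trans (le_max_right _ _)
  have h3 : nn ω i .d ≤ ell ω i := (le_max_right _ _).trans (le_max_right _ _)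
  gcongr

end Pool.Agent.H776R2.Om
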