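import Mathlib
import Pool.Agent.H776R2.Om.Defs

/-! Task M: the final step with `FF` (with the facts on `ballO` as hypotheses) -/

set_option autoImplicit false

namespace Pool.Agent.H776R2.Om

open Pool.Agent.Results.MP_03d093_al.SphereBall Pool.Agent.H776R2.Grig

theorem M_ell_zero (ω : Om) : ell ω 0 = 1 := by
  simp [ell, nn]

theorem M_nn_le_ell (ω : Om) (i : ℕ) (x : V) : nn ω i x ≤ ell ω i := by
  unfold ell
  cases x
  · exact le_max_left _ _
  · exact le_trans (le_max_left _ _) (le_max_right _ _)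
  · exact le_trans (le_max_right _ _) (le_max_right _ _)

theorem M_ell_le (ω : Om) (i N : ℕ) (h : ∀ x, nn ω i x ≤ N) : ell ω i ≤ N := by
  unfold ell
  exact max_le (h _) (max_le (h _) (h _))

theorem M_ell_succ_le (ω : Om) (i : ℕ) : ell ω (i + 1) ≤ 3 * ell ω i := by
  refine M_ell_le _ _ _ fun x => ?_
  have hb := M_nn_le_ell ω i .b
  have hc := M_nn_le_ell ω i .c
  have hd := M_nn_le_ell ω i .d
  have hx := M_nn_le_ell ω i x
  simp only [nn]
  split_ifs <;> omega

/-- triangle inequality for the weights -/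
theorem M_tri (ω : Om) (i : ℕ) : nn ω i .b ≤ nn ω i .c + nn ω i .d ∧
    nn ω i .c ≤ nn ω i .b + nn ω i .d ∧ nn ω i .d ≤ nn ω i .b + nn ω i .c := by
  induction i with
  | zero => simp [nn]
  | succ i ih =>
    obtain ⟨h1, h2, h3⟩ := ih
    simp only [nn]
    generalize kil (ω i) = k
    cases k <;> simp <;> omega

theorem M_two_nn_le (ω : Om) (i : ℕ) (x : V) : 2 * nn ω i x ≤ nn ω (i + 1) x := by
  obtain ⟨h1, h2, h3⟩ := M_tri ω i
  simp only [nn]
  split_ifs with h
  · cases x <;> omega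
  · exact le_refl _

theorem M_two_ell_le (ω : Om) (i : ℕ) : 2 * ell ω i ≤ ell ω (i + 1) := by
  have h : ∀ x, 2 * nn ω i x ≤ ell ω (i + 1) := fun x =>
    (M_two_nn_le ω i x).trans (M_nn_le_ell ω (i + 1) x)
  have hb := h .b
  have hc := h .c
  have hd := h .d
  have : ell ω i = nn ω i .b ∨ ell ω i = nn ω i .c ∨ ell ω i = nn ω i .d := by
    unfold ell
    omega
  omega

theorem M_pow_le_ell (ω : Om) (i : ℕ) : 2 ^ i ≤ ell ω i := by
  induction i with
  | zero => rw [M_ell_zero, pow_zero]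
  | succ i ih =>
    have := M_two_ell_le ω i
    rw [pow_succ]
    omega

theorem M_ell_add_le (ω : Om) (i c : ℕ) : ell ω (i + c) ≤ 3 ^ c * ell ω i := by
  induction c with
  | zero => simp
  | succ c ih =>
    have h := M_ell_succ_le ω (i + c)
    rw [← add_assoc, pow_succ]
    calc ell ω (i + c + 1) ≤ 3 * ell ω (i + c) := h
      _ ≤ 3 * (3 ^ c * ell ω i) := Nat.mul_le_mul_left _ ih
      _ = 3 ^ c * 3 * ell ω i := by ring

theorem M_kk_spec (ω : Om) (n : ℕ) : n ≤ ell ω (kk ω n) := by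
  have hne : {k : ℕ | n ≤ ell ω k}.Nonempty :=
    ⟨n, (Nat.lt_two_pow_self).le.trans (M_pow_le_ell ω n)⟩
  exact Nat.sInf_mem hne

theorem M_kk_lt (ω : Om) (n j : ℕ) (hj : j < kk ω n) : ell ω j < n := by
  have h := Nat.notMem_of_lt_sInf hj
  by_contra hc
  push Not at hc
  exact h hc

theorem M_lower (ω : Om) (hm : ∀ m n : ℕ, m ≤ n → ballO ω m ≤ ballO ω n)
    (hz : ballO ω 0 = 1) (A : ℕ) (h : ∀ k : ℕ, 2 ^ 2 ^ k ≤ ballO ω (A * ell ω k)) :
    ∃ C : ℕ, 1 ≤ C ∧ ∀ n : ℕ, FF ω n ≤ ballO ω (C * n) := by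
  refine ⟨3 * A + 1, by omega, fun n => ?_⟩
  unfold FF
  split_ifs with hn
  · subst hn
    rw [mul_zero, hz]
  · refine (h _).trans (hm _ _ ?_)
    have hl : ell ω (kk ω n) ≤ 3 * n := by
      rcases Nat.eq_zero_or_pos (kk ω n) with h0 | h0
      · rw [h0, M_ell_zero]
        omega
      · have h1 := M_kk_lt ω n (kk ω n - 1) (by omega)
        have h2 := M_ell_succ_le ω (kk ω n - 1)
        rw [show kk ω n - 1 + 1 = kk ω n by omega] at h2
        omega
    calc A * ell ω (kk ω n) ≤ A * (3 * n) := Nat.mul_le_mul_left _ hl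
      _ = 3 * A * n := by ring
      _ ≤ (3 * A + 1) * n := Nat.mul_le_mul_right _ (by omega)

theorem M_upper (ω : Om) (hm : ∀ m n : ℕ, m ≤ n → ballO ω m ≤ ballO ω n)
    (hz : ballO ω 0 = 1) (C : ℝ)
    (h : ∀ k : ℕ, (ballO ω (ell ω k) : ℝ) ≤ Real.exp (C * 2 ^ k)) :
    ∃ C : ℕ, 1 ≤ C ∧ ∀ n : ℕ, ballO ω n ≤ FF ω (C * n) := by
  have hlog : 0 < Real.log 2 := Real.log_pos (by norm_num)
  obtain ⟨c, hc⟩ := pow_unbounded_of_one_lt (C / Real.log 2) (by norm_num : (1 : ℝ) < 2)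
  have hC : C ≤ Real.log 2 * 2 ^ c := by
    rw [div_lt_iff₀ hlog] at hc
    linarith
  refine ⟨3 ^ c, Nat.one_le_pow _ _ (by norm_num), fun n => ?_⟩
  rcases Nat.eq_zero_or_pos n with hn | hn
  · subst hn
    rw [mul_zero, hz]
    unfold FF
    rw [if_pos rfl]
  · have hk : kk ω n + c ≤ kk ω (3 ^ c * n) := by
      by_contra hlt
      push Not at hlt
      have h1 := M_kk_spec ω (3 ^ c * n)
      have h3c : 0 < 3 ^ c := by positivity
      rcases Nat.lt_or_ge (kk ω (3 ^ c * n)) c with h2 | h2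
      · have h4 := M_ell_add_le ω 0 (kk ω (3 ^ c * n))
        rw [zero_add, M_ell_zero, mul_one] at h4
        have h5 : 3 ^ kk ω (3 ^ c * n) < 3 ^ c := Nat.pow_lt_pow_right (by norm_num) h2
        have h6 : 3 ^ c ≤ 3 ^ c * n := Nat.le_mul_of_pos_right _ hn
        omega
      · have h4 := M_ell_add_le ω (kk ω (3 ^ c * n) - c) c
        rw [show kk ω (3 ^ c * n) - c + c = kk ω (3 ^ c * n) by omega] at h4
        have h5 := M_kk_lt ω n (kk ω (3 ^ c * n) - c) (by omega)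
        have h6 : 3 ^ c * ell ω (kk ω (3 ^ c * n) - c) < 3 ^ c * n :=
          Nat.mul_lt_mul_of_pos_left h5 h3c
        omega
    have h7 : (ballO ω n : ℝ) ≤ Real.exp (C * 2 ^ kk ω n) :=
      le_trans (by exact_mod_cast hm _ _ (M_kk_spec ω n)) (h (kk ω n))
    have h8 : Real.exp (C * 2 ^ kk ω n) ≤ ((2 ^ 2 ^ (kk ω n + c) : ℕ) : ℝ) := by
      push_cast
      rw [← Real.rpow_natCast 2 (2 ^ (kk ω n + c)), Real.rpow_def_of_pos (by norm_num),
        Real.exp_le_exp]
      push_cast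
      rw [pow_add]
      have : (0 : ℝ) < 2 ^ kk ω n := by positivity
      nlinarith
    have h9 : ballO ω n ≤ 2 ^ 2 ^ (kk ω n + c) := by exact_mod_cast h7.trans h8
    have h10 : 3 ^ c * n ≠ 0 := by positivity
    unfold FF
    rw [if_neg h10]
    exact h9.trans (Nat.pow_le_pow_right (by norm_num) (Nat.pow_le_pow_right (by norm_num) hk))

end Pool.Agent.H776R2.Om
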