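import Mathlib
import Pool.Agent.H776R2.Om.Basic
import Pool.Agent.H776R2.Om.FinM

/-! Task M: the final step with `FF` -/

set_option autoImplicit false

namespace Pool.Agent.H776R2.Om

open Pool.Agent.Results.MP_03d093_al.SphereBall Pool.Agent.H776R2.Grig

theorem FF_lower (ω : Om) (A : ℕ) (h : ∀ k : ℕ, 2 ^ 2 ^ k ≤ ballO ω (A * ell ω k)) :
    ∃ C : ℕ, 1 ≤ C ∧ ∀ n : ℕ, FF ω n ≤ ballO ω (C * n) :=
  M_lower ω (fun _ _ hmn => ballO_mono ω hmn) (ballO_zero ω) A h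

theorem FF_upper (ω : Om) (C : ℝ)
    (h : ∀ k : ℕ, (ballO ω (ell ω k) : ℝ) ≤ Real.exp (C * 2 ^ k)) :
    ∃ C : ℕ, 1 ≤ C ∧ ∀ n : ℕ, ballO ω n ≤ FF ω (C * n) :=
  M_upper ω (fun _ _ hmn => ballO_mono ω hmn) (ballO_zero ω) C h

end Pool.Agent.H776R2.Om
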