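import Mathlib
import Pool.Agent.H776R2.Om.Defs
import Pool.Agent.H776R2.Om.Basic
import Pool.Agent.H776R2.Om.Doub
import Pool.Agent.H776R2.Om.Norm
import Pool.Agent.H776R2.Om.Wt
import Pool.Agent.H776R2.Om.Base

set_option autoImplicit false

/-! Special elements of length `O(ℓ_m)` (task S). -/

namespace Pool.Agent.H776R2.Om

open Pool.Agent.Results.MP_03d093_al.SphereBall Pool.Agent.H776R2.Grig

theorem S_aa : (a : P) * a = 1 := by
  ext1 w
  exact aFun_invol w

theorem S_pa_mul (x y : Bool) : pa x * pa y = pa (xor x y) := by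
  cases x <;> cases y <;> simp [pa, S_aa]

theorem S_sec (ω : Om) (v : List V) (e : Bool) (he : Even (v.count (kil (ω 0))) ↔ e = false) :
    Sec (evo ω (U (tho (kil (ω 0)) v)) * pa e) (a * (evo (sh ω) (U v) * pa e) * a)
      (evo (sh ω) (U v) * pa e) := by
  cases e
  · have := (sec_tho ω v).1 (he.2 rfl)
    simpa [pa] using this
  · have hne : ¬ Even (v.count (kil (ω 0))) := fun h => by simpa using he.1 h
    have := (sec_tho ω v).2 hne
    have e1 : a * (evo (sh ω) (U v) * pa true) * a = a * evo (sh ω) (U v) := by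
      simp [pa, mul_assoc, S_aa]
    rw [e1]
    simpa [pa] using this

theorem S_count (v : List V) : v.length = v.count V.b + v.count V.c + v.count V.d := by
  induction v with
  | nil => simp
  | cons x v ih =>
    cases x <;> simp [List.count_cons, ih] <;> omega

theorem S_iter (ω : Om) (t : ℕ) (h : List Bool → Bool) (e : Bool) (i : ℕ) :
    ∀ (n d : ℕ) (v : List V), 1 ≤ n → 1 ≤ d → (∀ x : V, Even (v.count x) ↔ e = false) →
    Lab n (fun u => h ((u.drop d).take t)) (evo (shi i ω) (U v) * pa e) →
    Lab (n + i) (fun u => h ((u.drop (d + i)).take t)) (evo ω (U (thi ω i v)) * pa e) := by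
  induction i with
  | zero =>
    intro n d v _ _ _ h0
    exact h0
  | succ i ih =>
    intro n d v hn hd he h0
    have hi : (shi i ω) 0 = ω i := by simp [shi]
    have hpar : ∀ x : V, Even ((tho (kil (ω i)) v).count x) ↔ e = false := by
      intro x
      rw [count_tho]
      split_ifs with hx
      · exact he _
      · rw [Nat.even_add]
        simp [he]
    have hs := S_sec (shi i ω) v e (he _)
    rw [sh_shi, hi] at hs
    have hl := lab_sec hs (lab_conj_a hn h0) h0
    have hl' : Lab (n + 1) (fun u => h ((u.drop (d + 1)).take t))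
        (evo (shi i ω) (U (tho (kil (ω i)) v)) * pa e) := by
      refine lab_congr ?_ hl
      intro u hu
      match u, hu with
      | x :: y :: u, _ =>
        obtain ⟨d', rfl⟩ : ∃ d', d = d' + 1 := ⟨d - 1, by omega⟩
        cases x <;> simp [aFun]
      | [x], hu =>
        simp only [List.length_cons, List.length_nil] at hu
        omega
    have h2 := ih (n + 1) (d + 1) (tho (kil (ω i)) v) (by omega) (by omega) hpar hl'
    have e1 : n + 1 + i = n + (i + 1) := by omega
    have e2 : d + 1 + i = d + (i + 1) := by omega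
    rw [e1, e2] at h2
    exact h2

theorem S_U_length (v : List V) : (U v).length = 2 * v.length := by
  induction v with
  | nil => rfl
  | cons x v ih =>
    have : U (x :: v) = x.lt :: Lt.A :: U v := rfl
    rw [this]
    simp only [List.length_cons, ih]
    omega

theorem specialo (ω : Om) (s : ℕ) : ∃ S : ℕ, ∀ (h : List Bool → Bool) (m : ℕ),
    ω (m + s) ≠ ω (m + s + 1) → ∃ w : List Lt, w.length ≤ S * ell ω m ∧
      Lab (m + s + 2) (fun u => h ((u.drop m).take (s + 1))) (evo ω w) := by
  obtain ⟨B0, hB0⟩ := base0 s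
  obtain ⟨B1, hB1⟩ := base1 (s + 1)
  refine ⟨B0 + 2 * B1 + 1, ?_⟩
  intro h m hm
  rcases Nat.eq_zero_or_pos m with rfl | hm0
  · have hω : ω s ≠ ω (s + 1) := by simpa using hm
    obtain ⟨w, hw, -, hlab⟩ := hB0 ω hω h
    refine ⟨w, ?_, ?_⟩
    · rw [ell_zero]
      omega
    · rw [zero_add]
      simpa using hlab
  · obtain ⟨k, rfl⟩ : ∃ k, m = k + 1 := ⟨m - 1, by omega⟩
    have hη : (shi k ω) (s + 1) ≠ (shi k ω) (s + 1 + 1) := by
      have e1 : s + 1 + k = k + 1 + s := by omega
      have e2 : s + 1 + 1 + k = k + 1 + s + 1 := by omega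
      show ω (s + 1 + k) ≠ ω (s + 1 + 1 + k)
      rw [e1, e2]
      exact hm
    obtain ⟨w, hw, hG, hlab⟩ := hB1 (shi k ω) hη h
    obtain ⟨e0, e1, v, hev, hvl, -, hyz, hA⟩ := normal_formo (shi k ω) (fun _ => 1)
      ⟨fun _ => one_pos, fun _ _ _ _ _ _ => by norm_num⟩ w
    have hyz' : ∀ y z : V, y ≠ z → Even (v.count y + v.count z) := by
      intro y z hne
      exact (hyz y z hne).2 ((hG _).add (hG _))
    have hA' : Even (v.length + e0.toNat + e1.toNat) := hA.2 (hG _)
    have hlen : ∀ x : V, Even v.length ↔ Even (v.count x) := by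
      have h1 := S_count v
      have hbc := hyz' .b .c (by decide)
      have hbd := hyz' .b .d (by decide)
      have hcd := hyz' .c .d (by decide)
      intro x
      rw [h1]
      cases x <;> rw [Nat.even_iff] at * <;> rw [Nat.even_iff] <;> omega
    have hpar : ∀ x : V, Even (v.count x) ↔ xor e0 e1 = false := by
      intro x
      rw [← hlen x]
      cases e0 <;> cases e1 <;>
        simp only [Bool.toNat_false, Bool.toNat_true, add_zero, Nat.even_add_one] at hA' <;>
        simp [hA'] <;> simpa using hA'
    have hconj : evo (shi k ω) (U v) * pa (xor e0 e1) = pa e0 * evo (shi k ω) w * pa e0 := by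
      rw [hev]
      have h1 : pa e0 * pa e0 = 1 := by rw [S_pa_mul]; simp [pa]
      have h2 : pa e1 * pa e0 = pa (xor e0 e1) := by rw [S_pa_mul, Bool.xor_comm]
      calc evo (shi k ω) (U v) * pa (xor e0 e1) =
            (pa e0 * pa e0) * evo (shi k ω) (U v) * (pa e1 * pa e0) := by
            rw [h1, h2, one_mul]
        _ = _ := by simp only [mul_assoc]
    have hlab0 : Lab (s + 1 + 2) (fun u => h ((u.drop 1).take (s + 1)))
        (evo (shi k ω) (U v) * pa (xor e0 e1)) := by
      rw [hconj]
      cases e0
      · simpa [pa] using hlab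
      · have h1 := lab_conj_a (by omega) hlab
        have h2 : pa true = a := by simp [pa]
        rw [h2]
        refine lab_congr ?_ h1
        intro u hu
        match u, hu with
        | x :: u, _ => simp [aFun]
    have hk := S_iter ω (s + 1) h (xor e0 e1) k (s + 1 + 2) 1 v (by omega) le_rfl hpar hlab0
    have hlen2 := length_thi_le ω k v
    have hvB : v.length ≤ B1 := hvl.trans hw
    have h3 : v.length * ell ω k ≤ B1 * ell ω k := Nat.mul_le_mul_right _ hvB
    have h4 := two_ell_le ω k
    have h5 := ell_pos ω (k + 1)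
    have hmain : 2 * (thi ω k v).length + 1 ≤ (B0 + 2 * B1 + 1) * ell ω (k + 1) := by
      have h6 : B1 * (2 * ell ω k) ≤ B1 * ell ω (k + 1) := Nat.mul_le_mul_left _ h4
      nlinarith [Nat.zero_le (B0 * ell ω (k + 1)), Nat.zero_le (B1 * ell ω (k + 1))]
    have hN : k + 1 + s + 2 = s + 1 + 2 + k := by omega
    have hN' : k + 1 = 1 + k := by omega
    rw [hN]
    cases hx : xor e0 e1
    · refine ⟨U (thi ω k v), ?_, ?_⟩
      · rw [S_U_length]
        omega
      · rw [hx] at hk
        rw [hN']
        simpa [pa] using hk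
    · refine ⟨U (thi ω k v) ++ [Lt.A], ?_, ?_⟩
      · rw [List.length_append, S_U_length]
        simp only [List.length_cons, List.length_nil]
        omega
      · rw [hx] at hk
        rw [hN', evo_append, evo_cons, evo_nil, mul_one]
        exact hk

end Pool.Agent.H776R2.Om
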