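import Mathlib
import Pool.Agent.H776R2.Om.Defs
import Pool.Agent.H776R2.Om.Basic
import Pool.Agent.H776R2.Om.Wt
import Pool.Agent.H776R2.Om.Special

set_option autoImplicit false

/-! Task R: realizing all functions of the first `k` letters by words of length `O(ell k)`. -/

namespace Pool.Agent.H776R2.Om

open Pool.Agent.Results.MP_03d093_al.SphereBall Pool.Agent.H776R2.Grig

theorem R_split {ω : Om} {n m r : ℕ} (hn : m + r ≤ n) (X : ℕ)
    (hX : ∀ t : List Bool, t.length = r → ∀ q : List Bool → Bool, ∃ w : List Lt,
      w.length ≤ X ∧
      Lab n (fun u => decide ((u.drop m).take r = t) && q (u.take m)) (evo ω w))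
    (p : List Bool → Bool) :
    ∃ w : List Lt, w.length ≤ 2 ^ r * X ∧ Lab n (fun u => p (u.take (m + r))) (evo ω w) := by
  have claim : ∀ i : ℕ, ∀ t : List Bool, t.length + i = r → ∀ p : List Bool → Bool, ∃ w : List Lt,
      w.length ≤ 2 ^ i * X ∧
      Lab n (fun u => decide ((u.drop (m + i)).take (r - i) = t) && p (u.take (m + i)))
        (evo ω w) := by
    intro i
    induction i with
    | zero =>
      intro t ht p
      obtain ⟨w, hw, hl⟩ := hX t (by omega) p
      exact ⟨w, by simpa using hw, by simpa using hl⟩
    | succ i ih =>
      intro t ht p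
      obtain ⟨w0, hw0, hl0⟩ := ih (false :: t) (by simp only [List.length_cons]; omega)
        (fun v => p (v ++ [false]))
      obtain ⟨w1, hw1, hl1⟩ := ih (true :: t) (by simp only [List.length_cons]; omega)
        (fun v => p (v ++ [true]))
      refine ⟨w0 ++ w1, ?_, ?_⟩
      · rw [List.length_append, pow_succ]
        calc w0.length + w1.length ≤ 2 ^ i * X + 2 ^ i * X := Nat.add_le_add hw0 hw1
          _ = 2 ^ i * 2 * X := by ring
      · rw [evo_append]
        refine lab_congr ?_ (lab_mul hl0 hl1)
        intro u hu
        have hlt : m + i < u.length := by omega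
        have h1 : u.drop (m + i) = u[m + i] :: u.drop (m + i + 1) := List.drop_eq_getElem_cons hlt
        have h2 : u.take (m + (i + 1)) = u.take (m + i) ++ [u[m + i]] := by
          rw [← add_assoc, List.take_succ_eq_append_getElem hlt]
        have h3 : r - i = (r - (i + 1)) + 1 := by omega
        have h4 : (u.drop (m + i)).take (r - i) =
            u[m + i] :: (u.drop (m + (i + 1))).take (r - (i + 1)) := by
          rw [h1, h3, List.take_succ_cons, add_assoc]
        simp only [h4, h2, List.cons.injEq]
        cases u[m + i] <;> simp
  obtain ⟨w, hw, hl⟩ := claim r [] (by simp) p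
  exact ⟨w, hw, by simpa using hl⟩

theorem R_getD (u : List Bool) (m n i : ℕ) (hm : m ≤ i) (hn : i - m < n) :
    ((u.drop m).take n).getD (i - m) false = u.getD i false := by
  simp only [List.getD_eq_getElem?_getD]
  congr 1
  rw [List.getElem?_take_of_lt hn, List.getElem?_drop]
  congr 1
  omega

theorem realizeo {r : ℕ} {ω : Om} (h : Hom r ω) : ∃ A : ℕ, ∀ (k j : ℕ), ω j ≠ ω (j + 1) →
    k + r + 2 ≤ j → j ≤ k + 2 * r + 4 → ∀ p : List Bool → Bool, ∃ w : List Lt,
    w.length ≤ A * ell ω k ∧ Lab (j + 2) (fun u => p (u.take k)) (evo ω w) := by
  have hr := hom_pos h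
  choose Sc hS using fun s => specialo ω s
  set S : ℕ := ∑ s ∈ Finset.range (14 * r + 5), Sc s with hSdef
  have hSle : ∀ s, s < 14 * r + 5 → Sc s ≤ S := fun s hs =>
    Finset.single_le_sum (f := Sc) (fun _ _ => Nat.zero_le _) (Finset.mem_range.2 hs)
  set A : ℕ := 2 * S + 1 with hA
  refine ⟨A, ?_⟩
  intro k
  induction k using Nat.strong_induction_on with
  | _ k ih =>
    intro j hj hj1 hj2 p
    by_cases hk : k < 12 * r
    · obtain ⟨w, hw, hl⟩ := hS j (fun y => p (y.take k)) 0 (by simpa using hj)
      refine ⟨w, ?_, ?_⟩
      · have h1 := hSle j (by omega)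
        have h2 := ell_pos ω k
        rw [ell_zero, mul_one] at hw
        calc w.length ≤ Sc j := hw
          _ ≤ S := h1
          _ ≤ A * 1 := by omega
          _ ≤ A * ell ω k := Nat.mul_le_mul_left _ h2
      · rw [zero_add] at hl
        refine lab_congr ?_ hl
        intro u _
        simp only [List.drop_zero, List.take_take]
        rw [min_eq_left (by omega)]
    · obtain ⟨m, rfl⟩ : ∃ m, k = m + 12 * r := ⟨k - 12 * r, by omega⟩
      obtain ⟨ja, hja1, hja2, hja⟩ := hom_change h (m + r + 2)
      obtain ⟨jb, hjb1, hjb2, hjb⟩ := hom_change h (m + 12 * r)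
      have es1 : m + (jb - m) = jb := by omega
      have es2 : m + (j - m) = j := by omega
      obtain ⟨ws, hws, hls⟩ := hS (jb - m) (fun y => y.getD (ja + 2 - m) false) m
        (by rw [es1]; exact hjb)
      rw [es1] at hls
      have hws' : ws.length ≤ S * ell ω m :=
        hws.trans (Nat.mul_le_mul_right _ (hSle _ (by omega)))
      have key : ∀ t : List Bool, t.length = 12 * r → ∀ q : List Bool → Bool, ∃ w : List Lt,
          w.length ≤ (4 * A + 6 * S) * ell ω m ∧
          Lab (j + 2) (fun u => decide ((u.drop m).take (12 * r) = t) && q (u.take m))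
            (evo ω w) := by
        intro t ht q
        obtain ⟨we, hwe, hle⟩ := ih m (by omega) ja hja (by omega) (by omega) q
        obtain ⟨wt, hwt, hlt⟩ := hS (j - m)
          (fun y => decide (y.take (12 * r) = t) && y.getD (jb + 2 - m) false) m
          (by rw [es2]; exact hj)
        rw [es2] at hlt
        have hwt' : wt.length ≤ S * ell ω m :=
          hwt.trans (Nat.mul_le_mul_right _ (hSle _ (by omega)))
        -- first commutator
        have hs' : Lab (jb + 2) (fun u => (fun _ : List Bool => true) (u.take (ja + 2)) &&
            u.getD (ja + 2) false) (evo ω ws) := by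
          refine lab_congr ?_ hls
          intro u hu
          simp only [Bool.true_and]
          exact R_getD u m _ (ja + 2) (by omega) (by omega)
        have c1 := lab_commo ω (j := ja + 2) (n := jb + 2) (by omega)
          (q := fun v => q (v.take m)) (μ := fun _ => true) hle hs'
        have c1' : Lab (jb + 2) (fun u => q (u.take m))
            (evo ω (we ++ ws ++ we.reverse ++ ws.reverse)) := by
          refine lab_congr ?_ c1
          intro u hu
          simp only [Bool.true_and, List.take_take]
          rw [min_eq_left (by omega)]
        -- second commutator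
        have ht' : Lab (j + 2) (fun u =>
            (fun v : List Bool => decide ((v.drop m).take (12 * r) = t)) (u.take (jb + 2))
            && u.getD (jb + 2) false) (evo ω wt) := by
          refine lab_congr ?_ hlt
          intro u hu
          have e1 : ((u.drop m).take (j - m + 1)).take (12 * r) =
              ((u.take (jb + 2)).drop m).take (12 * r) := by
            rw [List.take_take, List.drop_take, List.take_take]
            congr 1
            omega
          have e2 := R_getD u m (j - m + 1) (jb + 2) (by omega) (by omega)
          simp only [e1, e2]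
        have c2 := lab_commo ω (j := jb + 2) (n := j + 2) (by omega) (q := fun v => q (v.take m))
          (μ := fun v => decide ((v.drop m).take (12 * r) = t)) c1' ht'
        refine ⟨_, ?_, lab_congr ?_ c2⟩
        · simp only [List.length_append, List.length_reverse]
          nlinarith
        · intro u hu
          have e1 : ((u.take (jb + 2)).drop m).take (12 * r) = (u.drop m).take (12 * r) := by
            rw [List.drop_take, List.take_take]
            congr 1
            omega
          have e2 : (u.take (jb + 2)).take m = u.take m := by
            rw [List.take_take]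
            congr 1
            omega
          simp only [e1, e2]
      obtain ⟨w, hw, hl⟩ := R_split (ω := ω) (n := j + 2) (m := m) (r := 12 * r) (by omega)
        _ key p
      refine ⟨w, hw.trans ?_, hl⟩
      have h8 := ell_grow h m
      calc 2 ^ (12 * r) * ((4 * A + 6 * S) * ell ω m)
          ≤ 2 ^ (12 * r) * ((8 * A) * ell ω m) := by
            gcongr
            omega
        _ = A * (8 * 2 ^ (12 * r) * ell ω m) := by ring
        _ ≤ A * ell ω (m + 12 * r) := Nat.mul_le_mul_left _ h8

end Pool.Agent.H776R2.Om
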