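import Mathlib

import Pool.Agent.H776R2.Om.Basic
import Pool.Agent.H776R2.Om.Wt
import Pool.Agent.H776R2.Om.Realize

set_option autoImplicit false

/-! Task L: `2 ^ (2 ^ k) ≤ ball (A ℓ_k)`. -/

namespace Pool.Agent.H776R2.Om

open Pool.Agent.Results.MP_03d093_al.SphereBall Pool.Agent.H776R2.Grig

/-- extension of a function on the words of length `k` -/
def L_ext {k : ℕ} (f : List.Vector Bool k → Bool) (u : List Bool) : Bool :=
  if h : u.length = k then f ⟨u, h⟩ else false

theorem L_ext_apply {k : ℕ} (f : List.Vector Bool k → Bool) (v : List.Vector Bool k) :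
    L_ext f v.1 = f v := by
  rw [L_ext, dif_pos v.2]
  rfl

/-- the label function of an element is determined by the element -/
theorem L_unique {k n : ℕ} (hn : k ≤ n) {p q : List Bool → Bool} {g : P}
    (hp : Lab n (fun u => p (u.take k)) g) (hq : Lab n (fun u => q (u.take k)) g)
    (v : List Bool) (hv : v.length = k) : p v = q v := by
  have hlen : (v ++ List.replicate (n - k) false).length = n := by simp [hv]; omega
  have h1 := hp _ hlen false
  have h2 := hq _ hlen false
  rw [h1] at h2
  have h3 := List.append_cancel_left h2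
  have ht : (v ++ List.replicate (n - k) false).take k = v := by
    rw [List.take_append_of_le_length (by omega), List.take_of_length_le (by omega)]
  simp only [ht, Bool.false_xor, List.cons.injEq, and_true] at h3
  exact h3

theorem ballO_lower {r : ℕ} {ω : Om} (h : Hom r ω) : ∃ A : ℕ, ∀ k : ℕ,
    2 ^ 2 ^ k ≤ ballO ω (A * ell ω k) := by
  obtain ⟨A, hA⟩ := realizeo h
  refine ⟨A, fun k => ?_⟩
  obtain ⟨j, hj1, hj2, hj3⟩ := hom_change h (k + r + 2)
  choose w hw1 hw2 using fun f : List.Vector Bool k → Bool =>
    hA k j hj3 hj1 (by omega) (L_ext f)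
  have hlen : ∀ f, lenO ω (evG ω (w f)) ≤ A * ell ω k := fun f =>
    (lenO_le ω (w f)).trans (hw1 f)
  let Φ : (List.Vector Bool k → Bool) → {g : Gom ω // lenO ω g ≤ A * ell ω k} :=
    fun f => ⟨evG ω (w f), hlen f⟩
  have hinj : Function.Injective Φ := by
    intro f f' hff
    have h1 : evo ω (w f) = evo ω (w f') := by
      have h2 : evG ω (w f) = evG ω (w f') := congrArg Subtype.val hff
      exact congrArg Subtype.val h2
    funext v
    have h3 := hw2 f
    rw [h1] at h3
    have h4 := L_unique (by omega) h3 (hw2 f') v.1 v.2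
    rwa [L_ext_apply, L_ext_apply] at h4
  have h5 := Nat.card_le_card_of_injective Φ hinj
  have h6 : Nat.card (List.Vector Bool k → Bool) = 2 ^ 2 ^ k := by
    rw [Nat.card_eq_fintype_card, Fintype.card_fun, card_vector, Fintype.card_bool]
  rw [h6] at h5
  exact h5

end Pool.Agent.H776R2.Om
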