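import Mathlib
import Pool.Agent.H776R2.Om.Defs
import Pool.Agent.H776R2.Om.Wt

set_option autoImplicit false

/-! Task T: periodic `ω`: `ℓ_k` is between two multiples of `lam ^ k`. -/

namespace Pool.Agent.H776R2.Om

open Pool.Agent.Results.MP_03d093_al.SphereBall Pool.Agent.H776R2.Grig

theorem T_mod (ω : Om) (p : ℕ) (hper : ∀ n, ω (n + p) = ω n) {m n : ℕ} (h : m ≡ n [MOD p]) :
    ω m = ω n := by
  have h1 : Function.Periodic ω p := hper
  rw [← h1.map_mod_nat m, ← h1.map_mod_nat n, h]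

theorem per_hom (ω : Om) (p : ℕ) (hp : 1 ≤ p) (hper : ∀ n, ω (n + p) = ω n)
    (hall : ∀ x : Fin 3, ∃ n, ω n = x) : Hom p ω := by
  intro n x
  obtain ⟨m, hm⟩ := hall x
  refine ⟨(m + (p - n % p)) % p, Nat.mod_lt _ hp, ?_⟩
  rw [← hm]
  apply T_mod ω p hper
  have h1 : n + (m + (p - n % p)) % p ≡ n + (m + (p - n % p)) [MOD p] :=
    Nat.ModEq.add_left _ (Nat.mod_modEq _ _)
  have h2 : n + (m + (p - n % p)) ≡ n % p + (m + (p - n % p)) [MOD p] :=
    Nat.ModEq.add_right _ (Nat.mod_modEq _ _).symm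
  have h3 : n % p + (m + (p - n % p)) = m + p := by
    have := Nat.mod_lt n hp
    omega
  rw [h3] at h2
  have h4 : m + p ≡ m [MOD p] := by
    show (m + p) % p = m % p
    exact Nat.add_mod_right m p
  exact (h1.trans h2).trans h4

theorem T_shift (ω : Om) (p : ℕ) (hper : ∀ n, ω (n + p) = ω n) (j m : ℕ) :
    ω (j * p + m) = ω m := by
  apply T_mod ω p hper
  show (j * p + m) % p = m % p
  rw [mul_comm, Nat.mul_add_mod]

theorem T_sub (ω : Om) (p : ℕ) (hper : ∀ n, ω (n + p) = ω n) (j m : ℕ) (x : V) :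
    nn ω (j * p + m) x ≤ ell ω (j * p) * nn ω m x := by
  induction m generalizing x with
  | zero =>
    show nn ω (j * p) x ≤ ell ω (j * p) * 1
    rw [mul_one]
    exact nn_le_ell ω _ x
  | succ m ih =>
    have e1 : nn ω (j * p + (m + 1)) x = if x = kil (ω (j * p + m)) then
        nn ω (j * p + m) .b + nn ω (j * p + m) .c + nn ω (j * p + m) .d
        else 2 * nn ω (j * p + m) x := rfl
    have e2 : nn ω (m + 1) x = if x = kil (ω m) then
        nn ω m .b + nn ω m .c + nn ω m .d else 2 * nn ω m x := rfl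
    rw [e1, e2, T_shift ω p hper]
    split_ifs
    · have h1 := ih .b
      have h2 := ih .c
      have h3 := ih .d
      calc _ ≤ ell ω (j * p) * nn ω m .b + ell ω (j * p) * nn ω m .c +
            ell ω (j * p) * nn ω m .d := by omega
        _ = _ := by ring
    · have h1 := ih x
      calc _ ≤ 2 * (ell ω (j * p) * nn ω m x) := by omega
        _ = _ := by ring

theorem T_sup (ω : Om) (p : ℕ) (hper : ∀ n, ω (n + p) = ω n) (hH : Hom p ω) (j m : ℕ) (x : V) :
    ell ω (j * p) * nn ω m x ≤ 3 ^ p * nn ω (j * p + m) x := by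
  induction m generalizing x with
  | zero =>
    show ell ω (j * p) * 1 ≤ 3 ^ p * nn ω (j * p) x
    rw [mul_one]
    exact nn_ge hH _ x
  | succ m ih =>
    have e1 : nn ω (j * p + (m + 1)) x = if x = kil (ω (j * p + m)) then
        nn ω (j * p + m) .b + nn ω (j * p + m) .c + nn ω (j * p + m) .d
        else 2 * nn ω (j * p + m) x := rfl
    have e2 : nn ω (m + 1) x = if x = kil (ω m) then
        nn ω m .b + nn ω m .c + nn ω m .d else 2 * nn ω m x := rfl
    rw [e1, e2, T_shift ω p hper]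
    split_ifs
    · have h1 := ih .b
      have h2 := ih .c
      have h3 := ih .d
      calc _ = ell ω (j * p) * nn ω m .b + ell ω (j * p) * nn ω m .c +
            ell ω (j * p) * nn ω m .d := by ring
        _ ≤ 3 ^ p * nn ω (j * p + m) .b + 3 ^ p * nn ω (j * p + m) .c +
            3 ^ p * nn ω (j * p + m) .d := by omega
        _ = _ := by ring
    · have h1 := ih x
      calc _ = 2 * (ell ω (j * p) * nn ω m x) := by ring
        _ ≤ 2 * (3 ^ p * nn ω (j * p + m) x) := by omega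
        _ = _ := by ring

theorem T_ell_eq (ω : Om) (i : ℕ) : ∃ x : V, ell ω i = nn ω i x := by
  unfold ell
  rcases max_choice (nn ω i .b) (max (nn ω i .c) (nn ω i .d)) with h | h
  · exact ⟨.b, h⟩
  · rw [h]
    rcases max_choice (nn ω i .c) (nn ω i .d) with h | h
    · exact ⟨.c, h⟩
    · exact ⟨.d, h⟩

theorem T_ell_sub (ω : Om) (p : ℕ) (hper : ∀ n, ω (n + p) = ω n) (j m : ℕ) :
    ell ω (j * p + m) ≤ ell ω (j * p) * ell ω m := by
  obtain ⟨x, hx⟩ := T_ell_eq ω (j * p + m)
  rw [hx]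
  exact (T_sub ω p hper j m x).trans (Nat.mul_le_mul_left _ (nn_le_ell ω m x))

theorem T_ell_sup (ω : Om) (p : ℕ) (hper : ∀ n, ω (n + p) = ω n) (hH : Hom p ω) (j m : ℕ) :
    ell ω (j * p) * ell ω m ≤ 3 ^ p * ell ω (j * p + m) := by
  obtain ⟨x, hx⟩ := T_ell_eq ω m
  rw [hx]
  exact (T_sup ω p hper hH j m x).trans (Nat.mul_le_mul_left _ (nn_le_ell ω _ x))

/-- two steps multiply the maximum at most by 7 -/
theorem T_seven (ω : Om) (k : ℕ) : ell ω (k + 2) ≤ 7 * ell ω k := by
  have hx : ∀ x : V, nn ω (k + 1) x ≤ if x = kil (ω k) then 3 * ell ω k else 2 * ell ω k := by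
    intro x
    have e1 : nn ω (k + 1) x = if x = kil (ω k) then
        nn ω k .b + nn ω k .c + nn ω k .d else 2 * nn ω k x := rfl
    rw [e1]
    have hb := nn_le_ell ω k .b
    have hc := nn_le_ell ω k .c
    have hd := nn_le_ell ω k .d
    have hxx := nn_le_ell ω k x
    split_ifs <;> omega
  obtain ⟨y, hy⟩ := T_ell_eq ω (k + 2)
  rw [hy]
  have e2 : nn ω (k + 2) y = if y = kil (ω (k + 1)) then
      nn ω (k + 1) .b + nn ω (k + 1) .c + nn ω (k + 1) .d else 2 * nn ω (k + 1) y := rfl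
  rw [e2]
  split_ifs
  · have hb := hx .b
    have hc := hx .c
    have hd := hx .d
    rcases h : kil (ω k) with _ | _ | _ <;> rw [h] at hb hc hd <;> simp at hb hc hd <;> omega
  · have h1 := hx y
    have h2 : nn ω (k + 1) y ≤ 3 * ell ω k := by
      refine h1.trans ?_
      split_ifs <;> omega
    omega

theorem T_pow_le (x y C : ℝ) (hy : 0 < y) (h : ∀ n : ℕ, x ^ n ≤ C * y ^ n) : x ≤ y := by
  by_contra hc
  rw [not_le] at hc
  have h1 : 1 < x / y := (one_lt_div hy).mpr hc
  obtain ⟨n, hn⟩ := pow_unbounded_of_one_lt C h1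
  have h2 := h n
  rw [div_pow, lt_div_iff₀ (pow_pos hy n)] at hn
  linarith

theorem T_steps (ω : Om) (k s : ℕ) : ell ω k ≤ ell ω (k + s) ∧ ell ω (k + s) ≤ 3 ^ s * ell ω k := by
  induction s with
  | zero => simp
  | succ s ih =>
    have h1 := two_ell_le ω (k + s)
    have h2 := ell_succ_le ω (k + s)
    have e : k + (s + 1) = k + s + 1 := by ring
    rw [e]
    refine ⟨by omega, h2.trans ?_⟩
    calc 3 * ell ω (k + s) ≤ 3 * (3 ^ s * ell ω k) := Nat.mul_le_mul_left _ ih.2
      _ = 3 ^ (s + 1) * ell ω k := by ring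

/-- the estimate along multiples of the period -/
theorem T_fekete (ω : Om) (p : ℕ) (hp : 1 ≤ p) (hper : ∀ n, ω (n + p) = ω n) (hH : Hom p ω) :
    ∃ lam : ℝ, 0 < lam ∧ ∀ j : ℕ, lam ^ (p * j) ≤ (ell ω (j * p) : ℝ) ∧
      (ell ω (j * p) : ℝ) ≤ 3 ^ p * lam ^ (p * j) := by
  have hpos : ∀ j : ℕ, (0 : ℝ) < (ell ω (j * p) : ℝ) := fun j => by exact_mod_cast ell_pos ω _
  have hone : ∀ j : ℕ, (1 : ℝ) ≤ (ell ω (j * p) : ℝ) := fun j => by exact_mod_cast ell_pos ω _
  set u : ℕ → ℝ := fun j => Real.log (ell ω (j * p)) with hu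
  set v : ℕ → ℝ := fun j => p * Real.log 3 - Real.log (ell ω (j * p)) with hv
  have hl3 : Real.log ((3 : ℝ) ^ p) = p * Real.log 3 := Real.log_pow _ _
  have hus : Subadditive u := by
    intro m n
    simp only [hu]
    rw [← Real.log_mul (hpos m).ne' (hpos n).ne']
    apply Real.log_le_log (hpos _)
    have h := T_ell_sub ω p hper m (n * p)
    rw [← add_mul] at h
    exact_mod_cast h
  have hvs : Subadditive v := by
    intro m n
    simp only [hv]
    have h := T_ell_sup ω p hper hH m (n * p)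
    rw [← add_mul] at h
    have h1 : (ell ω (m * p) : ℝ) * ell ω (n * p) ≤ 3 ^ p * ell ω ((m + n) * p) := by
      exact_mod_cast h
    have h2 := Real.log_le_log (mul_pos (hpos m) (hpos n)) h1
    rw [Real.log_mul (hpos m).ne' (hpos n).ne', Real.log_mul (by positivity) (hpos _).ne', hl3]
      at h2
    linarith
  have hu0 : ∀ j, 0 ≤ u j := fun j => Real.log_nonneg (hone j)
  have hub : BddBelow (Set.range fun n : ℕ => u n / n) := by
    refine ⟨0, ?_⟩
    rintro _ ⟨n, rfl⟩
    exact div_nonneg (hu0 n) (Nat.cast_nonneg n)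
  have huup : ∀ j : ℕ, u j ≤ j * (p * Real.log 3) := by
    intro j
    have h1 := (T_steps ω 0 (j * p)).2
    rw [ell_zero, mul_one, zero_add] at h1
    have h2 : (ell ω (j * p) : ℝ) ≤ 3 ^ (j * p) := by exact_mod_cast h1
    have h3 := Real.log_le_log (hpos j) h2
    rw [Real.log_pow] at h3
    simp only [hu]
    push_cast at h3
    linarith
  have hvb : BddBelow (Set.range fun n : ℕ => v n / n) := by
    refine ⟨-(p * Real.log 3), ?_⟩
    rintro _ ⟨n, rfl⟩
    simp only
    rcases Nat.eq_zero_or_pos n with h | h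
    · subst h
      simp only [Nat.cast_zero, div_zero, neg_nonpos]
      have : 0 ≤ Real.log 3 := Real.log_nonneg (by norm_num)
      positivity
    · have hn : (0 : ℝ) < n := by exact_mod_cast h
      rw [le_div_iff₀ hn]
      have h1 := huup n
      have h2 : 0 ≤ (p : ℝ) * Real.log 3 :=
        mul_nonneg (Nat.cast_nonneg p) (Real.log_nonneg (by norm_num))
      simp only [hv, hu] at h1 ⊢
      linarith
  have hulim := hus.tendsto_lim hub
  have hvlim := hvs.tendsto_lim hvb
  have hvu : Filter.Tendsto (fun n : ℕ => v n / n) Filter.atTop (nhds (0 - hus.lim)) := by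
    have h1 : Filter.Tendsto (fun n : ℕ => (p * Real.log 3) / (n : ℝ)) Filter.atTop (nhds 0) :=
      tendsto_const_div_atTop_nhds_zero_nat _
    refine (h1.sub hulim).congr (fun n => ?_)
    simp only [hu, hv]
    rw [sub_div]
  have heq : hvs.lim = 0 - hus.lim := tendsto_nhds_unique hvlim hvu
  have hp0 : (0 : ℝ) < p := by exact_mod_cast hp
  refine ⟨Real.exp (hus.lim / p), Real.exp_pos _, fun j => ?_⟩
  have hpow : Real.exp (hus.lim / p) ^ (p * j) = Real.exp (j * hus.lim) := by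
    rw [← Real.exp_nat_mul]
    congr 1
    push_cast
    field_simp
  rw [hpow]
  rcases Nat.eq_zero_or_pos j with h | h
  · subst h
    have h1 : (ell ω (0 * p) : ℝ) = 1 := by rw [zero_mul, ell_zero]; norm_num
    rw [h1]
    simp only [Nat.cast_zero, zero_mul, Real.exp_zero, mul_one, le_refl, true_and]
    exact one_le_pow₀ (by norm_num)
  · have hj : (0 : ℝ) < j := by exact_mod_cast h
    have h1 := hus.lim_le_div hub h.ne'
    have h2 := hvs.lim_le_div hvb h.ne'
    rw [heq] at h2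
    rw [le_div_iff₀ hj] at h1 h2
    constructor
    · rw [← Real.le_log_iff_exp_le (hpos j)]
      simp only [hu] at h1
      linarith
    · rw [← Real.log_le_log_iff (hpos j) (by positivity),
        Real.log_mul (by positivity) (Real.exp_pos _).ne', hl3, Real.log_exp]
      simp only [hv] at h2
      linarith

theorem per_lam (ω : Om) (p : ℕ) (hp : 1 ≤ p) (hper : ∀ n, ω (n + p) = ω n)
    (hall : ∀ x : Fin 3, ∃ n, ω n = x) : ∃ lam c1 c2 : ℝ, 2 < lam ∧ lam ^ 2 ≤ 7 ∧ 0 < c1 ∧
    (∀ k : ℕ, c1 * lam ^ k ≤ (ell ω k : ℝ) ∧ (ell ω k : ℝ) ≤ c2 * lam ^ k) ∧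
    Filter.Tendsto (fun k : ℕ => ((ell ω k : ℝ)) ^ (1 / (k : ℝ))) Filter.atTop (nhds lam) := by
  have hH := per_hom ω p hp hper hall
  obtain ⟨lam, hlam, hL⟩ := T_fekete ω p hp hper hH
  -- lam > 2
  have h2 : 2 < lam := by
    have hgrow : ∀ n : ℕ, (8 * 2 ^ (12 * p)) ^ n ≤ ell ω ((12 * n) * p) := by
      intro n
      induction n with
      | zero => simp [ell_zero]
      | succ n ih =>
        have h1 := ell_grow hH ((12 * n) * p)
        have e : 12 * n * p + 12 * p = 12 * (n + 1) * p := by ring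
        rw [e] at h1
        calc (8 * 2 ^ (12 * p)) ^ (n + 1) = 8 * 2 ^ (12 * p) * (8 * 2 ^ (12 * p)) ^ n := by ring
          _ ≤ 8 * 2 ^ (12 * p) * ell ω (12 * n * p) := Nat.mul_le_mul_left _ ih
          _ ≤ _ := h1
    have h3 : (8 * 2 ^ (12 * p) : ℝ) ≤ lam ^ (12 * p) := by
      apply T_pow_le _ _ (3 ^ p) (by positivity)
      intro n
      have h4 : ((8 * 2 ^ (12 * p)) ^ n : ℝ) ≤ (ell ω ((12 * n) * p) : ℝ) := by
        exact_mod_cast hgrow n
      refine h4.trans ((hL (12 * n)).2.trans (le_of_eq ?_))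
      rw [← pow_mul]
      congr 2
      ring
    by_contra hc
    rw [not_lt] at hc
    have h5 : lam ^ (12 * p) ≤ 2 ^ (12 * p) := pow_le_pow_left₀ hlam.le hc _
    have h6 : (0 : ℝ) < 2 ^ (12 * p) := by positivity
    linarith
  have hlam1 : (1 : ℝ) ≤ lam := by linarith
  -- two-sided bounds
  have hbd : ∀ k : ℕ, (lam ^ p)⁻¹ * lam ^ k ≤ (ell ω k : ℝ) ∧ (ell ω k : ℝ) ≤ 9 ^ p * lam ^ k := by
    intro k
    obtain ⟨j, s, hs, hk⟩ : ∃ j s : ℕ, s < p ∧ k = j * p + s :=
      ⟨k / p, k % p, Nat.mod_lt _ hp, (Nat.div_add_mod' k p).symm⟩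
    obtain ⟨h3, h4⟩ := T_steps ω (j * p) s
    obtain ⟨h5, h6⟩ := hL j
    have h3' : (ell ω (j * p) : ℝ) ≤ ell ω k := by rw [hk]; exact_mod_cast h3
    have h4' : (ell ω k : ℝ) ≤ 3 ^ s * ell ω (j * p) := by rw [hk]; exact_mod_cast h4
    have hks : lam ^ k = lam ^ (p * j) * lam ^ s := by rw [← pow_add, hk]; congr 1; ring
    have hsp : lam ^ s ≤ lam ^ p := pow_le_pow_right₀ hlam1 hs.le
    have hs1 : (1 : ℝ) ≤ lam ^ s := one_le_pow₀ hlam1
    have hpj : (0 : ℝ) < lam ^ (p * j) := by positivity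
    constructor
    · rw [inv_mul_le_iff₀ (by positivity)]
      calc lam ^ k = lam ^ (p * j) * lam ^ s := hks
        _ ≤ lam ^ (p * j) * lam ^ p := by gcongr
        _ = lam ^ p * lam ^ (p * j) := by ring
        _ ≤ lam ^ p * ell ω k := by
          have := h5.trans h3'
          gcongr
    · have h3s : (3 : ℝ) ^ s ≤ 3 ^ p := pow_le_pow_right₀ (by norm_num) hs.le
      calc (ell ω k : ℝ) ≤ 3 ^ s * ell ω (j * p) := h4'
        _ ≤ 3 ^ p * (3 ^ p * lam ^ (p * j)) := by gcongr
        _ = 9 ^ p * lam ^ (p * j) := by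
          rw [← mul_assoc, ← mul_pow]; norm_num
        _ ≤ 9 ^ p * lam ^ k := by
          rw [hks]
          gcongr
          exact le_mul_of_one_le_right hpj.le hs1
  have hc1 : (0 : ℝ) < (lam ^ p)⁻¹ := by positivity
  refine ⟨lam, (lam ^ p)⁻¹, 9 ^ p, h2, ?_, hc1, hbd, ?_⟩
  · -- lam ^ 2 ≤ 7
    have hseven : ∀ n : ℕ, ell ω (2 * n) ≤ 7 ^ n := by
      intro n
      induction n with
      | zero => simp [ell_zero]
      | succ n ih =>
        have h1 := T_seven ω (2 * n)
        have e : 2 * (n + 1) = 2 * n + 2 := by ring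
        rw [e]
        calc ell ω (2 * n + 2) ≤ 7 * ell ω (2 * n) := h1
          _ ≤ 7 * 7 ^ n := Nat.mul_le_mul_left _ ih
          _ = 7 ^ (n + 1) := by ring
    apply T_pow_le _ _ (lam ^ p) (by norm_num)
    intro n
    have h3 := (hbd (2 * n)).1
    have h4 : (ell ω (2 * n) : ℝ) ≤ 7 ^ n := by exact_mod_cast hseven n
    rw [inv_mul_le_iff₀ (by positivity)] at h3
    rw [← pow_mul]
    refine h3.trans ?_
    gcongr
  · -- the limit
    have hcst : ∀ c : ℝ, 0 < c → Filter.Tendsto (fun k : ℕ => c ^ (1 / (k : ℝ)) * lam)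
        Filter.atTop (nhds lam) := by
      intro c hc
      have h3 : Filter.Tendsto (fun k : ℕ => c ^ (1 / (k : ℝ))) Filter.atTop (nhds (c ^ (0 : ℝ))) :=
        Filter.Tendsto.rpow tendsto_const_nhds tendsto_one_div_atTop_nhds_zero_nat (Or.inl hc.ne')
      rw [Real.rpow_zero] at h3
      simpa using h3.mul_const lam
    have hroot : ∀ k : ℕ, 1 ≤ k → ∀ c : ℝ, 0 < c →
        (c * lam ^ k) ^ (1 / (k : ℝ)) = c ^ (1 / (k : ℝ)) * lam := by
      intro k hk c hc
      rw [Real.mul_rpow hc.le (by positivity), one_div, Real.pow_rpow_inv_natCast hlam.le (by omega)]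
    refine tendsto_of_tendsto_of_tendsto_of_le_of_le' (hcst _ hc1) (hcst (9 ^ p) (by positivity))
      ?_ ?_
    · filter_upwards [Filter.eventually_ge_atTop 1] with k hk
      rw [← hroot k hk _ hc1]
      exact Real.rpow_le_rpow (by positivity) (hbd k).1 (by positivity)
    · filter_upwards [Filter.eventually_ge_atTop 1] with k hk
      rw [← hroot k hk (9 ^ p) (by positivity)]
      exact Real.rpow_le_rpow (by positivity) (hbd k).2 (by positivity)

end Pool.Agent.H776R2.Om
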