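import Mathlib
import Pool.Agent.H776R2.Om.FinM

set_option autoImplicit false

/-! Task Q: `F_ω ~ exp(n^α)` if `ℓ_k ~ λ^k`. -/

namespace Pool.Agent.H776R2.Om

/-- the function `n ↦ ⌊exp(n^α)⌋` -/
noncomputable def expo (α : ℝ) (n : ℕ) : ℕ := ⌊Real.exp ((n : ℝ) ^ α)⌋₊

theorem Q_mono (ω : Om) : Monotone (ell ω) :=
  monotone_nat_of_le_succ fun i => by
    have := M_two_ell_le ω i
    omega

theorem Q_kk (ω : Om) (n c : ℕ) (hn : 1 ≤ n) (hc : 1 ≤ c) : kk ω n + c ≤ kk ω (3 ^ c * n) := by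
  by_contra hlt
  push Not at hlt
  have h1 := M_kk_spec ω (3 ^ c * n)
  have h2 : ell ω (kk ω (3 ^ c * n)) ≤ ell ω (kk ω n + c - 1) := Q_mono ω (by omega)
  rcases Nat.eq_zero_or_pos (kk ω n) with h0 | h0
  · rw [h0] at h2
    have h3 := M_ell_add_le ω 0 (c - 1)
    rw [M_ell_zero] at h3
    have h4 : 0 + c - 1 = 0 + (c - 1) := by omega
    rw [h4] at h2
    have h5 : 3 ^ (c - 1) < 3 ^ c := Nat.pow_lt_pow_right (by norm_num) (by omega)
    have h6 : 3 ^ c * 1 ≤ 3 ^ c * n := Nat.mul_le_mul_left _ hn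
    omega
  · have h3 := M_ell_add_le ω (kk ω n - 1) c
    have h4 : kk ω n + c - 1 = kk ω n - 1 + c := by omega
    rw [h4] at h2
    have h5 := M_kk_lt ω n (kk ω n - 1) (by omega)
    have h6 : 3 ^ c * ell ω (kk ω n - 1) < 3 ^ c * n :=
      Nat.mul_lt_mul_of_pos_left h5 (by positivity)
    omega

theorem Q_two_pow (k : ℕ) : ((2 ^ 2 ^ k : ℕ) : ℝ) = Real.exp (2 ^ k * Real.log 2) := by
  rw [mul_comm, Real.exp_mul, Real.exp_log (by norm_num)]
  push_cast
  rw [← Real.rpow_natCast]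
  push_cast
  rfl

theorem FF_expo (ω : Om) (lam c1 c2 : ℝ) (hl : 2 < lam) (h1 : 0 < c1)
    (h : ∀ k : ℕ, c1 * lam ^ k ≤ (ell ω k : ℝ) ∧ (ell ω k : ℝ) ≤ c2 * lam ^ k) :
    (∃ C : ℕ, 1 ≤ C ∧ ∀ n : ℕ, expo (Real.log 2 / Real.log lam) n ≤ FF ω (C * n)) ∧
    (∃ C : ℕ, 1 ≤ C ∧ ∀ n : ℕ, FF ω n ≤ expo (Real.log 2 / Real.log lam) (C * n)) := by
  have hl0 : (0 : ℝ) < lam := by linarith
  have hlog2 : 0 < Real.log 2 := Real.log_pos (by norm_num)
  have hlog2' : Real.log 2 < 1 := by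
    have := Real.log_two_lt_d9
    linarith
  have hloglam : 0 < Real.log lam := Real.log_pos (by linarith)
  set α : ℝ := Real.log 2 / Real.log lam with hα
  have hα0 : 0 < α := div_pos hlog2 hloglam
  have hlα : lam ^ α = 2 := by
    rw [Real.rpow_def_of_pos hl0]
    have : Real.log lam * α = Real.log 2 := by
      rw [hα]
      field_simp
    rw [this, Real.exp_log (by norm_num)]
  have hpow : ∀ k : ℕ, (lam ^ k) ^ α = 2 ^ k := by
    intro k
    rw [← Real.rpow_natCast lam k, ← Real.rpow_mul hl0.le, mul_comm, Real.rpow_mul hl0.le, hlα,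
      Real.rpow_natCast]
  have hc2 : 0 < c2 := by
    have := h 0
    have h2 : c1 ≤ c2 := by simpa using this.1.trans this.2
    linarith
  have hexpo0 : expo α 0 = 1 := by
    unfold expo
    rw [Nat.cast_zero, Real.zero_rpow hα0.ne', Real.exp_zero, Nat.floor_one]
  constructor
  · obtain ⟨c, hc⟩ : ∃ c : ℕ, c2 ^ α / Real.log 2 ≤ 2 ^ c :=
      (pow_unbounded_of_one_lt _ (by norm_num : (1 : ℝ) < 2)).imp fun _ h => h.le
    refine ⟨3 ^ (c + 1), Nat.one_le_pow _ _ (by norm_num), fun n => ?_⟩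
    rcases Nat.eq_zero_or_pos n with rfl | hn
    · rw [hexpo0]
      simp [FF]
    · have hk := Q_kk ω n (c + 1) hn (by omega)
      have hn0 : 3 ^ (c + 1) * n ≠ 0 := by positivity
      rw [FF, if_neg hn0]
      have h2 : (2 : ℕ) ^ 2 ^ (kk ω n + (c + 1)) ≤ 2 ^ 2 ^ kk ω (3 ^ (c + 1) * n) :=
        Nat.pow_le_pow_right (by norm_num) (Nat.pow_le_pow_right (by norm_num) hk)
      refine le_trans ?_ h2
      unfold expo
      refine Nat.floor_le_of_le ?_
      rw [Q_two_pow]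
      apply Real.exp_le_exp.2
      have h3 : (n : ℝ) ≤ c2 * lam ^ kk ω n := by
        have h4 : (n : ℝ) ≤ (ell ω (kk ω n) : ℝ) := by exact_mod_cast M_kk_spec ω n
        exact h4.trans (h _).2
      have h5 : (n : ℝ) ^ α ≤ c2 ^ α * 2 ^ kk ω n := by
        calc (n : ℝ) ^ α ≤ (c2 * lam ^ kk ω n) ^ α :=
              Real.rpow_le_rpow (by positivity) h3 hα0.le
          _ = c2 ^ α * 2 ^ kk ω n := by
              rw [Real.mul_rpow hc2.le (by positivity), hpow]
      have h6 : c2 ^ α ≤ 2 ^ (c + 1) * Real.log 2 := by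
        rw [div_le_iff₀ hlog2] at hc
        refine hc.trans ?_
        apply mul_le_mul_of_nonneg_right _ hlog2.le
        exact pow_le_pow_right₀ (by norm_num) (by omega)
      calc (n : ℝ) ^ α ≤ c2 ^ α * 2 ^ kk ω n := h5
        _ ≤ (2 ^ (c + 1) * Real.log 2) * 2 ^ kk ω n := by gcongr
        _ = 2 ^ (kk ω n + (c + 1)) * Real.log 2 := by rw [pow_add 2 (kk ω n)]; ring
  · obtain ⟨C, hC⟩ := exists_nat_ge ((2 : ℝ) ^ (1 / α) / c1)
    refine ⟨C + 1, by omega, fun n => ?_⟩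
    rcases Nat.eq_zero_or_pos n with rfl | hn
    · rw [mul_zero, hexpo0]
      simp [FF]
    · have hn0 : n ≠ 0 := by omega
      have hn1 : (1 : ℝ) ≤ n := by exact_mod_cast hn
      rw [FF, if_neg hn0]
      unfold expo
      apply Nat.le_floor
      rw [Q_two_pow]
      apply Real.exp_le_exp.2
      rcases Nat.eq_zero_or_pos (kk ω n) with h0 | h0
      · rw [h0, pow_zero, one_mul]
        have h2 : (1 : ℝ) ≤ (((C + 1) * n : ℕ) : ℝ) ^ α := by
          apply Real.one_le_rpow _ hα0.le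
          have : 1 ≤ (C + 1) * n := Nat.mul_pos (by omega) hn
          exact_mod_cast this
        linarith
      · obtain ⟨k, hk⟩ : ∃ k, kk ω n = k + 1 := ⟨kk ω n - 1, by omega⟩
        have h2 := M_kk_lt ω n k (by omega)
        have h3 : c1 * lam ^ k ≤ n := by
          have h4 : (ell ω k : ℝ) ≤ n := by exact_mod_cast h2.le
          exact (h k).1.trans h4
        have h5 : (2 : ℝ) ^ (1 / α) ≤ C * c1 := by
          rwa [div_le_iff₀ h1] at hC
        have h6 : (2 : ℝ) ^ (1 / α) * lam ^ k ≤ (((C + 1) * n : ℕ) : ℝ) := by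
          push_cast
          calc (2 : ℝ) ^ (1 / α) * lam ^ k ≤ (C * c1) * lam ^ k := by gcongr
            _ = C * (c1 * lam ^ k) := by ring
            _ ≤ C * n := by gcongr
            _ ≤ (C + 1) * n := by nlinarith
        calc (2 : ℝ) ^ kk ω n * Real.log 2 ≤ 2 ^ kk ω n * 1 := by gcongr
          _ = ((2 : ℝ) ^ (1 / α)) ^ α * (lam ^ k) ^ α := by
              rw [hpow, ← Real.rpow_mul (by norm_num), one_div, inv_mul_cancel₀ hα0.ne',
                Real.rpow_one, hk, pow_succ]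
              ring
          _ = ((2 : ℝ) ^ (1 / α) * lam ^ k) ^ α := by
              rw [Real.mul_rpow (by positivity) (by positivity)]
          _ ≤ (((C + 1) * n : ℕ) : ℝ) ^ α := Real.rpow_le_rpow (by positivity) h6 hα0.le

end Pool.Agent.H776R2.Om
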