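import Mathlib
import Pool.Agent.H776R2.Om.Defs

set_option autoImplicit false

namespace Pool.Agent.H776R2.Om

open Pool.Agent.Results.MP_03d093_al.SphereBall Pool.Agent.H776R2.Grig

/-! Task A: Basic.lean -/

theorem col_eq (i : Fin 3) (x : V) : col i x = decide (x ≠ kil i) := sorry
theorem gno_sq (ω : Om) (s : Lt) : gno ω s * gno ω s = 1 := sorry
theorem gno_inv (ω : Om) (s : Lt) : (gno ω s)⁻¹ = gno ω s := sorry
theorem gno_lt (ω : Om) (x : V) : gno ω x.lt = xx ω x := sorry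
theorem evo_nil (ω : Om) : evo ω [] = 1 := sorry
theorem evo_cons (ω : Om) (s : Lt) (w : List Lt) : evo ω (s :: w) = gno ω s * evo ω w := sorry
theorem evo_append (ω : Om) (v w : List Lt) : evo ω (v ++ w) = evo ω v * evo ω w := sorry
theorem evo_reverse (ω : Om) (w : List Lt) : evo ω w.reverse = (evo ω w)⁻¹ := sorry
theorem sec_xx (ω : Om) (x : V) :
    Sec (xx ω x) (if x = kil (ω 0) then 1 else a) (xx (sh ω) x) := sorry
theorem xx_sq (ω : Om) (x : V) : xx ω x * xx ω x = 1 := sorry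
theorem xx_mul (ω : Om) (x y z : V) (h1 : x ≠ y) (h2 : y ≠ z) (h3 : x ≠ z) :
    xx ω x * xx ω y = xx ω z := sorry
theorem a_mem (ω : Om) : a ∈ Gom ω := sorry
theorem xx_mem (ω : Om) (x : V) : xx ω x ∈ Gom ω := sorry
theorem evo_mem (ω : Om) (w : List Lt) : evo ω w ∈ Gom ω := sorry
theorem exists_wordo {ω : Om} {g : P} (hg : g ∈ Gom ω) : ∃ w, evo ω w = g := sorry
/-- the element of `G_ω` given by a word -/
def evG (ω : Om) (w : List Lt) : Gom ω := ⟨evo ω w, evo_mem ω w⟩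
theorem exists_geodo (ω : Om) (g : Gom ω) : ∃ w : List Lt, w.length = lenO ω g ∧ evG ω w = g := sorry
theorem lenO_le (ω : Om) (w : List Lt) : lenO ω (evG ω w) ≤ w.length := sorry
theorem ballO_finite (ω : Om) (n : ℕ) : {g : Gom ω | lenO ω g ≤ n}.Finite := sorry
theorem ballO_mono (ω : Om) {m n : ℕ} (h : m ≤ n) : ballO ω m ≤ ballO ω n := sorry
theorem ballO_zero (ω : Om) : ballO ω 0 = 1 := sorry
theorem evo_nil_apply (ω : Om) (w : List Lt) : evo ω w [] = [] := sorry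
theorem ta_evo (ω : Om) (w : List Lt) : TA (evo ω w) := sorry
theorem lab_commo (ω : Om) {j n : ℕ} (hj : j < n) {q μ : List Bool → Bool} {we ws : List Lt}
    (he : Lab j q (evo ω we)) (hs : Lab n (fun u => μ (u.take j) && u.getD j false) (evo ω ws)) :
    Lab n (fun u => μ (u.take j) && q (u.take j)) (evo ω (we ++ ws ++ we.reverse ++ ws.reverse)) :=
  sorry
theorem evo_congr (N : ℕ) (η η' : Om) (h : ∀ i < N, η i = η' i) (w : List Lt) (u : List Bool)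
    (hu : u.length ≤ N) : evo η w u = evo η' w u := sorry
theorem sh_shi (i : ℕ) (ω : Om) : sh (shi i ω) = shi (i + 1) ω := sorry
theorem shi_zero (ω : Om) : shi 0 ω = ω := sorry

/-! Task B: Doub.lean -/

theorem sec_tho (ω : Om) (v : List V) :
    (Even (v.count (kil (ω 0))) →
      Sec (evo ω (U (tho (kil (ω 0)) v))) (a * evo (sh ω) (U v) * a) (evo (sh ω) (U v))) ∧
    (¬ Even (v.count (kil (ω 0))) →
      Sec (evo ω (U (tho (kil (ω 0)) v)) * a) (a * evo (sh ω) (U v)) (evo (sh ω) (U v) * a)) := sorry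
theorem count_tho (k x : V) (v : List V) :
    (tho k v).count x = if x = k then v.count k else v.count k + 2 * v.count x := sorry
theorem length_thi (ω : Om) (i : ℕ) (v : List V) :
    (thi ω i v).length = v.count .b * nn ω i .b + v.count .c * nn ω i .c + v.count .d * nn ω i .d :=
  sorry
theorem length_thi_le (ω : Om) (i : ℕ) (v : List V) :
    (thi ω i v).length ≤ v.length * ell ω i := sorry

/-! Task C: Norm.lean -/

theorem normal_formo (η : Om) (α : V → ℝ) (hα : Tri α) (w : List Lt) :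
    ∃ (e e' : Bool) (v : List V),
    evo η w = pa e * evo η (U v) * pa e' ∧ v.length ≤ w.length ∧ Kwo α (U v) ≤ Kwo α w ∧
    (∀ y z : V, y ≠ z → (Even (v.count y + v.count z) ↔ Even (w.count y.lt + w.count z.lt))) ∧
    (Even (v.length + e.toNat + e'.toNat) ↔ Even (w.count Lt.A)) := sorry

/-! Task D: Contr.lean -/

theorem tri_stp {α : V → ℝ} (h : Tri α) (k : V) : Tri (stp k α) := sorry
theorem contro (η : Om) (α : V → ℝ) (hα : Tri α) (v : List V) : ∃ w0 w1 : List Lt,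
    (Even v.length → Sec (evo η (U v)) (evo (sh η) w0) (evo (sh η) w1)) ∧
    (¬ Even v.length → Sec (evo η (U v) * a) (evo (sh η) w0) (evo (sh η) w1)) ∧
    Kwo (stp (kil (η 0)) α) w0 + Kwo (stp (kil (η 0)) α) w1 ≤
      Kwo α (U v) + 2 * (stp (kil (η 0)) α (kil (η 0)) - α (kil (η 0))) := sorry

/-! Task E: KLen.lean -/

theorem KO_nonneg (η : Om) (α : V → ℝ) (hα : Tri α) (g : P) : 0 ≤ KO η α g := sorry
theorem KO_section (η : Om) (α : V → ℝ) (hα : Tri α) (M : ℝ) (hM : ∀ x, α x ≤ M) (g : P)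
    (hg : g ∈ Gom η) : ∃ e : Bool, ∃ g0 ∈ Gom (sh η), ∃ g1 ∈ Gom (sh η),
    Sec (g * pa e) g0 g1 ∧
    KO (sh η) (stp (kil (η 0)) α) g0 + KO (sh η) (stp (kil (η 0)) α) g1 ≤ KO η α g + 2 * M := sorry
theorem lenO_le_KO (η : Om) (α : V → ℝ) (hα : Tri α) (c : ℝ) (hc : 0 < c) (h : ∀ x, c ≤ α x)
    (g : Gom η) : c * (lenO η g : ℝ) ≤ 2 * KO η α g + 2 * c := sorry
theorem KO_le_lenO (η : Om) (α : V → ℝ) (hα : Tri α) (M : ℝ) (hM : ∀ x, α x ≤ M) (g : Gom η) :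
    KO η α g ≤ M * lenO η g := sorry

/-! Task F: Upper.lean -/

theorem ZO_step (η : Om) (α : V → ℝ) (hα : Tri α) (M : ℝ) (hM : ∀ x, α x ≤ M) (s : ℝ) (hs : 0 ≤ s) :
    ZO η α s ≤ 2 * ENNReal.ofReal (Real.exp (2 * s * M)) * ZO (sh η) (stp (kil (η 0)) α) s ^ 2 := sorry
theorem ZO_unif : ∃ D : ENNReal, D < ⊤ ∧ ∀ (η : Om) (α : V → ℝ) (c : ℝ), Tri α → 0 < c →
    (∀ x, c ≤ α x) → ZO η α (4 / c) ≤ D := sorry
theorem ballO_upper_of (ω : Om) (c0 : ℝ) (hc0 : 0 < c0)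
    (h : ∀ i x, c0 * (ell ω i : ℝ) ≤ (nn ω i x : ℝ)) :
    ∃ C : ℝ, 0 < C ∧ ∀ k : ℕ, (ballO ω (ell ω k) : ℝ) ≤ Real.exp (C * 2 ^ k) := sorry

/-! Task W: Wt.lean -/

theorem al_zero (ω : Om) (x : V) : al ω 0 x = 1 := sorry
theorem al_succ (ω : Om) (i : ℕ) : al ω (i + 1) = stp (kil (ω i)) (al ω i) := sorry
theorem al_tri (ω : Om) (i : ℕ) : Tri (al ω i) := sorry
theorem nn_pos (ω : Om) (i : ℕ) (x : V) : 0 < nn ω i x := sorry
theorem nn_le_ell (ω : Om) (i : ℕ) (x : V) : nn ω i x ≤ ell ω i := sorry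
theorem ell_zero (ω : Om) : ell ω 0 = 1 := sorry
theorem ell_pos (ω : Om) (i : ℕ) : 0 < ell ω i := sorry
theorem two_nn_le (ω : Om) (i : ℕ) (x : V) : 2 * nn ω i x ≤ nn ω (i + 1) x := sorry
theorem two_ell_le (ω : Om) (i : ℕ) : 2 * ell ω i ≤ ell ω (i + 1) := sorry
theorem ell_succ_le (ω : Om) (i : ℕ) : ell ω (i + 1) ≤ 3 * ell ω i := sorry
theorem nn_hom {r : ℕ} {ω : Om} (h : Hom r ω) (i : ℕ) (x : V) :
    ell ω i * 2 ^ r ≤ nn ω (i + r) x := sorry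
theorem ell_grow {r : ℕ} {ω : Om} (h : Hom r ω) (i : ℕ) :
    8 * 2 ^ (12 * r) * ell ω i ≤ ell ω (i + 12 * r) := sorry
theorem nn_ge {r : ℕ} {ω : Om} (h : Hom r ω) (i : ℕ) (x : V) : ell ω i ≤ 3 ^ r * nn ω i x := sorry
theorem hom_change {r : ℕ} {ω : Om} (h : Hom r ω) (n : ℕ) :
    ∃ i, n ≤ i ∧ i < n + r ∧ ω i ≠ ω (i + 1) := sorry
theorem hom_pos {r : ℕ} {ω : Om} (h : Hom r ω) : 3 ≤ r := sorry

/-! Task J: Jsub.lean -/

theorem J_word {x : V} {η : Om} {g : P} (hg : g ∈ Jset x η) : ∃ w, evo η w = g ∧ EvC w := sorry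
theorem J_conj {x : V} {η : Om} {g c : P} (hg : g ∈ Jset x η) (hc : c ∈ Gom η) :
    c * g * c⁻¹ ∈ Jset x η := sorry
theorem J_lift (θ : Om) {g : P} (hg : g ∈ Jset (kil (θ 1)) (sh (sh θ))) :
    ∃ f ∈ Jset (kil (θ 0)) (sh θ), Sec f g 1 := sorry
theorem J_base (θ : Om) (h : θ 0 ≠ θ 1) :
    ∃ g ∈ Jset (kil (θ 0)) (sh θ), Lab 1 (fun _ => true) g := sorry

/-! Task K: Base.lean -/

theorem base_J (t : ℕ) : ∀ θ : Om, θ t ≠ θ (t + 1) → ∀ h : List Bool → Bool,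
    ∃ g ∈ Jset (kil (θ 0)) (sh θ), Lab (t + 1) (fun u => h (u.take t)) g := sorry
theorem base0 (s : ℕ) : ∃ B : ℕ, ∀ η : Om, η s ≠ η (s + 1) → ∀ h : List Bool → Bool,
    ∃ w : List Lt, w.length ≤ B ∧ EvC w ∧ Lab (s + 2) (fun u => h (u.take (s + 1))) (evo η w) := sorry
theorem base1 (t : ℕ) : ∃ B : ℕ, ∀ η : Om, η t ≠ η (t + 1) → ∀ h : List Bool → Bool,
    ∃ w : List Lt, w.length ≤ B ∧ EvC w ∧
      Lab (t + 2) (fun u => h ((u.drop 1).take t)) (evo η w) := sorry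

/-! Task S: Special.lean -/

theorem specialo (ω : Om) (s : ℕ) : ∃ S : ℕ, ∀ (h : List Bool → Bool) (m : ℕ),
    ω (m + s) ≠ ω (m + s + 1) → ∃ w : List Lt, w.length ≤ S * ell ω m ∧
      Lab (m + s + 2) (fun u => h ((u.drop m).take (s + 1))) (evo ω w) := sorry

/-! Task R: Realize.lean -/

theorem realizeo {r : ℕ} {ω : Om} (h : Hom r ω) : ∃ A : ℕ, ∀ (k j : ℕ), ω j ≠ ω (j + 1) →
    k + r + 2 ≤ j → j ≤ k + 2 * r + 4 → ∀ p : List Bool → Bool, ∃ w : List Lt,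
    w.length ≤ A * ell ω k ∧ Lab (j + 2) (fun u => p (u.take k)) (evo ω w) := sorry

/-! Task L: Lower.lean -/

theorem ballO_lower {r : ℕ} {ω : Om} (h : Hom r ω) : ∃ A : ℕ, ∀ k : ℕ,
    2 ^ 2 ^ k ≤ ballO ω (A * ell ω k) := sorry

/-! Task M: Fin.lean -/

theorem FF_lower (ω : Om) (A : ℕ) (h : ∀ k : ℕ, 2 ^ 2 ^ k ≤ ballO ω (A * ell ω k)) :
    ∃ C : ℕ, 1 ≤ C ∧ ∀ n : ℕ, FF ω n ≤ ballO ω (C * n) := sorry
theorem FF_upper (ω : Om) (C : ℝ) (h : ∀ k : ℕ, (ballO ω (ell ω k) : ℝ) ≤ Real.exp (C * 2 ^ k)) :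
    ∃ C : ℕ, 1 ≤ C ∧ ∀ n : ℕ, ballO ω n ≤ FF ω (C * n) := sorry

/-! Task Q: Pow.lean -/

/-- the function `n ↦ ⌊exp(n^α)⌋` -/
noncomputable def expo (α : ℝ) (n : ℕ) : ℕ := ⌊Real.exp ((n : ℝ) ^ α)⌋₊

theorem FF_expo (ω : Om) (lam c1 c2 : ℝ) (hl : 2 < lam) (h1 : 0 < c1)
    (h : ∀ k : ℕ, c1 * lam ^ k ≤ (ell ω k : ℝ) ∧ (ell ω k : ℝ) ≤ c2 * lam ^ k) :
    (∃ C : ℕ, 1 ≤ C ∧ ∀ n : ℕ, expo (Real.log 2 / Real.log lam) n ≤ FF ω (C * n)) ∧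
    (∃ C : ℕ, 1 ≤ C ∧ ∀ n : ℕ, FF ω n ≤ expo (Real.log 2 / Real.log lam) (C * n)) := sorry

/-! Task T: Per.lean -/

theorem per_hom (ω : Om) (p : ℕ) (hp : 1 ≤ p) (hper : ∀ n, ω (n + p) = ω n)
    (hall : ∀ x : Fin 3, ∃ n, ω n = x) : Hom p ω := sorry

theorem per_lam (ω : Om) (p : ℕ) (hp : 1 ≤ p) (hper : ∀ n, ω (n + p) = ω n)
    (hall : ∀ x : Fin 3, ∃ n, ω n = x) : ∃ lam c1 c2 : ℝ, 2 < lam ∧ lam ^ 2 ≤ 7 ∧ 0 < c1 ∧
    (∀ k : ℕ, c1 * lam ^ k ≤ (ell ω k : ℝ) ∧ (ell ω k : ℝ) ≤ c2 * lam ^ k) ∧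
    Filter.Tendsto (fun k : ℕ => ((ell ω k : ℝ)) ^ (1 / (k : ℝ))) Filter.atTop (nhds lam) := sorry

end Pool.Agent.H776R2.Om
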